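import Mathlib

set_option autoImplicit false

/-!
# Uniform bound for the number of representations `X² + D Y² = M`
-/

namespace Pool.Agent.Lib_helper43.Tori

/-- Arithmetic of primitive representations by a squarefree `D`. -/
lemma coprime_left {D M X Y q : ℤ} (hD : Squarefree D) (hXY : IsCoprime X Y)
    (h : X ^ 2 + D * Y ^ 2 = M) (hq : q ^ 2 ∣ M) : IsCoprime q X := by
  rw [Int.isCoprime_iff_gcd_eq_one]
  by_contra hne
  obtain ⟨p, hp, hpg⟩ := Nat.exists_prime_and_dvd hne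
  have hpq : (p : ℤ) ∣ q := (Int.natCast_dvd_natCast.2 hpg).trans (Int.gcd_dvd_left _ _)
  have hpX : (p : ℤ) ∣ X := (Int.natCast_dvd_natCast.2 hpg).trans (Int.gcd_dvd_right _ _)
  have hp' : Prime (p : ℤ) := Nat.prime_iff_prime_int.1 hp
  have h1 : (p : ℤ) ^ 2 ∣ M := (pow_dvd_pow_of_dvd hpq 2).trans hq
  have h2 : (p : ℤ) ^ 2 ∣ X ^ 2 := pow_dvd_pow_of_dvd hpX 2
  have h3 : (p : ℤ) ^ 2 ∣ D * Y ^ 2 := by
    have : D * Y ^ 2 = M - X ^ 2 := by linarith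
    rw [this]; exact dvd_sub h1 h2
  have hpY : IsCoprime ((p : ℤ) ^ 2) (Y ^ 2) := by
    apply IsCoprime.pow
    exact hXY.of_isCoprime_of_dvd_left hpX
  have h4 : (p : ℤ) ^ 2 ∣ D := hpY.dvd_of_dvd_mul_right h3
  rw [sq] at h4
  exact hp'.not_isUnit (hD _ h4)

lemma coprime_right {D M X Y q : ℤ} (hXY : IsCoprime X Y)
    (h : X ^ 2 + D * Y ^ 2 = M) (hq : q ∣ M) : IsCoprime q Y := by
  rw [Int.isCoprime_iff_gcd_eq_one]
  by_contra hne
  obtain ⟨p, hp, hpg⟩ := Nat.exists_prime_and_dvd hne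
  have hpq : (p : ℤ) ∣ q := (Int.natCast_dvd_natCast.2 hpg).trans (Int.gcd_dvd_left _ _)
  have hpY : (p : ℤ) ∣ Y := (Int.natCast_dvd_natCast.2 hpg).trans (Int.gcd_dvd_right _ _)
  have hp' : Prime (p : ℤ) := Nat.prime_iff_prime_int.1 hp
  have h1 : (p : ℤ) ∣ X ^ 2 := by
    have : X ^ 2 = M - D * (Y * Y) := by linarith
    rw [this]
    exact dvd_sub (hpq.trans hq) (dvd_mul_of_dvd_right (dvd_mul_of_dvd_left hpY _) _)
  have hpX : (p : ℤ) ∣ X := hp'.dvd_of_dvd_pow h1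
  exact hp'.not_isUnit (hXY.isUnit_of_dvd' hpX hpY)

/-- The key divisibility: two representations with the same gcd invariant are almost
proportional. -/
lemma dvd_two_cross {D M X₀ Y₀ X₁ Y₁ X₂ Y₂ d e : ℤ} (hD : Squarefree D) (hd : 0 < d)
    (hM : M = d * e) (c₀ : IsCoprime X₀ Y₀) (c₁ : IsCoprime X₁ Y₁)
    (h₀ : X₀ ^ 2 + D * Y₀ ^ 2 = M) (h₁ : X₁ ^ 2 + D * Y₁ ^ 2 = M) (h₂ : X₂ ^ 2 + D * Y₂ ^ 2 = M)
    (g₁ : (Int.gcd M (X₀ * Y₁ - X₁ * Y₀) : ℤ) = d) (g₂ : (Int.gcd M (X₀ * Y₂ - X₂ * Y₀) : ℤ) = d) :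
    M ∣ 2 * (X₁ * Y₂ - X₂ * Y₁) := by
  -- e divides the plus forms
  have plus : ∀ X Y : ℤ, X ^ 2 + D * Y ^ 2 = M → (Int.gcd M (X₀ * Y - X * Y₀) : ℤ) = d →
      d ∣ X₀ * Y - X * Y₀ ∧ e ∣ X₀ * Y + X * Y₀ := by
    intro X Y h g
    have hdA : d ∣ X₀ * Y - X * Y₀ := by rw [← g]; exact Int.gcd_dvd_right _ _
    refine ⟨hdA, ?_⟩
    obtain ⟨A', hA'⟩ := hdA
    have hcop : IsCoprime e A' := by
      rw [Int.isCoprime_iff_gcd_eq_one]
      have h1 : Int.gcd M (X₀ * Y - X * Y₀) = d.natAbs * Int.gcd e A' := by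
        rw [hA', hM, Int.gcd_mul_left]
      have h2 : ((d.natAbs : ℕ) : ℤ) = d := Int.natAbs_of_nonneg hd.le
      have h3 : (d : ℤ) = d * (Int.gcd e A' : ℤ) := by
        have h1' : ((Int.gcd M (X₀ * Y - X * Y₀) : ℕ) : ℤ) =
            ((d.natAbs : ℕ) : ℤ) * ((Int.gcd e A' : ℕ) : ℤ) := by
          rw [h1, Nat.cast_mul]
        rw [g, h2] at h1'
        exact h1'
      have h4 : (Int.gcd e A' : ℤ) = 1 := by
        have : d * ((Int.gcd e A' : ℤ) - 1) = 0 := by linarith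
        rcases mul_eq_zero.1 this with h | h
        · omega
        · linarith
      exact_mod_cast h4
    have hprod : (X₀ * Y - X * Y₀) * (X₀ * Y + X * Y₀) = M * (Y ^ 2 - Y₀ ^ 2) := by
      have e1 : X₀ ^ 2 = M - D * Y₀ ^ 2 := by linarith
      have e2 : X ^ 2 = M - D * Y ^ 2 := by linarith
      linear_combination Y ^ 2 * e1 - Y₀ ^ 2 * e2
    have h5 : d * (A' * (X₀ * Y + X * Y₀)) = d * (e * (Y ^ 2 - Y₀ ^ 2)) := by
      rw [hA', hM] at hprod; linarith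
    have h6 : A' * (X₀ * Y + X * Y₀) = e * (Y ^ 2 - Y₀ ^ 2) := mul_left_cancel₀ hd.ne' h5
    exact hcop.dvd_of_dvd_mul_left ⟨_, h6⟩
  obtain ⟨a1, b1⟩ := plus X₁ Y₁ h₁ g₁
  obtain ⟨a2, b2⟩ := plus X₂ Y₂ h₂ g₂
  set U := X₁ * Y₂ - X₂ * Y₁ with hU
  -- d ∣ U
  have hdU : d ∣ U := by
    have h1 : d ∣ X₀ * U := by
      have : X₀ * U = X₁ * (X₀ * Y₂ - X₂ * Y₀) - X₂ * (X₀ * Y₁ - X₁ * Y₀) := by rw [hU]; ring
      rw [this]; exact dvd_sub (dvd_mul_of_dvd_right a2 _) (dvd_mul_of_dvd_right a1 _)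
    have h2 : d ∣ Y₀ * U := by
      have : Y₀ * U = Y₁ * (X₀ * Y₂ - X₂ * Y₀) - Y₂ * (X₀ * Y₁ - X₁ * Y₀) := by rw [hU]; ring
      rw [this]; exact dvd_sub (dvd_mul_of_dvd_right a2 _) (dvd_mul_of_dvd_right a1 _)
    obtain ⟨s, t, hst⟩ := c₀
    have : U = s * (X₀ * U) + t * (Y₀ * U) := by linear_combination (-U) * hst
    rw [this]; exact dvd_add (dvd_mul_of_dvd_right h1 _) (dvd_mul_of_dvd_right h2 _)
  have heU : e ∣ U := by
    have h1 : e ∣ X₀ * U := by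
      have : X₀ * U = X₁ * (X₀ * Y₂ + X₂ * Y₀) - X₂ * (X₀ * Y₁ + X₁ * Y₀) := by rw [hU]; ring
      rw [this]; exact dvd_sub (dvd_mul_of_dvd_right b2 _) (dvd_mul_of_dvd_right b1 _)
    have h2 : e ∣ Y₀ * U := by
      have : Y₀ * U = Y₂ * (X₀ * Y₁ + X₁ * Y₀) - Y₁ * (X₀ * Y₂ + X₂ * Y₀) := by rw [hU]; ring
      rw [this]; exact dvd_sub (dvd_mul_of_dvd_right b1 _) (dvd_mul_of_dvd_right b2 _)
    obtain ⟨s, t, hst⟩ := c₀
    have : U = s * (X₀ * U) + t * (Y₀ * U) := by linear_combination (-U) * hst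
    rw [this]; exact dvd_add (dvd_mul_of_dvd_right h1 _) (dvd_mul_of_dvd_right h2 _)
  -- gcd d e ∣ 2
  set q : ℤ := (Int.gcd d e : ℤ) with hq
  have hqd : q ∣ d := Int.gcd_dvd_left _ _
  have hqe : q ∣ e := Int.gcd_dvd_right _ _
  have hq2 : q ^ 2 ∣ M := by rw [sq, hM]; exact mul_dvd_mul hqd hqe
  have hcX : IsCoprime q X₀ := coprime_left hD c₀ h₀ hq2
  have hcY : IsCoprime q Y₁ := coprime_right c₁ h₁ ((dvd_pow_self q two_ne_zero).trans hq2)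
  have hqq : q ∣ 2 := by
    have h1 : q ∣ 2 * (X₀ * Y₁) := by
      have : 2 * (X₀ * Y₁) = (X₀ * Y₁ - X₁ * Y₀) + (X₀ * Y₁ + X₁ * Y₀) := by ring
      rw [this]; exact dvd_add (hqd.trans a1) (hqe.trans b1)
    exact (hcX.mul_right hcY).dvd_of_dvd_mul_right h1
  -- lcm
  have hlcm : (Int.lcm d e : ℤ) ∣ U := Int.coe_lcm_dvd hdU heU
  have hgl : (q * (Int.lcm d e : ℤ)).natAbs = M.natAbs := by
    rw [Int.natAbs_mul, hM, Int.natAbs_mul, hq]
    simp only [Int.natAbs_natCast]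
    rw [Int.gcd, Int.lcm, Nat.gcd_mul_lcm]
  have h7 : q * (Int.lcm d e : ℤ) ∣ 2 * U := mul_dvd_mul hqq hlcm
  rw [← Int.natAbs_dvd_natAbs] at h7 ⊢
  rwa [hgl] at h7

/-- Number of primitive representations, squarefree case. -/
lemma card_primitive {D M : ℤ} (hD : Squarefree D) (hD1 : 1 ≤ D) (hM : 0 < M)
    (F : Finset (ℤ × ℤ)) (hF : ∀ s ∈ F, IsCoprime s.1 s.2 ∧ s.1 ^ 2 + D * s.2 ^ 2 = M) :
    F.card ≤ 10 * M.natAbs.divisors.card := by
  classical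
  rcases F.eq_empty_or_nonempty with rfl | ⟨s₀, hs₀⟩
  · simp
  obtain ⟨c₀, h₀⟩ := hF s₀ hs₀
  set φ : ℤ × ℤ → ℕ := fun s => Int.gcd M (s₀.1 * s.2 - s.1 * s₀.2) with hφ
  have hmap : ∀ s ∈ F, φ s ∈ M.natAbs.divisors := by
    intro s _
    rw [Nat.mem_divisors]
    exact ⟨Int.gcd_dvd_natAbs_left _ _, by omega⟩
  refine Finset.card_le_mul_card_image_of_maps_to hmap 10 fun d hd => ?_
  set G := F.filter (fun s => φ s = d) with hG
  rcases G.eq_empty_or_nonempty with hE | ⟨s₁, hs₁⟩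
  · rw [hE]; simp
  obtain ⟨hs₁F, hs₁d⟩ := Finset.mem_filter.1 hs₁
  obtain ⟨c₁, h₁⟩ := hF s₁ hs₁F
  have hd0 : 0 < d := Nat.pos_of_mem_divisors hd
  have hdM : (d : ℤ) ∣ M := by
    have := Nat.dvd_of_mem_divisors hd
    rwa [← Int.natCast_dvd] at this
  obtain ⟨e, he⟩ := hdM
  -- injection into Icc (-2) 2 × Bool
  set ψ : ℤ × ℤ → ℤ × Bool := fun s =>
    (2 * (s₁.1 * s.2 - s.1 * s₁.2) / M, decide (0 ≤ s₁.1 * s.1 + D * (s₁.2 * s.2))) with hψ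
  have hdiv : ∀ s ∈ G, M ∣ 2 * (s₁.1 * s.2 - s.1 * s₁.2) := by
    intro s hs
    obtain ⟨hsF, hsd⟩ := Finset.mem_filter.1 hs
    obtain ⟨c₂, h₂⟩ := hF s hsF
    refine dvd_two_cross hD (by exact_mod_cast hd0 : (0 : ℤ) < d) he c₀ c₁ h₀ h₁ h₂ ?_ ?_
    · exact_mod_cast hs₁d
    · exact_mod_cast hsd
  have hid : ∀ s ∈ G, (s₁.1 * s.1 + D * (s₁.2 * s.2)) ^ 2 +
      D * (s₁.1 * s.2 - s.1 * s₁.2) ^ 2 = M ^ 2 := by
    intro s hs
    obtain ⟨hsF, -⟩ := Finset.mem_filter.1 hs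
    obtain ⟨-, h₂⟩ := hF s hsF
    have : M ^ 2 = (s₁.1 ^ 2 + D * s₁.2 ^ 2) * (s.1 ^ 2 + D * s.2 ^ 2) := by rw [h₁, h₂]; ring
    rw [this]; ring
  have hmaps : ∀ s ∈ G, ψ s ∈ (Finset.Icc (-2 : ℤ) 2) ×ˢ (Finset.univ : Finset Bool) := by
    intro s hs
    rw [Finset.mem_product]
    refine ⟨?_, Finset.mem_univ _⟩
    obtain ⟨k, hk⟩ := hdiv s hs
    have h1 : (ψ s).1 = k := by
      simp only [hψ]
      rw [hk, Int.mul_ediv_cancel_left _ hM.ne']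
    rw [h1, Finset.mem_Icc]
    have h2 := hid s hs
    set U := s₁.1 * s.2 - s.1 * s₁.2
    have h3 : U ^ 2 ≤ M ^ 2 := by
      nlinarith [sq_nonneg (s₁.1 * s.1 + D * (s₁.2 * s.2)), sq_nonneg U]
    have h4 : |U| ≤ M := by
      have := sq_le_sq.1 h3
      rwa [abs_of_pos hM] at this
    rw [abs_le] at h4
    constructor <;> nlinarith
  have hinj : Set.InjOn ψ G := by
    intro s hs t ht hst
    have hk : (ψ s).1 = (ψ t).1 := by rw [hst]
    have hb : (ψ s).2 = (ψ t).2 := by rw [hst]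
    simp only [hψ] at hk hb
    obtain ⟨k, hk1⟩ := hdiv s hs
    obtain ⟨l, hl1⟩ := hdiv t ht
    rw [hk1, hl1, Int.mul_ediv_cancel_left _ hM.ne', Int.mul_ediv_cancel_left _ hM.ne'] at hk
    have hU : s₁.1 * s.2 - s.1 * s₁.2 = s₁.1 * t.2 - t.1 * s₁.2 := by
      rw [hk] at hk1; linarith
    have e1 := hid s hs
    have e2 := hid t ht
    have hC2 : (s₁.1 * s.1 + D * (s₁.2 * s.2)) ^ 2 = (s₁.1 * t.1 + D * (s₁.2 * t.2)) ^ 2 := by
      rw [hU] at e1; linarith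
    have hC : s₁.1 * s.1 + D * (s₁.2 * s.2) = s₁.1 * t.1 + D * (s₁.2 * t.2) := by
      rcases sq_eq_sq_iff_eq_or_eq_neg.1 hC2 with h | h
      · exact h
      · rw [decide_eq_decide] at hb
        by_cases h0 : 0 ≤ s₁.1 * s.1 + D * (s₁.2 * s.2)
        · have := hb.1 h0
          omega
        · have : ¬ 0 ≤ s₁.1 * t.1 + D * (s₁.2 * t.2) := fun h' => h0 (hb.2 h')
          omega
    have hX : M * s.1 = M * t.1 := by
      have f1 : M * s.1 = s₁.1 * (s₁.1 * s.1 + D * (s₁.2 * s.2)) -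
          D * s₁.2 * (s₁.1 * s.2 - s.1 * s₁.2) := by rw [← h₁]; ring
      have f2 : M * t.1 = s₁.1 * (s₁.1 * t.1 + D * (s₁.2 * t.2)) -
          D * s₁.2 * (s₁.1 * t.2 - t.1 * s₁.2) := by rw [← h₁]; ring
      rw [f1, f2, hC, hU]
    have hY : M * s.2 = M * t.2 := by
      have f1 : M * s.2 = s₁.2 * (s₁.1 * s.1 + D * (s₁.2 * s.2)) +
          s₁.1 * (s₁.1 * s.2 - s.1 * s₁.2) := by rw [← h₁]; ring
      have f2 : M * t.2 = s₁.2 * (s₁.1 * t.1 + D * (s₁.2 * t.2)) +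
          s₁.1 * (s₁.1 * t.2 - t.1 * s₁.2) := by rw [← h₁]; ring
      rw [f1, f2, hC, hU]
    exact Prod.ext (mul_left_cancel₀ hM.ne' hX) (mul_left_cancel₀ hM.ne' hY)
  calc G.card ≤ ((Finset.Icc (-2 : ℤ) 2) ×ˢ (Finset.univ : Finset Bool)).card :=
        Finset.card_le_card_of_injOn ψ hmaps hinj
    _ = 10 := by rfl

/-- Number of representations, squarefree case. -/
lemma card_rep_squarefree {D M : ℤ} (hD : Squarefree D) (hD1 : 1 ≤ D) (hM : 0 < M)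
    (F : Finset (ℤ × ℤ)) (hF : ∀ s ∈ F, s.1 ^ 2 + D * s.2 ^ 2 = M) :
    F.card ≤ 10 * M.natAbs.divisors.card * M.natAbs.divisors.card := by
  classical
  have hgpos : ∀ s ∈ F, 0 < Int.gcd s.1 s.2 := by
    intro s hs
    rw [Nat.pos_iff_ne_zero]
    intro h0
    obtain ⟨h1, h2⟩ := Int.gcd_eq_zero_iff.1 h0
    have := hF s hs
    rw [h1, h2] at this
    omega
  have hgsq : ∀ s ∈ F, ((Int.gcd s.1 s.2 : ℕ) : ℤ) ^ 2 ∣ M := by
    intro s hs
    rw [← hF s hs]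
    apply dvd_add
    · exact pow_dvd_pow_of_dvd (Int.gcd_dvd_left _ _) 2
    · exact dvd_mul_of_dvd_right (pow_dvd_pow_of_dvd (Int.gcd_dvd_right _ _) 2) _
  have hmap : ∀ s ∈ F, Int.gcd s.1 s.2 ∈ M.natAbs.divisors := by
    intro s hs
    rw [Nat.mem_divisors]
    refine ⟨?_, by omega⟩
    have := (dvd_pow_self _ two_ne_zero).trans (hgsq s hs)
    rwa [Int.natCast_dvd] at this
  refine Finset.card_le_mul_card_image_of_maps_to hmap _ fun g hg => ?_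
  set G := F.filter (fun s => Int.gcd s.1 s.2 = g) with hG
  rcases G.eq_empty_or_nonempty with hE | ⟨s₁, hs₁⟩
  · rw [hE]; simp
  obtain ⟨hs₁F, hs₁g⟩ := Finset.mem_filter.1 hs₁
  have hg0 : 0 < g := Nat.pos_of_mem_divisors hg
  have hgM : (g : ℤ) ^ 2 ∣ M := by rw [← hs₁g]; exact hgsq s₁ hs₁F
  obtain ⟨M', hM'⟩ := hgM
  have hg0' : (0 : ℤ) < (g : ℤ) ^ 2 := by positivity
  have hM'0 : 0 < M' := by
    by_contra hcon
    push Not at hcon
    have : M ≤ 0 := by rw [hM']; exact mul_nonpos_of_nonneg_of_nonpos hg0'.le hcon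
    omega
  -- scale
  set θ : ℤ × ℤ → ℤ × ℤ := fun s => (s.1 / g, s.2 / g) with hθ
  have hsc : ∀ s ∈ G, s.1 = g * (θ s).1 ∧ s.2 = g * (θ s).2 := by
    intro s hs
    obtain ⟨-, hsg⟩ := Finset.mem_filter.1 hs
    constructor
    · simp only [hθ]
      rw [Int.mul_ediv_cancel']
      rw [← hsg]; exact Int.gcd_dvd_left _ _
    · simp only [hθ]
      rw [Int.mul_ediv_cancel']
      rw [← hsg]; exact Int.gcd_dvd_right _ _
  have hinj : Set.InjOn θ G := by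
    intro s hs t ht hst
    obtain ⟨a1, a2⟩ := hsc s hs
    obtain ⟨b1, b2⟩ := hsc t ht
    exact Prod.ext (by rw [a1, b1, hst]) (by rw [a2, b2, hst])
  have hprim := card_primitive hD hD1 hM'0 (G.image θ) (by
    intro t ht
    obtain ⟨s, hs, rfl⟩ := Finset.mem_image.1 ht
    obtain ⟨a1, a2⟩ := hsc s hs
    obtain ⟨hsF, hsg⟩ := Finset.mem_filter.1 hs
    constructor
    · rw [Int.isCoprime_iff_gcd_eq_one]
      have h1 : Int.gcd s.1 s.2 = g * Int.gcd (θ s).1 (θ s).2 := by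
        conv_lhs => rw [a1, a2]
        rw [Int.gcd_mul_left]; simp
      rw [hsg] at h1
      have : g * 1 = g * Int.gcd (θ s).1 (θ s).2 := by rw [mul_one]; exact h1
      exact (Nat.eq_of_mul_eq_mul_left hg0 this).symm
    · have h1 := hF s hsF
      rw [a1, a2, hM'] at h1
      have h2 : (g : ℤ) ^ 2 * ((θ s).1 ^ 2 + D * (θ s).2 ^ 2) = (g : ℤ) ^ 2 * M' := by linarith
      exact mul_left_cancel₀ hg0'.ne' h2)
  rw [Finset.card_image_of_injOn hinj] at hprim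
  refine hprim.trans (Nat.mul_le_mul_left _ ?_)
  apply Finset.card_le_card
  apply Nat.divisors_subset_of_dvd (by omega)
  rw [hM', Int.natAbs_mul]
  exact dvd_mul_left _ _

/-- Uniform bound for the number of representations. -/
theorem card_rep {D M : ℤ} (hD1 : 1 ≤ D) (hM : 0 < M)
    (F : Finset (ℤ × ℤ)) (hF : ∀ s ∈ F, s.1 ^ 2 + D * s.2 ^ 2 = M) :
    F.card ≤ 10 * M.natAbs.divisors.card * M.natAbs.divisors.card := by
  classical
  obtain ⟨a, b, hab, hsf⟩ := Nat.sq_mul_squarefree D.natAbs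
  have hDa : D = (b : ℤ) ^ 2 * a := by
    have : (D.natAbs : ℤ) = D := Int.natAbs_of_nonneg (by omega)
    rw [← this, ← hab]; push_cast; ring
  have hb0 : (b : ℤ) ≠ 0 := by
    rintro hb
    rw [hb] at hDa
    norm_num at hDa
    omega
  have ha1 : (1 : ℤ) ≤ a := by
    have : (a : ℤ) ≠ 0 := by
      rintro ha
      rw [ha, mul_zero] at hDa
      omega
    omega
  have hsf' : Squarefree (a : ℤ) := Int.squarefree_natCast.2 hsf
  have := card_rep_squarefree hsf' ha1 hM (F.image fun s => (s.1, (b : ℤ) * s.2)) (by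
    intro t ht
    obtain ⟨s, hs, rfl⟩ := Finset.mem_image.1 ht
    have := hF s hs
    rw [hDa] at this
    simp only
    linarith)
  rwa [Finset.card_image_of_injective] at this
  intro s t hst
  simp only [Prod.mk.injEq] at hst
  exact Prod.ext hst.1 (mul_left_cancel₀ hb0 hst.2)

end Pool.Agent.Lib_helper43.Tori
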