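import Pool.Agent.Lib_helper43.Tori.Vand2

set_option autoImplicit false

/-!
# Translation and scaling of the determinant
-/

namespace Pool.Agent.Lib_helper43.Tori

open Matrix

variable {R : Type*} [CommRing R]

/-- The matrix `Bm` before reindexing its columns. -/
def Cm (d : ℕ) (x s : Fin (d + 1 + d) → R) : Matrix (Fin (d + 1 + d)) (Fin (d + 1) ⊕ Fin d) R :=
  Matrix.of fun i j => phi d (x i) (s i) j

lemma Bm_eq (d : ℕ) (x s : Fin (d + 1 + d) → R) :
    Bm d x s = (Cm d x s).reindex (Equiv.refl _) finSumFinEquiv := rfl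

lemma Bm_mul (d : ℕ) (x s : Fin (d + 1 + d) → R)
    (E : Matrix (Fin (d + 1) ⊕ Fin d) (Fin (d + 1) ⊕ Fin d) R) :
    ((Cm d x s * E).reindex (Equiv.refl _) finSumFinEquiv).det = (Bm d x s).det * E.det := by
  rw [Bm_eq, ← Matrix.det_reindex_self finSumFinEquiv E, ← Matrix.det_mul]
  congr 1
  ext i j
  simp only [Matrix.reindex_apply, Matrix.submatrix_apply, Matrix.mul_apply]
  rw [← finSumFinEquiv.sum_comp]
  simp

lemma Bm_det_add_left (d : ℕ) (x s : Fin (d + 1 + d) → R) (x0 : R) :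
    (Bm d (fun i => x i + x0) s).det = (Bm d x s).det := by
  set E : Matrix (Fin (d + 1) ⊕ Fin d) (Fin (d + 1) ⊕ Fin d) R :=
    Matrix.fromBlocks 1 (Matrix.of fun l' l => if (l' : ℕ) = (l : ℕ) then x0 else 0) 0 1 with hE
  have hdet : E.det = 1 := by
    rw [hE, Matrix.det_fromBlocks_zero₂₁, Matrix.det_one, Matrix.det_one, one_mul]
  have h := Bm_mul d x s E
  rw [hdet, mul_one] at h
  rw [← h, Bm_eq]
  congr 2
  ext i j
  rw [Matrix.mul_apply, Fintype.sum_sum_type]
  rcases j with l | l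
  · simp only [Cm, Matrix.of_apply, phi, hE, Matrix.fromBlocks_apply₁₁, Matrix.fromBlocks_apply₂₁,
      Matrix.zero_apply, mul_zero, Finset.sum_const_zero, add_zero, Matrix.one_apply, mul_ite,
      mul_one, Finset.sum_ite_eq', Finset.mem_univ, if_true]
  · simp only [Cm, Matrix.of_apply, phi, hE, Matrix.fromBlocks_apply₁₂, Matrix.fromBlocks_apply₂₂,
      Matrix.one_apply, mul_ite, mul_one, mul_zero, Finset.sum_ite_eq', Finset.mem_univ, if_true]
    rw [Finset.sum_eq_single (⟨(l : ℕ), by omega⟩ : Fin (d + 1))]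
    · simp; ring
    · intro b _ hb
      rw [if_neg]
      intro h
      exact hb (Fin.ext h)
    · intro h
      exact absurd (Finset.mem_univ _) h

/-- The Pascal type matrix. -/
def Pm (m : ℕ) (s0 : R) : Matrix (Fin m) (Fin m) R :=
  Matrix.of fun j l => ((l : ℕ).choose (j : ℕ) : R) * s0 ^ ((l : ℕ) - (j : ℕ))

lemma Pm_det (m : ℕ) (s0 : R) : (Pm m s0).det = 1 := by
  rw [Matrix.det_of_isUpperTriangular]
  · refine Finset.prod_eq_one fun i _ => ?_
    simp [Pm]
  · intro i j hij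
    simp only [id_eq] at hij
    simp only [Pm, Matrix.of_apply]
    rw [Nat.choose_eq_zero_of_lt (by exact_mod_cast hij)]
    simp

lemma Pm_sum (m : ℕ) (s s0 : R) (l : Fin m) :
    ∑ j : Fin m, s ^ (j : ℕ) * Pm m s0 j l = (s + s0) ^ (l : ℕ) := by
  rw [add_pow]
  simp only [Pm, Matrix.of_apply]
  rw [Finset.sum_fin_eq_sum_range]
  symm
  rw [← Finset.sum_subset (Finset.range_subset_range.2 (show (l : ℕ) + 1 ≤ m from l.2))]
  · refine Finset.sum_congr rfl fun j hj => ?_
    have hj' : j < m := lt_of_lt_of_le (Finset.mem_range.1 hj) l.2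
    rw [dif_pos hj']
    ring
  · intro j hj hj2
    have h1 : j < m := Finset.mem_range.1 hj
    rw [dif_pos h1]
    have h2 : (l : ℕ) < j := by
      rw [Finset.mem_range] at hj2
      omega
    simp only
    rw [Nat.choose_eq_zero_of_lt h2]
    simp

lemma Bm_det_add_right (d : ℕ) (x s : Fin (d + 1 + d) → R) (s0 : R) :
    (Bm d x (fun i => s i + s0)).det = (Bm d x s).det := by
  set E : Matrix (Fin (d + 1) ⊕ Fin d) (Fin (d + 1) ⊕ Fin d) R :=
    Matrix.fromBlocks (Pm (d + 1) s0) 0 0 (Pm d s0) with hE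
  have hdet : E.det = 1 := by
    rw [hE, Matrix.det_fromBlocks_zero₂₁, Pm_det, Pm_det, one_mul]
  have h := Bm_mul d x s E
  rw [hdet, mul_one] at h
  rw [← h, Bm_eq]
  congr 2
  ext i j
  rw [Matrix.mul_apply, Fintype.sum_sum_type]
  rcases j with l | l
  · simp only [Cm, Matrix.of_apply, phi, hE, Matrix.fromBlocks_apply₁₁, Matrix.fromBlocks_apply₂₁,
      Matrix.zero_apply, mul_zero, Finset.sum_const_zero, add_zero]
    rw [Pm_sum]
  · simp only [Cm, Matrix.of_apply, phi, hE, Matrix.fromBlocks_apply₁₂, Matrix.fromBlocks_apply₂₂,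
      Matrix.zero_apply, mul_zero, Finset.sum_const_zero, zero_add]
    rw [← Pm_sum, Finset.mul_sum]
    exact Finset.sum_congr rfl fun j _ => by ring

lemma Bm_det_mul (d : ℕ) (x s : Fin (d + 1 + d) → R) (q : R) :
    (Bm d (fun i => q * x i) (fun i => q * s i)).det = q ^ (d ^ 2 + d) * (Bm d x s).det := by
  have h1 : Bm d (fun i => q * x i) (fun i => q * s i) = Matrix.of fun i j =>
      (Sum.elim (fun l : Fin (d + 1) => q ^ (l : ℕ)) (fun l : Fin d => q * q ^ (l : ℕ))
        (finSumFinEquiv.symm j)) * Bm d x s i j := by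
    ext i j
    simp only [Bm, Matrix.of_apply]
    rcases finSumFinEquiv.symm j with l | l
    · simp only [phi, Sum.elim_inl]
      ring
    · simp only [phi, Sum.elim_inr]
      ring
  rw [h1, Matrix.det_mul_row]
  congr 1
  rw [← (finSumFinEquiv (m := d + 1) (n := d)).prod_comp, Fintype.prod_sum_type]
  simp only [Equiv.symm_apply_apply, Sum.elim_inl, Sum.elim_inr]
  rw [Finset.prod_mul_distrib, Finset.prod_pow_eq_pow_sum, Finset.prod_pow_eq_pow_sum,
    Finset.prod_const, Finset.card_univ, Fintype.card_fin, pow_add, ← sum_exponents d, pow_add]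
  ring

lemma Bm_det_congr (d : ℕ) (x s : Fin (d + 1 + d) → ℤ) (q : ℤ)
    (hx : ∀ i j, q ∣ x i - x j) (hs : ∀ i j, q ∣ s i - s j) :
    ∃ Δ : ℤ, (Bm d x s).det = q ^ (d ^ 2 + d) * Δ := by
  set o : Fin (d + 1 + d) := ⟨0, by omega⟩
  choose x' hx' using fun i => hx i o
  choose s' hs' using fun i => hs i o
  refine ⟨(Bm d x' s').det, ?_⟩
  have hx2 : x = fun i => q * x' i + x o := by
    ext i; linarith [hx' i]
  have hs2 : s = fun i => q * s' i + s o := by
    ext i; linarith [hs' i]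
  rw [← Bm_det_mul, ← Bm_det_add_left d (fun i => q * x' i) _ (x o),
    ← Bm_det_add_right d (fun i => q * x' i + x o) _ (s o), ← hx2, ← hs2]

end Pool.Agent.Lib_helper43.Tori
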