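import Pool.Agent.Lib_helper43.Tori.Geom
import Pool.Agent.Lib_helper43.Tori.Shift

set_option autoImplicit false

/-!
# Few lattice points on short arcs of circles in rational planes
-/

namespace Pool.Agent.Lib_helper43.Tori

open Matrix Polynomial

lemma three_pow_mem {I : Ideal ℤ} {x y z : ℤ} {e : ℕ} (hx : x ^ e ∈ I) (hy : y ^ e ∈ I)
    (hz : z ^ e ∈ I) : (x + y + z) ^ (3 * e) ∈ I := by
  have h1 : (x + y) ^ (2 * e) ∈ I := I.add_pow_mem_of_pow_mem_of_le hx hy (by omega)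
  exact I.add_pow_mem_of_pow_mem_of_le h1 hz (by omega)

/-- For a primitive vector `w`, the ideal generated by the numbers `|w|² - w_k²` contains `2`. -/
lemma two_mem {w u : V3} (hu : dt u w = 1) :
    ∃ r : Fin 3 → ℤ, ∑ k, r k * (nq w - w k ^ 2) = 2 := by
  have h1 : ∃ c : Fin 3 → ℤ, ∑ k, c k * w k ^ 2 = 1 := by
    set I : Ideal ℤ := Ideal.span {w 0 ^ 2, w 1 ^ 2, w 2 ^ 2} with hI
    have m0 : (u 0 * w 0) ^ 2 ∈ I := by
      rw [mul_pow]; exact I.mul_mem_left _ (Ideal.subset_span (by simp))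
    have m1 : (u 1 * w 1) ^ 2 ∈ I := by
      rw [mul_pow]; exact I.mul_mem_left _ (Ideal.subset_span (by simp))
    have m2 : (u 2 * w 2) ^ 2 ∈ I := by
      rw [mul_pow]; exact I.mul_mem_left _ (Ideal.subset_span (by simp))
    have h := three_pow_mem m0 m1 m2
    have h2 : u 0 * w 0 + u 1 * w 1 + u 2 * w 2 = 1 := hu
    rw [h2, one_pow] at h
    obtain ⟨a, b, c, habc⟩ := Submodule.mem_span_triple.1 h
    refine ⟨![a, b, c], ?_⟩
    rw [Fin.sum_univ_three]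
    simpa using habc
  obtain ⟨c, hc⟩ := h1
  refine ⟨![c 1 + c 2 - c 0, c 0 + c 2 - c 1, c 0 + c 1 - c 2], ?_⟩
  rw [Fin.sum_univ_three] at hc ⊢
  simp only [Matrix.cons_val_zero, Matrix.cons_val_one, Matrix.cons_val]
  unfold nq
  linear_combination 2 * hc

lemma two_pow_mem {w u : V3} (hu : dt u w = 1) (e : ℕ) :
    ∃ c : Fin 3 → ℤ, ∑ k, c k * (nq w - w k ^ 2) ^ e = 2 ^ (3 * e) := by
  obtain ⟨r, hr⟩ := two_mem hu
  set I : Ideal ℤ := Ideal.span {(nq w - w 0 ^ 2) ^ e, (nq w - w 1 ^ 2) ^ e, (nq w - w 2 ^ 2) ^ e}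
    with hI
  have m0 : (r 0 * (nq w - w 0 ^ 2)) ^ e ∈ I := by
    rw [mul_pow]; exact I.mul_mem_left _ (Ideal.subset_span (by simp))
  have m1 : (r 1 * (nq w - w 1 ^ 2)) ^ e ∈ I := by
    rw [mul_pow]; exact I.mul_mem_left _ (Ideal.subset_span (by simp))
  have m2 : (r 2 * (nq w - w 2 ^ 2)) ^ e ∈ I := by
    rw [mul_pow]; exact I.mul_mem_left _ (Ideal.subset_span (by simp))
  have h := three_pow_mem m0 m1 m2
  rw [Fin.sum_univ_three] at hr
  rw [hr] at h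
  obtain ⟨a, b, c, habc⟩ := Submodule.mem_span_triple.1 h
  refine ⟨![a, b, c], ?_⟩
  rw [Fin.sum_univ_three]
  simpa using habc

lemma cr_identity {w η : V3} (h : dt w η = 0) (k : Fin 3) :
    (cr w η k) ^ 2 + nq w * (η k) ^ 2 = (nq w - w k ^ 2) * nq η := by
  unfold dt at h
  fin_cases k
  · simp only [Fin.zero_eta, cr_zero, nq]
    linear_combination (w 0 * η 0 - w 1 * η 1 - w 2 * η 2) * h
  · simp only [Fin.mk_one, cr_one, nq]
    linear_combination (w 1 * η 1 - w 0 * η 0 - w 2 * η 2) * h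
  · simp only [Fin.reduceFinMk, cr_two, nq]
    linear_combination (w 2 * η 2 - w 0 * η 0 - w 1 * η 1) * h

lemma cr_sub (w x y : V3) (k : Fin 3) : cr w (x - y) k = cr w x k - cr w y k := by
  fin_cases k
  · simp only [Fin.zero_eta, cr_zero, Pi.sub_apply]; ring
  · simp only [Fin.mk_one, cr_one, Pi.sub_apply]; ring
  · simp only [Fin.reduceFinMk, cr_two, Pi.sub_apply]; ring

/-- The integral determinant identity, one for each coordinate. -/
lemma exists_delta (d : ℕ) (hd : 0 < d) {w : V3} (hw : w ≠ 0) {N : ℤ} (hN : 0 < N)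
    (η : Fin (d + 1 + d) → V3) (hη : ∀ i, dt w (η i) = 0) (hηN : ∀ i, nq (η i) = N) {q : ℤ}
    (hq : ∀ i j k, q ∣ η i k - η j k) (k : Fin 3) :
    ∃ Δ : ℤ, ((nq w : ℝ) * N) ^ (d ^ 2) * ((q : ℝ) ^ (d ^ 2 + d) * (Δ : ℝ)) ^ 2 =
      kap d * ((nq w - w k ^ 2 : ℤ) : ℝ) ^ (d ^ 2 + d) *
        ∏ i, ∏ j ∈ Finset.Ioi i, (nq (η j - η i) : ℝ) := by
  have ha0 : 0 ≤ nq w - w k ^ 2 := by
    unfold nq
    fin_cases k
    · simp only [Fin.zero_eta]; nlinarith [sq_nonneg (w 1), sq_nonneg (w 2)]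
    · simp only [Fin.mk_one]; nlinarith [sq_nonneg (w 0), sq_nonneg (w 2)]
    · simp only [Fin.reduceFinMk]; nlinarith [sq_nonneg (w 0), sq_nonneg (w 1)]
  rcases ha0.eq_or_lt with h0 | hpos
  · refine ⟨0, ?_⟩
    rw [← h0]
    have : d ≠ 0 := hd.ne'
    simp [this]
  set a : ℤ := nq w - w k ^ 2 with ha
  have haR : (0 : ℝ) < a := by exact_mod_cast hpos
  have hNR : (0 : ℝ) < N := by exact_mod_cast hN
  have hDR : (0 : ℝ) < nq w := by exact_mod_cast nq_pos hw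
  have hcrq : ∀ i j, q ∣ cr w (η i) k - cr w (η j) k := by
    intro i j
    rw [← cr_sub]
    have h0 := hq i j 0
    have h1 := hq i j 1
    have h2 := hq i j 2
    fin_cases k
    · simp only [Fin.zero_eta, cr_zero, Pi.sub_apply]
      exact dvd_sub (h2.mul_left _) (h1.mul_left _)
    · simp only [Fin.mk_one, cr_one, Pi.sub_apply]
      exact dvd_sub (h0.mul_left _) (h2.mul_left _)
    · simp only [Fin.reduceFinMk, cr_two, Pi.sub_apply]
      exact dvd_sub (h1.mul_left _) (h0.mul_left _)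
  obtain ⟨Δ, hΔ⟩ := Bm_det_congr d (fun i => cr w (η i) k) (fun i => η i k) q hcrq
    (fun i j => hq i j k)
  refine ⟨Δ, ?_⟩
  have hΔR : (((Bm d (fun i => cr w (η i) k) (fun i => η i k)).det : ℤ) : ℝ) =
      (q : ℝ) ^ (d ^ 2 + d) * (Δ : ℝ) := by
    rw [hΔ]; push_cast; rfl
  rw [← hΔR]
  have h1 := ellipse_det d (nq w) (a * N) hDR (mul_pos haR hNR)
    (fun i => ((cr w (η i) k : ℤ) : ℝ)) (fun i => ((η i k : ℤ) : ℝ)) (by
      intro i
      have := cr_identity (hη i) k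
      rw [hηN i] at this
      exact_mod_cast this)
  have h2 : (Bm d (fun i => ((cr w (η i) k : ℤ) : ℝ)) (fun i => ((η i k : ℤ) : ℝ))).det =
      (((Bm d (fun i => cr w (η i) k) (fun i => η i k)).det : ℤ) : ℝ) :=
    Bm_det_map (Int.castRingHom ℝ) d _ _
  rw [h2] at h1
  have h3 : ∏ i, ∏ j ∈ Finset.Ioi i, ((((cr w (η j) k : ℤ) : ℝ) - ((cr w (η i) k : ℤ) : ℝ)) ^ 2 +
      (nq w : ℝ) * (((η j k : ℤ) : ℝ) - ((η i k : ℤ) : ℝ)) ^ 2) =
      (a : ℝ) ^ (2 * d ^ 2 + d) * ∏ i, ∏ j ∈ Finset.Ioi i, (nq (η j - η i) : ℝ) := by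
    rw [← prod_pairs_const, ← Finset.prod_mul_distrib]
    refine Finset.prod_congr rfl fun i _ => ?_
    rw [← Finset.prod_mul_distrib]
    refine Finset.prod_congr rfl fun j _ => ?_
    have hij : dt w (η j - η i) = 0 := by
      have e1 := hη i
      have e2 := hη j
      unfold dt at *
      simp only [Pi.sub_apply]
      linear_combination e2 - e1
    have := cr_identity hij k
    rw [cr_sub, Pi.sub_apply] at this
    exact_mod_cast this
  rw [h3] at h1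
  have h4 : (a : ℝ) ^ (d ^ 2) ≠ 0 := pow_ne_zero _ haR.ne'
  apply mul_left_cancel₀ h4
  calc (a : ℝ) ^ (d ^ 2) * (((nq w : ℝ) * N) ^ (d ^ 2) *
        (((Bm d (fun i => cr w (η i) k) (fun i => η i k)).det : ℤ) : ℝ) ^ 2)
      = ((nq w : ℝ) * (a * N)) ^ (d ^ 2) *
        (((Bm d (fun i => cr w (η i) k) (fun i => η i k)).det : ℤ) : ℝ) ^ 2 := by
        rw [← mul_assoc, ← mul_pow]; ring
    _ = _ := by
        rw [h1]; ring

/-- **Few lattice points on short arcs**: `2 d + 1` distinct lattice points, congruent to each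
other modulo `q`, on the circle of radius `√N` in the plane orthogonal to the primitive vector `w`
are not too close to each other. -/
theorem arcs (d : ℕ) (hd : 0 < d) {w u : V3} (hu : dt u w = 1) {N : ℤ} (hN : 0 < N)
    (η : Fin (d + 1 + d) → V3) (hinj : Function.Injective η) (hη : ∀ i, dt w (η i) = 0)
    (hηN : ∀ i, nq (η i) = N) {q : ℤ} (hq : ∀ i j k, q ∣ η i k - η j k) :
    ((nq w : ℝ) * N) ^ (d ^ 2) * ((q : ℝ) ^ (d ^ 2 + d)) ^ 2 ≤ kap d * 2 ^ (3 * (d ^ 2 + d)) *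
        ∏ i, ∏ j ∈ Finset.Ioi i, (nq (η j - η i) : ℝ) := by
  have hw : w ≠ 0 := by
    rintro rfl
    simp [dt] at hu
  have hNR : (0 : ℝ) < N := by exact_mod_cast hN
  have hDR : (0 : ℝ) < nq w := by exact_mod_cast nq_pos hw
  choose Δ hΔ using exists_delta d hd hw hN η hη hηN hq
  obtain ⟨c, hc⟩ := two_pow_mem hu (d ^ 2 + d)
  set P : ℝ := ∏ i, ∏ j ∈ Finset.Ioi i, (nq (η j - η i) : ℝ) with hP
  have hP0 : 0 < P := by
    refine Finset.prod_pos fun i _ => Finset.prod_pos fun j hj => ?_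
    have hne : η j - η i ≠ 0 := sub_ne_zero.2 fun h =>
      (ne_of_gt (Finset.mem_Ioi.1 hj)) (hinj h)
    exact_mod_cast nq_pos hne
  set m : ℤ := ∑ k, c k * Δ k ^ 2 with hm
  have h1 : kap d * 2 ^ (3 * (d ^ 2 + d)) * P =
      ((nq w : ℝ) * N) ^ (d ^ 2) * ((q : ℝ) ^ (d ^ 2 + d)) ^ 2 * m := by
    have hcR : ∑ k, (c k : ℝ) * ((nq w - w k ^ 2 : ℤ) : ℝ) ^ (d ^ 2 + d) =
        2 ^ (3 * (d ^ 2 + d)) := by exact_mod_cast hc
    rw [← hcR, Finset.mul_sum, Finset.sum_mul, hm]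
    push_cast
    rw [Finset.mul_sum]
    refine Finset.sum_congr rfl fun k _ => ?_
    have := hΔ k
    push_cast at this
    linear_combination (-(c k : ℝ)) * this
  have hpow : 0 ≤ ((nq w : ℝ) * N) ^ (d ^ 2) * ((q : ℝ) ^ (d ^ 2 + d)) ^ 2 := by positivity
  have hm1 : 1 ≤ m := by
    have h2 : 0 < ((nq w : ℝ) * N) ^ (d ^ 2) * ((q : ℝ) ^ (d ^ 2 + d)) ^ 2 * m := by
      rw [← h1]
      have := kap_pos d
      positivity
    have h3 : (0 : ℝ) < m := by
      by_contra hneg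
      exact absurd h2 (not_lt.2 (mul_nonpos_of_nonneg_of_nonpos hpow (not_lt.1 hneg)))
    exact_mod_cast h3
  rw [h1]
  have : (1 : ℝ) ≤ m := by exact_mod_cast hm1
  nlinarith

end Pool.Agent.Lib_helper43.Tori
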