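import Pool.Agent.Lib_helper43.Tori.Geom
import Pool.Agent.Lib_helper43.Tori.Rep
import Pool.Agent.Lib_helper91.Div

set_option autoImplicit false

/-!
# Lattice points on plane sections of spheres
-/

namespace Pool.Agent.Lib_helper43.Tori

open Pool.Agent.Lib_helper91

lemma card_zero {v : V3} (hv : v 1 ≠ 0 ∨ v 2 ≠ 0) {n h : ℤ} (hn : 0 ≤ n) (F : Finset V3)
    (hF : ∀ ξ ∈ F, nq ξ = n ∧ dt v ξ = h) :
    F.card ≤ 1 ∨ ∃ M : ℕ, M ≠ 0 ∧ (M : ℤ) ≤ nq v * (n * nq v) ∧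
      F.card ≤ 10 * M.divisors.card * M.divisors.card := by
  classical
  rcases F.eq_empty_or_nonempty with rfl | ⟨ξ₀, hξ₀⟩
  · left; simp
  have hD0 : 0 < v 1 ^ 2 + v 2 ^ 2 := by
    rcases hv with h | h
    · have := sq_nonneg (v 2); positivity
    · have := sq_nonneg (v 1); positivity
  have hD1 : 1 ≤ nq v := by
    unfold nq; nlinarith [sq_nonneg (v 0)]
  set M : ℤ := (nq v - v 0 ^ 2) * (n * nq v - h ^ 2) with hM
  set ψ : V3 → ℤ × ℤ := fun ξ => (nq v * ξ 0 - h * v 0, v 1 * ξ 2 - v 2 * ξ 1) with hψ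
  have hid : ∀ ξ ∈ F, (ψ ξ).1 ^ 2 + nq v * (ψ ξ).2 ^ 2 = M := by
    intro ξ hξ
    obtain ⟨h1, h2⟩ := hF ξ hξ
    simp only [hψ, hM]
    rw [← h1, ← h2]
    simp only [nq, dt]
    ring
  have hinj : Set.InjOn ψ F := by
    intro ξ hξ η hη he
    obtain ⟨-, h2⟩ := hF ξ hξ
    obtain ⟨-, g2⟩ := hF η hη
    simp only [hψ, Prod.mk.injEq] at he
    obtain ⟨e1, e2⟩ := he
    have e0 : ξ 0 = η 0 := by
      have : nq v * ξ 0 = nq v * η 0 := by linarith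
      exact mul_left_cancel₀ (by omega) this
    unfold dt at h2 g2
    have e3 : v 1 * ξ 1 + v 2 * ξ 2 = v 1 * η 1 + v 2 * η 2 := by
      rw [e0] at h2; linarith
    have e4 : (v 1 ^ 2 + v 2 ^ 2) * ξ 1 = (v 1 ^ 2 + v 2 ^ 2) * η 1 := by
      linear_combination v 1 * e3 - v 2 * e2
    have e5 : (v 1 ^ 2 + v 2 ^ 2) * ξ 2 = (v 1 ^ 2 + v 2 ^ 2) * η 2 := by
      linear_combination v 2 * e3 + v 1 * e2
    exact ext3 e0 (mul_left_cancel₀ hD0.ne' e4) (mul_left_cancel₀ hD0.ne' e5)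
  have hMnn : 0 ≤ M := by
    rw [← hid ξ₀ hξ₀]
    have := sq_nonneg (ψ ξ₀).1
    have := sq_nonneg (ψ ξ₀).2
    nlinarith
  rcases hMnn.eq_or_lt with hM0 | hMpos
  · left
    rw [Finset.card_le_one]
    intro ξ hξ η hη
    apply hinj hξ hη
    have z : ∀ ζ ∈ F, ψ ζ = (0, 0) := by
      intro ζ hζ
      have h1 := hid ζ hζ
      rw [← hM0] at h1
      have s1 := sq_nonneg (ψ ζ).1
      have s2 := sq_nonneg (ψ ζ).2
      have t2 : (ψ ζ).2 ^ 2 = 0 := by nlinarith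
      have t1 : (ψ ζ).1 ^ 2 = 0 := by nlinarith
      exact Prod.ext (by simpa using t1) (by simpa using t2)
    rw [z ξ hξ, z η hη]
  · right
    refine ⟨M.natAbs, by omega, ?_, ?_⟩
    · have : (M.natAbs : ℤ) = M := Int.natAbs_of_nonneg hMnn
      rw [this, hM]
      have h1 : 0 ≤ nq v - v 0 ^ 2 := by unfold nq; nlinarith [sq_nonneg (v 0)]
      have h2 : nq v - v 0 ^ 2 ≤ nq v := by nlinarith [sq_nonneg (v 0)]
      have h3 : n * nq v - h ^ 2 ≤ n * nq v := by nlinarith [sq_nonneg h]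
      have h4 : 0 ≤ n * nq v := mul_nonneg hn (by omega)
      calc (nq v - v 0 ^ 2) * (n * nq v - h ^ 2) ≤ (nq v - v 0 ^ 2) * (n * nq v) :=
            mul_le_mul_of_nonneg_left h3 h1
        _ ≤ nq v * (n * nq v) := mul_le_mul_of_nonneg_right h2 h4
    · have := card_rep hD1 hMpos (F.image ψ) (by
        intro t ht
        obtain ⟨ξ, hξ, rfl⟩ := Finset.mem_image.1 ht
        exact hid ξ hξ)
      rwa [Finset.card_image_of_injOn hinj] at this

/-- Cyclic permutation of the coordinates. -/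
def cyc (x : V3) : V3 := ![x 1, x 2, x 0]

@[simp] lemma cyc_zero (x : V3) : cyc x 0 = x 1 := rfl
@[simp] lemma cyc_one (x : V3) : cyc x 1 = x 2 := rfl
@[simp] lemma cyc_two (x : V3) : cyc x 2 = x 0 := rfl

lemma nq_cyc (x : V3) : nq (cyc x) = nq x := by simp only [nq, cyc_zero, cyc_one, cyc_two]; ring
lemma dt_cyc (x y : V3) : dt (cyc x) (cyc y) = dt x y := by
  simp only [dt, cyc_zero, cyc_one, cyc_two]; ring
lemma cyc_injective : Function.Injective cyc := by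
  intro x y h
  exact ext3 (congrFun h 2) (congrFun h 0) (congrFun h 1)

lemma card_plane {v : V3} (hv : v ≠ 0) {n h : ℤ} (hn : 0 ≤ n) (F : Finset V3)
    (hF : ∀ ξ ∈ F, nq ξ = n ∧ dt v ξ = h) :
    F.card ≤ 1 ∨ ∃ M : ℕ, M ≠ 0 ∧ (M : ℤ) ≤ nq v * (n * nq v) ∧
      F.card ≤ 10 * M.divisors.card * M.divisors.card := by
  classical
  by_cases h12 : v 1 ≠ 0 ∨ v 2 ≠ 0
  · exact card_zero h12 hn F hF
  · push Not at h12
    have h0 : v 0 ≠ 0 := by
      intro h0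
      exact hv (ext3 h0 h12.1 h12.2)
    have := card_zero (v := cyc v) (n := n) (h := h) (Or.inr (by simpa using h0)) hn (F.image cyc)
      (by
        intro t ht
        obtain ⟨ξ, hξ, rfl⟩ := Finset.mem_image.1 ht
        rw [nq_cyc, dt_cyc]
        exact hF ξ hξ)
    rwa [Finset.card_image_of_injective _ cyc_injective, nq_cyc] at this

/-- Two points of a sphere in `ℤ³` with a prescribed nonzero difference: there are at most
`C n^(6/L)` of them. -/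
theorem circle_bound (L : ℕ) (hL : 0 < L) :
    ∃ C : ℝ, 1 ≤ C ∧ ∀ (n : ℤ), 1 ≤ n → ∀ v : V3, v ≠ 0 → ∀ F : Finset V3,
      (∀ ξ ∈ F, nq ξ = n ∧ nq (ξ + v) = n) → (F.card : ℝ) ≤ C * (n : ℝ) ^ ((6 : ℝ) / L) := by
  obtain ⟨C₀, hC₀, hdiv⟩ := exists_divisor_bound L hL
  refine ⟨2560 * C₀ ^ 2, by nlinarith, ?_⟩
  intro n hn v hv F hF
  have hn1 : (1 : ℝ) ≤ (n : ℝ) := by exact_mod_cast hn
  have hpow1 : (1 : ℝ) ≤ (n : ℝ) ^ ((6 : ℝ) / L) := Real.one_le_rpow hn1 (by positivity)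
  rcases F.eq_empty_or_nonempty with rfl | ⟨ξ₀, hξ₀⟩
  · simp only [Finset.card_empty, Nat.cast_zero]; positivity
  have hsph : ∀ ξ ∈ F, 2 * dt v ξ = - nq v := by
    intro ξ hξ
    obtain ⟨h1, h2⟩ := hF ξ hξ
    have : nq (ξ + v) = nq ξ + 2 * dt v ξ + nq v := by
      simp only [nq, dt, Pi.add_apply]; ring
    omega
  have hnv : nq v ≤ 4 * n := by
    obtain ⟨h1, h2⟩ := hF ξ₀ hξ₀
    have h3 : nq v ≤ 2 * nq (ξ₀ + v) + 2 * nq ξ₀ := by
      simp only [nq, Pi.add_apply]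
      nlinarith [sq_nonneg (ξ₀ 0 + v 0 + ξ₀ 0), sq_nonneg (ξ₀ 1 + v 1 + ξ₀ 1),
        sq_nonneg (ξ₀ 2 + v 2 + ξ₀ 2)]
    omega
  rcases card_plane hv (n := n) (h := dt v ξ₀) (by omega) F (by
    intro ξ hξ
    have h1 := hsph ξ hξ
    have h2 := hsph ξ₀ hξ₀
    exact ⟨(hF ξ hξ).1, by omega⟩) with h | ⟨M, hM0, hM, hcard⟩
  · have h' : (F.card : ℝ) ≤ 1 := by exact_mod_cast h
    calc (F.card : ℝ) ≤ 1 := h'
      _ ≤ 2560 * C₀ ^ 2 * 1 := by nlinarith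
      _ ≤ 2560 * C₀ ^ 2 * (n : ℝ) ^ ((6 : ℝ) / L) := by gcongr
  · have hv0 : 0 ≤ nq v := nq_nonneg v
    have hM16 : (M : ℤ) ≤ 16 * n ^ 3 := by
      calc (M : ℤ) ≤ nq v * (n * nq v) := hM
        _ ≤ (4 * n) * (n * (4 * n)) := by gcongr
        _ = 16 * n ^ 3 := by ring
    have hM16' : (M : ℝ) ≤ 16 * (n : ℝ) ^ 3 := by exact_mod_cast hM16
    have h1 := hdiv M hM0
    have hcard' : (F.card : ℝ) ≤ 10 * (M.divisors.card : ℝ) * (M.divisors.card : ℝ) := by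
      exact_mod_cast hcard
    have hLr : (0 : ℝ) < L := by exact_mod_cast hL
    have h2 : (M : ℝ) ^ ((1 : ℝ) / L) ≤ 16 * (n : ℝ) ^ ((3 : ℝ) / L) := by
      calc (M : ℝ) ^ ((1 : ℝ) / L) ≤ (16 * (n : ℝ) ^ 3) ^ ((1 : ℝ) / L) :=
            Real.rpow_le_rpow (by positivity) hM16' (by positivity)
        _ = 16 ^ ((1 : ℝ) / L) * ((n : ℝ) ^ 3) ^ ((1 : ℝ) / L) :=
            Real.mul_rpow (by norm_num) (by positivity)
        _ ≤ 16 * (n : ℝ) ^ ((3 : ℝ) / L) := by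
            have e1 : (16 : ℝ) ^ ((1 : ℝ) / L) ≤ 16 := by
              calc (16 : ℝ) ^ ((1 : ℝ) / L) ≤ 16 ^ (1 : ℝ) := by
                    apply Real.rpow_le_rpow_of_exponent_le (by norm_num)
                    rw [div_le_one hLr]
                    exact_mod_cast hL
                _ = 16 := Real.rpow_one _
            have e2 : ((n : ℝ) ^ 3) ^ ((1 : ℝ) / L) = (n : ℝ) ^ ((3 : ℝ) / L) := by
              rw [← Real.rpow_natCast, ← Real.rpow_mul (by positivity)]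
              congr 1
              push_cast; ring
            rw [e2]
            gcongr
    have h3 : (M.divisors.card : ℝ) ≤ 16 * C₀ * (n : ℝ) ^ ((3 : ℝ) / L) := by
      calc (M.divisors.card : ℝ) ≤ C₀ * (M : ℝ) ^ ((1 : ℝ) / L) := h1
        _ ≤ C₀ * (16 * (n : ℝ) ^ ((3 : ℝ) / L)) := by gcongr
        _ = _ := by ring
    calc (F.card : ℝ) ≤ 10 * (M.divisors.card : ℝ) * (M.divisors.card : ℝ) := hcard'
      _ ≤ 10 * (16 * C₀ * (n : ℝ) ^ ((3 : ℝ) / L)) * (16 * C₀ * (n : ℝ) ^ ((3 : ℝ) / L)) := by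
          gcongr
      _ = 2560 * C₀ ^ 2 * ((n : ℝ) ^ ((3 : ℝ) / L) * (n : ℝ) ^ ((3 : ℝ) / L)) := by ring
      _ = 2560 * C₀ ^ 2 * (n : ℝ) ^ ((6 : ℝ) / L) := by
          rw [← Real.rpow_add (by positivity)]
          congr 2
          ring

end Pool.Agent.Lib_helper43.Tori
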