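import Pool.Agent.Lib_helper43.Tori.Geom

set_option autoImplicit false

/-!
# Clusters of lattice points on a sphere lie in planes
-/

namespace Pool.Agent.Lib_helper43.Tori

open Relation

variable (S : Finset V3) (r : ℝ)

/-- Two distinct points of `S` at distance at most `r`. -/
def Adj (x y : V3) : Prop := x ∈ S ∧ y ∈ S ∧ x ≠ y ∧ (nq (x - y) : ℝ) ≤ r ^ 2

variable {S r}

lemma nq_neg (x : V3) : nq (-x) = nq x := by simp [nq]

lemma nq_sub_comm (x y : V3) : nq (x - y) = nq (y - x) := by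
  rw [← nq_neg, neg_sub]

lemma Adj.symm {x y : V3} (h : Adj S r x y) : Adj S r y x :=
  ⟨h.2.1, h.1, h.2.2.1.symm, by rw [nq_sub_comm]; exact h.2.2.2⟩

lemma reach_symm {x y : V3} (h : ReflTransGen (Adj S r) x y) : ReflTransGen (Adj S r) y x := by
  induction h with
  | refl => exact ReflTransGen.refl
  | tail _ h2 ih => exact ReflTransGen.head h2.symm ih

lemma nq_add_le (x y : V3) : nq (x + y) ≤ 2 * nq x + 2 * nq y := by
  simp only [nq, Pi.add_apply]
  nlinarith [sq_nonneg (x 0 - y 0), sq_nonneg (x 1 - y 1), sq_nonneg (x 2 - y 2)]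

lemma two_step {x y z : V3} (h1 : (nq (x - y) : ℝ) ≤ r ^ 2) (h2 : (nq (y - z) : ℝ) ≤ r ^ 2) :
    (nq (x - z) : ℝ) ≤ (2 * r) ^ 2 := by
  have h := nq_add_le (x - y) (y - z)
  rw [sub_add_sub_cancel] at h
  have h' : (nq (x - z) : ℝ) ≤ 2 * nq (x - y) + 2 * nq (y - z) := by exact_mod_cast h
  nlinarith

lemma dt_sub (w x y : V3) : dt w (x - y) = dt w x - dt w y := by
  simp only [dt, Pi.sub_apply]; ring

/-- A connected triple in a plane with normal `w` through `o`. -/
def Good (S : Finset V3) (r : ℝ) (w o x : V3) : Prop :=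
  ∃ a b c : V3, Adj S r a b ∧ Adj S r b c ∧ a ≠ c ∧ dt w (a - o) = 0 ∧ dt w (b - o) = 0 ∧
    dt w (c - o) = 0 ∧ (x = a ∨ x = b ∨ x = c)

lemma Good.step {n : ℤ} (hS : ∀ x ∈ S, nq x = n) (hn : 16 * r ^ 8 < n) {w o x x' : V3}
    (hx : Good S r w o x) (hr : 0 ≤ r) (h : Adj S r x x') : Good S r w o x' := by
  obtain ⟨a, b, c, hab, hbc, hac, wa, wb, wc, hxx⟩ := hx
  by_cases hmem : x' = a ∨ x' = b ∨ x' = c
  · exact ⟨a, b, c, hab, hbc, hac, wa, wb, wc, hmem⟩
  push Not at hmem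
  obtain ⟨ha', hb', hc'⟩ := hmem
  have na := hS a hab.1
  have nb := hS b hab.2.1
  have nc := hS c hbc.2.1
  have nx := hS x' h.2.1
  have hne : cr (a - b) (c - b) ≠ 0 :=
    not_collinear nb na nc hab.2.2.1 hbc.2.2.1.symm hac
  have hab2 : (nq (a - b) : ℝ) ≤ r ^ 2 := hab.2.2.2
  have hcb2 : (nq (c - b) : ℝ) ≤ r ^ 2 := hbc.symm.2.2.2
  have hxb2 : (nq (x' - b) : ℝ) ≤ (2 * r) ^ 2 := by
    rcases hxx with rfl | rfl | rfl
    · exact two_step h.symm.2.2.2 hab2
    · have := h.symm.2.2.2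
      nlinarith [sq_nonneg r]
    · exact two_step h.symm.2.2.2 hcb2
  have hdet := det_eq_zero hr hn nb na nc nx hab2 hcb2 hxb2
  have hwx : dt w (x' - b) = 0 := by
    refine perp_of_span (u₁ := a - b) (u₂ := c - b) ?_ ?_ hdet hne
    · rw [dt_sub] at *; omega
    · rw [dt_sub] at *; omega
  have wx : dt w (x' - o) = 0 := by rw [dt_sub] at *; omega
  rcases hxx with rfl | rfl | rfl
  · exact ⟨x', x, b, h.symm, hab, hb', wx, wa, wb, Or.inl rfl⟩
  · exact ⟨x', x, a, h.symm, hab.symm, ha', wx, wb, wa, Or.inl rfl⟩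
  · exact ⟨x', x, b, h.symm, hbc.symm, hb', wx, wc, wb, Or.inl rfl⟩

lemma Good.plane {w o x : V3} (h : Good S r w o x) : dt w (x - o) = 0 := by
  obtain ⟨a, b, c, _, _, _, wa, wb, wc, hx⟩ := h
  rcases hx with rfl | rfl | rfl
  · exact wa
  · exact wb
  · exact wc

/-- A cluster containing a path of length two is contained in a plane. -/
lemma coplanar {n : ℤ} (hS : ∀ x ∈ S, nq x = n) (hr : 0 ≤ r) (hn : 16 * r ^ 8 < n) {a b c q : V3}
    (hab : Adj S r a b) (hbc : Adj S r b c) (hac : a ≠ c)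
    (hq : ReflTransGen (Adj S r) b q) : dt (cr (a - b) (c - b)) (q - b) = 0 := by
  have : Good S r (cr (a - b) (c - b)) b q := by
    induction hq with
    | refl =>
      refine ⟨a, b, c, hab, hbc, hac, ?_, ?_, ?_, Or.inr (Or.inl rfl)⟩
      · simp only [dt, cr_zero, cr_one, cr_two, Pi.sub_apply]; ring
      · simp only [dt, sub_self, Pi.zero_apply]; ring
      · simp only [dt, cr_zero, cr_one, cr_two, Pi.sub_apply]; ring
    | tail _ h2 ih => exact ih.step hS hn hr h2
  exact this.plane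

/-- A cluster with three points contains a path of length two. -/
lemma exists_path {q₁ q₂ q₃ : V3} (h12 : q₁ ≠ q₂) (h13 : q₁ ≠ q₃) (h23 : q₂ ≠ q₃)
    (r12 : ReflTransGen (Adj S r) q₁ q₂) (r13 : ReflTransGen (Adj S r) q₁ q₃) :
    ∃ a b c : V3, Adj S r a b ∧ Adj S r b c ∧ a ≠ c ∧ ReflTransGen (Adj S r) q₁ b := by
  by_contra hcon
  push Not at hcon
  rcases ReflTransGen.cases_head r12 with h | ⟨p, hp, -⟩
  · exact h12 h
  have key : ∀ q, ReflTransGen (Adj S r) q₁ q → q = q₁ ∨ q = p := by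
    intro q hq
    induction hq with
    | refl => exact Or.inl rfl
    | tail hreach h2 ih =>
      rename_i y z
      rcases ih with rfl | rfl
      · -- neighbour z of q₁
        by_contra hz
        push Not at hz
        exact hcon p y z hp.symm h2 hz.2.symm ReflTransGen.refl
      · by_contra hz
        push Not at hz
        exact hcon q₁ y z hp h2 hz.1.symm hreach
  rcases key q₂ r12 with h | h
  · exact h12 h.symm
  rcases key q₃ r13 with h' | h'
  · exact h13 h'.symm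
  exact h23 (h.trans h'.symm)

/-- In a cluster every nonzero difference occurs at most twice. -/
lemma no_three {n : ℤ} (hS : ∀ x ∈ S, nq x = n) (hr : 0 ≤ r) (hn : 16 * r ^ 8 < n)
    {v q₁ q₂ q₃ : V3} (hv : v ≠ 0) (h12 : q₁ ≠ q₂) (h13 : q₁ ≠ q₃) (h23 : q₂ ≠ q₃)
    (m1 : q₁ ∈ S) (m2 : q₂ ∈ S) (m3 : q₃ ∈ S)
    (m1' : q₁ + v ∈ S) (m2' : q₂ + v ∈ S) (m3' : q₃ + v ∈ S)
    (r12 : ReflTransGen (Adj S r) q₁ q₂) (r13 : ReflTransGen (Adj S r) q₁ q₃)
    (r1' : ReflTransGen (Adj S r) q₁ (q₁ + v)) : False := by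
  obtain ⟨a, b, c, hab, hbc, hac, hb⟩ := exists_path h12 h13 h23 r12 r13
  have hb' := reach_symm hb
  set w := cr (a - b) (c - b) with hw
  have hw0 : w ≠ 0 := not_collinear (hS b hab.2.1) (hS a hab.1) (hS c hbc.2.1) hab.2.2.1
    hbc.2.2.1.symm hac
  have e1 := coplanar hS hr hn hab hbc hac hb'
  have e2 := coplanar hS hr hn hab hbc hac (hb'.trans r12)
  have e3 := coplanar hS hr hn hab hbc hac (hb'.trans r13)
  have e1' := coplanar hS hr hn hab hbc hac (hb'.trans r1')
  rw [← hw] at e1 e2 e3 e1'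
  rw [dt_sub] at e1 e2 e3 e1'
  have dta : ∀ x y z : V3, dt x (y + z) = dt x y + dt x z := by
    intro x y z; simp only [dt, Pi.add_apply]; ring
  rw [dta] at e1'
  have wv : dt w v = 0 := by omega
  have hsph : ∀ q : V3, q ∈ S → q + v ∈ S → 2 * dt q v = - nq v := by
    intro q hq hq'
    have h1 := hS q hq
    have h2 := hS _ hq'
    have : nq (q + v) = nq q + 2 * dt q v + nq v := by
      simp only [nq, dt, Pi.add_apply]; ring
    omega
  have s1 := hsph q₁ m1 m1'
  have s2 := hsph q₂ m2 m2'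
  have s3 := hsph q₃ m3 m3'
  set d := q₂ - q₁ with hd
  set f := q₃ - q₁ with hf
  have hm0 : cr d f ≠ 0 :=
    not_collinear (hS q₁ m1) (hS q₂ m2) (hS q₃ m3) h12.symm h13.symm h23
  have comm : ∀ x y : V3, dt x y = dt y x := by intro x y; simp only [dt]; ring
  have vd : dt v d = 0 := by rw [hd, dt_sub, comm v q₂, comm v q₁]; omega
  have vf : dt v f = 0 := by rw [hf, dt_sub, comm v q₃, comm v q₁]; omega
  have wd : dt w d = 0 := by rw [hd, dt_sub]; omega
  have wf : dt w f = 0 := by rw [hf, dt_sub]; omega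
  set m := cr d f with hm
  have hy : dt m (fun i => nq m * v i - dt m v * m i) = 0 := by
    simp only [dt, nq]; ring
  have h1 := perp_of_span wd wf hy hm0
  have h2 : nq m * dt w v - dt m v * dt w m = 0 := by
    rw [← h1]; simp only [dt]; ring
  rw [wv, mul_zero, zero_sub, neg_eq_zero] at h2
  rcases mul_eq_zero.1 h2 with h | h
  · have := perp_of_span vd vf h hm0
    exact hv (nq_eq_zero (by rw [← this]; simp only [nq, dt]; ring))
  · have := perp_of_span wd wf (y := w) (by rw [comm]; exact h) hm0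
    exact hw0 (nq_eq_zero (by rw [← this]; simp only [nq, dt]; ring))

/-- The cluster decomposition as an equivalence relation. -/
def cluster (S : Finset V3) (r : ℝ) : Setoid V3 where
  r := ReflTransGen (Adj S r)
  iseqv := ⟨fun _ => ReflTransGen.refl, reach_symm, ReflTransGen.trans⟩

open Classical in
/-- The main combinatorial estimate. -/
theorem autocorrelation_bound {n : ℤ} (hS : ∀ x ∈ S, nq x = n) (hr : 0 ≤ r)
    (hn : 16 * r ^ 8 < n) (a : V3 → ℝ) (ha : ∀ x, 0 ≤ a x) (ha0 : ∀ x, x ∉ S → a x = 0)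
    (T : Finset V3) (hT : ∀ v ∈ T, v ≠ 0 ∧ (nq v : ℝ) ≤ r ^ 2) :
    ∑ v ∈ T, (∑ ξ ∈ S, a (ξ + v) * a ξ) ^ 2 ≤ 2 * (∑ ξ ∈ S, a ξ ^ 2) ^ 2 := by
  set cls : V3 → Quotient (cluster S r) := fun x => Quotient.mk _ x with hcls
  set Q := S.image cls with hQ
  set Sq : Quotient (cluster S r) → Finset V3 := fun q => S.filter (fun x => cls x = q) with hSq
  set g : Quotient (cluster S r) → V3 → ℝ := fun q v =>
    ∑ ξ ∈ (Sq q).filter (fun ξ => ξ + v ∈ Sq q), a (ξ + v) * a ξ with hg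
  set A : Quotient (cluster S r) → ℝ := fun q => ∑ ξ ∈ Sq q, a ξ ^ 2 with hA
  have hA0 : ∀ q, 0 ≤ A q := fun q => Finset.sum_nonneg fun _ _ => sq_nonneg _
  -- decomposition
  have hdec : ∀ v ∈ T, ∑ ξ ∈ S, a (ξ + v) * a ξ = ∑ q ∈ Q, g q v := by
    intro v hv
    have h1 : ∑ ξ ∈ S, a (ξ + v) * a ξ = ∑ q ∈ Q, ∑ ξ ∈ Sq q, a (ξ + v) * a ξ := by
      rw [hQ]
      exact (Finset.sum_fiberwise_of_maps_to (fun x hx => Finset.mem_image_of_mem cls hx) _).symm
    rw [h1]
    refine Finset.sum_congr rfl fun q _ => ?_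
    have hgq : g q v = ∑ ξ ∈ (Sq q).filter (fun ξ => ξ + v ∈ Sq q), a (ξ + v) * a ξ := rfl
    rw [hgq, Finset.sum_filter (fun ξ => ξ + v ∈ Sq q) (fun ξ => a (ξ + v) * a ξ)]
    refine Finset.sum_congr rfl fun ξ hξ => ?_
    by_cases hin : ξ + v ∈ Sq q
    · rw [if_pos hin]
    · rw [if_neg hin]
      have hξS : ξ ∈ S := (Finset.mem_filter.1 hξ).1
      have hξq : cls ξ = q := (Finset.mem_filter.1 hξ).2
      have hnot : ξ + v ∉ S := by
        intro hmem
        apply hin
        refine Finset.mem_filter.2 ⟨hmem, ?_⟩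
        rw [← hξq]
        apply Quotient.sound
        apply ReflTransGen.single
        refine ⟨hmem, hξS, ?_, ?_⟩
        · intro h
          exact (hT v hv).1 (by simpa using h)
        · have : ξ + v - ξ = v := by abel
          rw [this]; exact (hT v hv).2
      rw [ha0 _ hnot, zero_mul]
  -- each cluster
  have hcl : ∀ q, ∑ v ∈ T, g q v ^ 2 ≤ 2 * A q ^ 2 := by
    intro q
    have hcard : ∀ v ∈ T, ((Sq q).filter (fun ξ => ξ + v ∈ Sq q)).card ≤ 2 := by
      intro v hv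
      by_contra hcon
      push Not at hcon
      obtain ⟨x, y, z, hx, hy, hz, hxy, hxz, hyz⟩ := Finset.two_lt_card_iff.1 hcon
      have hx1 := Finset.mem_filter.1 hx
      have hy1 := Finset.mem_filter.1 hy
      have hz1 := Finset.mem_filter.1 hz
      have hx2 := Finset.mem_filter.1 hx1.1
      have hy2 := Finset.mem_filter.1 hy1.1
      have hz2 := Finset.mem_filter.1 hz1.1
      have hx3 := Finset.mem_filter.1 hx1.2
      have hy3 := Finset.mem_filter.1 hy1.2
      have hz3 := Finset.mem_filter.1 hz1.2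
      refine no_three hS hr hn (hT v hv).1 hxy hxz hyz hx2.1 hy2.1 hz2.1 hx3.1 hy3.1 hz3.1 ?_ ?_ ?_
      · exact Quotient.exact (hx2.2.trans hy2.2.symm)
      · exact Quotient.exact (hx2.2.trans hz2.2.symm)
      · exact Quotient.exact (hx2.2.trans hx3.2.symm)
    calc ∑ v ∈ T, g q v ^ 2
        ≤ ∑ v ∈ T, 2 * ∑ ξ ∈ (Sq q).filter (fun ξ => ξ + v ∈ Sq q), (a (ξ + v) * a ξ) ^ 2 := by
          refine Finset.sum_le_sum fun v hv => ?_
          have h1 := @sq_sum_le_card_mul_sum_sq _ ℝ _ _ _ _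
            ((Sq q).filter (fun ξ => ξ + v ∈ Sq q)) (fun ξ => a (ξ + v) * a ξ)
          refine h1.trans ?_
          have h2 : ((((Sq q).filter (fun ξ => ξ + v ∈ Sq q)).card : ℕ) : ℝ) ≤ 2 := by
            exact_mod_cast hcard v hv
          exact mul_le_mul_of_nonneg_right h2 (Finset.sum_nonneg fun _ _ => sq_nonneg _)
      _ ≤ ∑ v ∈ T, 2 * ∑ ξ ∈ Sq q, (if ξ + v ∈ Sq q then a (ξ + v) ^ 2 else 0) * a ξ ^ 2 := by
          refine Finset.sum_le_sum fun v hv => ?_
          refine mul_le_mul_of_nonneg_left (le_of_eq ?_) (by norm_num)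
          rw [Finset.sum_filter]
          refine Finset.sum_congr rfl fun ξ _ => ?_
          split_ifs
          · ring
          · ring
      _ = 2 * ∑ ξ ∈ Sq q, a ξ ^ 2 * ∑ v ∈ T, (if ξ + v ∈ Sq q then a (ξ + v) ^ 2 else 0) := by
          rw [← Finset.mul_sum, Finset.sum_comm]
          congr 1
          refine Finset.sum_congr rfl fun ξ _ => ?_
          rw [Finset.mul_sum]
          refine Finset.sum_congr rfl fun v _ => ?_
          ring
      _ ≤ 2 * ∑ ξ ∈ Sq q, a ξ ^ 2 * A q := by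
          refine mul_le_mul_of_nonneg_left (Finset.sum_le_sum fun ξ _ => ?_) (by norm_num)
          refine mul_le_mul_of_nonneg_left ?_ (sq_nonneg _)
          have h1 : ∑ v ∈ T, (if ξ + v ∈ Sq q then a (ξ + v) ^ 2 else 0) =
              ∑ x ∈ T.image (fun v => ξ + v), (if x ∈ Sq q then a x ^ 2 else 0) := by
            rw [Finset.sum_image (fun x _ y _ h => by simpa using h)]
          rw [h1, ← Finset.sum_filter]
          refine Finset.sum_le_sum_of_subset_of_nonneg ?_ fun _ _ _ => sq_nonneg _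
          intro x hx
          exact (Finset.mem_filter.1 hx).2
      _ = 2 * A q ^ 2 := by
          rw [← Finset.sum_mul]; simp only [hA]; ring
  -- cross terms
  have hcross : ∀ q q', ∑ v ∈ T, g q v * g q' v ≤ 2 * (A q * A q') := by
    intro q q'
    have h1 := Finset.sum_mul_sq_le_sq_mul_sq T (g q) (g q')
    have h2 : (∑ v ∈ T, g q v * g q' v) ^ 2 ≤ (2 * (A q * A q')) ^ 2 := by
      refine h1.trans ?_
      have := mul_le_mul (hcl q) (hcl q') (Finset.sum_nonneg fun _ _ => sq_nonneg _)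
        (by positivity)
      calc _ ≤ _ := this
        _ = _ := by ring
    exact (le_abs_self _).trans
      (abs_le_of_sq_le_sq h2 (by have := hA0 q; have := hA0 q'; positivity))
  calc ∑ v ∈ T, (∑ ξ ∈ S, a (ξ + v) * a ξ) ^ 2
      = ∑ v ∈ T, (∑ q ∈ Q, g q v) ^ 2 := Finset.sum_congr rfl fun v hv => by rw [hdec v hv]
    _ = ∑ q ∈ Q, ∑ q' ∈ Q, ∑ v ∈ T, g q v * g q' v := by
        have h1 : ∀ v, (∑ q ∈ Q, g q v) ^ 2 = ∑ q ∈ Q, ∑ q' ∈ Q, g q v * g q' v := by
          intro v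
          rw [sq, Finset.sum_mul_sum]
        simp only [h1]
        rw [Finset.sum_comm]
        refine Finset.sum_congr rfl fun q _ => ?_
        rw [Finset.sum_comm]
    _ ≤ ∑ q ∈ Q, ∑ q' ∈ Q, 2 * (A q * A q') :=
        Finset.sum_le_sum fun q _ => Finset.sum_le_sum fun q' _ => hcross q q'
    _ = 2 * (∑ q ∈ Q, A q) ^ 2 := by
        rw [sq, Finset.sum_mul_sum, Finset.mul_sum]
        refine Finset.sum_congr rfl fun q _ => ?_
        rw [Finset.mul_sum]
    _ = 2 * (∑ ξ ∈ S, a ξ ^ 2) ^ 2 := by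
        congr 2
        rw [hQ]
        exact Finset.sum_fiberwise_of_maps_to (fun x hx => Finset.mem_image_of_mem cls hx) _

end Pool.Agent.Lib_helper43.Tori
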