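import Pool.Agent.Lib_helper43.Tori.Arcs
import Pool.Agent.Lib_helper43.Tori.Cluster

set_option autoImplicit false

/-!
# Decomposition into cubes
-/

namespace Pool.Agent.Lib_helper43.Tori

lemma nq_smul (t : ℤ) (w : V3) : nq (t • w) = t ^ 2 * nq w := by
  simp only [nq, Pi.smul_apply, smul_eq_mul]; ring

/-- The number of points of an arc. -/
lemma arc_card (d : ℕ) (hd : 0 < d) {v w u : V3} {t : ℤ} (hv : v ≠ 0) (hvw : v = t • w)
    (hu : dt u w = 1) {n q : ℤ} {R : ℝ} (hN : 0 < 4 * n - nq v)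
    (hR : kap d * 2 ^ (3 * (d ^ 2 + d)) * (4 * R) ^ (2 * d ^ 2 + d) <
      ((nq w : ℝ) * ((4 * n - nq v : ℤ) : ℝ)) ^ (d ^ 2) * ((q : ℝ) ^ (d ^ 2 + d)) ^ 2)
    (Z : Finset V3) (h1 : ∀ ξ ∈ Z, nq ξ = n) (h2 : ∀ ξ ∈ Z, nq (ξ + v) = n)
    (h3 : ∀ ξ ∈ Z, ∀ ξ' ∈ Z, (nq (ξ - ξ') : ℝ) ≤ R)
    (h4 : ∀ ξ ∈ Z, ∀ ξ' ∈ Z, ∀ k, q ∣ ξ k - ξ' k) : Z.card ≤ 2 * d := by
  by_contra hcon
  push Not at hcon
  obtain ⟨Z', hZ', hcard⟩ := Finset.exists_subset_card_eq (show d + 1 + d ≤ Z.card by omega)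
  set e := (Finset.equivFinOfCardEq hcard).symm with he
  set η : Fin (d + 1 + d) → V3 := fun i => (2 : ℤ) • (e i : V3) + v with hη
  have hmem : ∀ i, (e i : V3) ∈ Z := fun i => hZ' (e i).2
  have hinj : Function.Injective η := by
    intro i j hij
    apply e.injective
    apply Subtype.ext
    have : (2 : ℤ) • (e i : V3) = (2 : ℤ) • (e j : V3) := by simpa [hη] using hij
    exact smul_right_injective V3 (by norm_num : (2 : ℤ) ≠ 0) this
  have ht : t ≠ 0 := by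
    rintro rfl
    exact hv (by rw [hvw, zero_smul])
  have hξv : ∀ i, 2 * dt (e i : V3) v + nq v = 0 := by
    intro i
    have a1 := h1 _ (hmem i)
    have a2 := h2 _ (hmem i)
    have : nq ((e i : V3) + v) = nq (e i : V3) + 2 * dt (e i : V3) v + nq v := by
      simp only [nq, dt, Pi.add_apply]; ring
    omega
  have hperp : ∀ i, dt w (η i) = 0 := by
    intro i
    have a1 : t * dt w (η i) = 0 := by
      have : t * dt w (η i) = 2 * dt (e i : V3) v + nq v := by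
        conv_rhs => rw [hvw]
        simp only [hη, hvw, dt, nq, Pi.add_apply, Pi.smul_apply, smul_eq_mul]
        ring
      rw [this]; exact hξv i
    exact (mul_eq_zero.1 a1).resolve_left ht
  have hnq : ∀ i, nq (η i) = 4 * n - nq v := by
    intro i
    have : nq (η i) = 4 * nq (e i : V3) + 2 * (2 * dt (e i : V3) v + nq v) - nq v := by
      simp only [hη, dt, nq, Pi.add_apply, Pi.smul_apply, smul_eq_mul]
      ring
    rw [this, hξv i, h1 _ (hmem i)]
    ring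
  have hq : ∀ i j k, q ∣ η i k - η j k := by
    intro i j k
    have h5 : η i k - η j k = 2 * ((e i : V3) k - (e j : V3) k) := by
      simp only [hη, Pi.add_apply, Pi.smul_apply, smul_eq_mul]
      ring
    rw [h5]
    exact (h4 _ (hmem i) _ (hmem j) k).mul_left _
  have hmain := arcs d hd hu hN η hinj hperp hnq hq
  have hprod : ∏ i, ∏ j ∈ Finset.Ioi i, (nq (η j - η i) : ℝ) ≤ (4 * R) ^ (2 * d ^ 2 + d) := by
    rw [← prod_pairs_const]
    refine Finset.prod_le_prod (fun i _ => Finset.prod_nonneg fun j _ => by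
      exact_mod_cast nq_nonneg _) fun i _ => ?_
    refine Finset.prod_le_prod (fun j _ => by exact_mod_cast nq_nonneg _) fun j _ => ?_
    have a1 : η j - η i = (2 : ℤ) • ((e j : V3) - (e i : V3)) := by
      simp only [hη]
      rw [smul_sub]
      abel
    rw [a1, nq_smul]
    push_cast
    have := h3 _ (hmem j) _ (hmem i)
    linarith
  have hk : 0 ≤ kap d * 2 ^ (3 * (d ^ 2 + d)) := by
    have := kap_pos d
    positivity
  exact absurd (hmain.trans (mul_le_mul_of_nonneg_left hprod hk)) (not_le.2 hR)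

/-- The cell of a point. -/
def cell (K : ℤ) (x : V3) : V3 := fun i => x i / K

lemma cell_close {K : ℤ} (hK : 0 < K) {x y : V3} (h : cell K x = cell K y) (i : Fin 3) :
    |x i - y i| < K := by
  have h1 := congrFun h i
  simp only [cell] at h1
  have a1 := Int.emod_add_mul_ediv (x i) K
  have a2 := Int.emod_add_mul_ediv (y i) K
  have b1 := Int.emod_nonneg (x i) hK.ne'
  have b2 := Int.emod_nonneg (y i) hK.ne'
  have c1 := Int.emod_lt_of_pos (x i) hK
  have c2 := Int.emod_lt_of_pos (y i) hK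
  rw [h1] at a1
  rw [abs_lt]
  constructor <;> linarith

lemma cell_shift {K : ℤ} (hK : 0 < K) {x v : V3} (h : ∀ i, |v i| ≤ K) :
    cell K (x + v) ∈ Finset.Icc (cell K x - 1) (cell K x + 1) := by
  rw [Finset.mem_Icc]
  constructor
  · intro i
    simp only [cell, Pi.sub_apply, Pi.add_apply, Pi.one_apply]
    have h1 := (abs_le.1 (h i)).1
    rw [Int.le_ediv_iff_mul_le hK]
    have := Int.ediv_mul_le (x i) hK.ne'
    nlinarith
  · intro i
    simp only [cell, Pi.add_apply, Pi.one_apply]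
    have h1 := (abs_le.1 (h i)).2
    have h2 : (x i + v i) / K < x i / K + 2 := by
      rw [Int.ediv_lt_iff_lt_mul hK]
      have := Int.lt_ediv_add_one_mul_self (x i) hK
      nlinarith
    omega

lemma card_Icc_cell (q : V3) : (Finset.Icc (q - 1) (q + 1)).card = 27 := by
  rw [Pi.card_Icc]
  simp only [Pi.sub_apply, Pi.add_apply, Pi.one_apply, Int.card_Icc]
  rw [Finset.prod_congr rfl (g := fun _ => 3) (fun i _ => by
    have : q i + 1 + 1 - (q i - 1) = 3 := by ring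
    rw [this]; rfl)]
  simp

/-- The autocorrelation bound coming from a decomposition into cells. -/
theorem cell_bound {ι : Type*} [DecidableEq ι] (S V : Finset V3) (cl : V3 → ι) (nb : ι → Finset ι) (M₀ B : ℝ)
    (hB : 0 ≤ B) (hnb : ∀ v ∈ V, ∀ ξ ∈ S, ξ + v ∈ S → cl (ξ + v) ∈ nb (cl ξ))
    (hM₀ : ∀ i, (((S.image cl).filter fun q => i ∈ nb q).card : ℝ) ≤ M₀)
    (hcard : ∀ v ∈ V, ∀ Z ⊆ S, (∀ ξ ∈ Z, ξ + v ∈ S) →
      (∀ ξ ∈ Z, ∀ ξ' ∈ Z, cl ξ = cl ξ') → (Z.card : ℝ) ≤ B)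
    (a : V3 → ℝ) (ha : ∀ x ∈ S, 0 < a x) (ha0 : ∀ x, x ∉ S → a x = 0) :
    ∑ v ∈ V, (∑ ξ ∈ S, a (ξ + v) * a ξ) ^ 2 ≤ M₀ * B * (∑ ξ ∈ S, a ξ ^ 2) ^ 2 := by
  set A := ∑ ξ ∈ S, a ξ ^ 2 with hA
  have hA0 : 0 ≤ A := Finset.sum_nonneg fun _ _ => sq_nonneg _
  set F : ι → Finset V3 := fun q => S.filter fun x => cl x = q with hF
  set m : ι → ℝ := fun q => ∑ ξ ∈ F q, a ξ ^ 2 with hm
  set G : ι → V3 → ℝ := fun q v => ∑ ξ ∈ F q, a (ξ + v) * a ξ with hG
  set M : ι → ℝ := fun q => ∑ x ∈ S.filter (fun x => cl x ∈ nb q), a x ^ 2 with hM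
  set I := S.image cl with hI
  have hfib : ∀ f : V3 → ℝ, ∑ q ∈ I, ∑ ξ ∈ F q, f ξ = ∑ ξ ∈ S, f ξ := fun f =>
    Finset.sum_fiberwise_of_maps_to (fun x hx => Finset.mem_image_of_mem _ hx) f
  have hmpos : ∀ q ∈ I, 0 < m q := by
    intro q hq
    obtain ⟨x, hx, rfl⟩ := Finset.mem_image.1 hq
    refine Finset.sum_pos' (fun _ _ => sq_nonneg _) ⟨x, Finset.mem_filter.2 ⟨hx, rfl⟩, ?_⟩
    have := ha x hx
    positivity
  have hmsum : ∑ q ∈ I, m q = A := hfib fun ξ => a ξ ^ 2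
  -- step 2
  have h2 : ∀ v, (∑ ξ ∈ S, a (ξ + v) * a ξ) ^ 2 ≤ A * ∑ q ∈ I, G q v ^ 2 / m q := by
    intro v
    rw [← hfib fun ξ => a (ξ + v) * a ξ, ← hmsum]
    refine Finset.sum_sq_le_sum_mul_sum_of_sq_le_mul I (fun q hq => (hmpos q hq).le)
      (fun q hq => div_nonneg (sq_nonneg _) (hmpos q hq).le) fun q hq => ?_
    rw [mul_div_cancel₀ _ (hmpos q hq).ne']
  -- step 3
  have h3 : ∀ v ∈ V, ∀ q, G q v ^ 2 ≤ B * ∑ ξ ∈ F q, a (ξ + v) ^ 2 * a ξ ^ 2 := by
    intro v hv q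
    have e0 : G q v = ∑ ξ ∈ (F q).filter (fun ξ => ξ + v ∈ S), a (ξ + v) * a ξ := by
      rw [Finset.sum_filter]
      refine Finset.sum_congr rfl fun ξ _ => ?_
      split_ifs with h
      · rfl
      · rw [ha0 _ h, zero_mul]
    rw [e0]
    refine (sq_sum_le_card_mul_sum_sq).trans ?_
    have hc : (((F q).filter (fun ξ => ξ + v ∈ S)).card : ℝ) ≤ B := by
      refine hcard v hv _ (fun x hx => ?_) (fun x hx => (Finset.mem_filter.1 hx).2) ?_
      · exact (Finset.mem_filter.1 (Finset.mem_filter.1 hx).1).1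
      · intro x hx y hy
        rw [(Finset.mem_filter.1 (Finset.mem_filter.1 hx).1).2,
          (Finset.mem_filter.1 (Finset.mem_filter.1 hy).1).2]
    refine mul_le_mul hc ?_ (Finset.sum_nonneg fun _ _ => sq_nonneg _) hB
    refine (Finset.sum_le_sum_of_subset_of_nonneg (Finset.filter_subset _ _)
      fun _ _ _ => sq_nonneg _).trans (le_of_eq ?_)
    exact Finset.sum_congr rfl fun ξ _ => by ring
  -- step 4
  have h4 : ∀ q ∈ I, ∑ v ∈ V, G q v ^ 2 ≤ B * (m q * M q) := by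
    intro q hq
    calc ∑ v ∈ V, G q v ^ 2 ≤ ∑ v ∈ V, B * ∑ ξ ∈ F q, a (ξ + v) ^ 2 * a ξ ^ 2 :=
          Finset.sum_le_sum fun v hv => h3 v hv q
      _ = B * ∑ ξ ∈ F q, a ξ ^ 2 * ∑ v ∈ V, a (ξ + v) ^ 2 := by
          rw [← Finset.mul_sum, Finset.sum_comm]
          congr 1
          refine Finset.sum_congr rfl fun ξ _ => ?_
          rw [Finset.mul_sum]
          exact Finset.sum_congr rfl fun v _ => mul_comm _ _
      _ ≤ B * ∑ ξ ∈ F q, a ξ ^ 2 * M q := by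
          refine mul_le_mul_of_nonneg_left (Finset.sum_le_sum fun ξ hξ => ?_) hB
          refine mul_le_mul_of_nonneg_left ?_ (sq_nonneg _)
          have e1 : ∑ v ∈ V, a (ξ + v) ^ 2 = ∑ x ∈ V.image (fun v => ξ + v), a x ^ 2 := by
            rw [Finset.sum_image (fun x _ y _ h => by simpa using h)]
          have e2 : ∑ x ∈ V.image (fun v => ξ + v), a x ^ 2 =
              ∑ x ∈ (V.image (fun v => ξ + v)).filter (fun x => x ∈ S), a x ^ 2 := by
            rw [Finset.sum_filter]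
            refine Finset.sum_congr rfl fun x _ => ?_
            split_ifs with h
            · rfl
            · rw [ha0 _ h]; ring
          rw [e1, e2]
          refine Finset.sum_le_sum_of_subset_of_nonneg ?_ fun _ _ _ => sq_nonneg _
          intro x hx
          obtain ⟨hx1, hx2⟩ := Finset.mem_filter.1 hx
          obtain ⟨v, hv, rfl⟩ := Finset.mem_image.1 hx1
          refine Finset.mem_filter.2 ⟨hx2, ?_⟩
          rw [← (Finset.mem_filter.1 hξ).2]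
          exact hnb v hv ξ (Finset.mem_filter.1 hξ).1 hx2
      _ = B * (m q * M q) := by rw [← Finset.sum_mul]
  -- step 5
  have h5 : ∑ q ∈ I, M q ≤ M₀ * A := by
    calc ∑ q ∈ I, M q = ∑ q ∈ I, ∑ x ∈ S, if cl x ∈ nb q then a x ^ 2 else 0 := by
          refine Finset.sum_congr rfl fun q _ => ?_
          simp only [hM]
          rw [Finset.sum_filter]
      _ = ∑ x ∈ S, ∑ q ∈ I, if cl x ∈ nb q then a x ^ 2 else 0 :=
          Finset.sum_comm
      _ ≤ ∑ x ∈ S, M₀ * a x ^ 2 := by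
          refine Finset.sum_le_sum fun x _ => ?_
          rw [← Finset.sum_filter, Finset.sum_const, nsmul_eq_mul]
          exact mul_le_mul_of_nonneg_right (hM₀ (cl x)) (sq_nonneg _)
      _ = M₀ * A := by rw [← Finset.mul_sum]
  calc ∑ v ∈ V, (∑ ξ ∈ S, a (ξ + v) * a ξ) ^ 2
      ≤ ∑ v ∈ V, A * ∑ q ∈ I, G q v ^ 2 / m q := Finset.sum_le_sum fun v _ => h2 v
    _ = A * ∑ q ∈ I, (∑ v ∈ V, G q v ^ 2) / m q := by
        rw [← Finset.mul_sum, Finset.sum_comm]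
        congr 1
        refine Finset.sum_congr rfl fun q _ => ?_
        rw [Finset.sum_div]
    _ ≤ A * ∑ q ∈ I, B * M q := by
        refine mul_le_mul_of_nonneg_left (Finset.sum_le_sum fun q hq => ?_) hA0
        rw [div_le_iff₀ (hmpos q hq)]
        refine (h4 q hq).trans (le_of_eq (by ring))
    _ ≤ A * (B * (M₀ * A)) := by
        rw [← Finset.mul_sum]
        exact mul_le_mul_of_nonneg_left (mul_le_mul_of_nonneg_left h5 hB) hA0
    _ = M₀ * B * A ^ 2 := by ring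

/-- The residue class of a point. -/
def resi (q : ℤ) (x : V3) : V3 := fun i => x i % q

lemma resi_dvd {q : ℤ} {x y : V3} (h : resi q x = resi q y) (k : Fin 3) : q ∣ x k - y k := by
  have h1 := congrFun h k
  simp only [resi] at h1
  exact (show y k ≡ x k [ZMOD q] from h1.symm).dvd

lemma resi_add {q : ℤ} {v : V3} (hv : ∀ k, q ∣ v k) (x : V3) : resi q (x + v) = resi q x := by
  ext k
  simp only [resi, Pi.add_apply]
  exact Int.emod_eq_emod_iff_emod_sub_eq_zero.2 (by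
    rw [add_sub_cancel_left]; exact Int.emod_eq_zero_of_dvd (hv k))

/-- The autocorrelation bound coming from a decomposition into cubes and residue classes. -/
theorem cube_bound (S V : Finset V3) (K : ℤ) (hK : 0 < K) (q : ℤ) (B : ℝ) (hB : 0 ≤ B)
    (hV : ∀ v ∈ V, ∀ i, |v i| ≤ K) (hVq : ∀ v ∈ V, ∀ i, q ∣ v i)
    (hcard : ∀ v ∈ V, ∀ Z ⊆ S, (∀ ξ ∈ Z, ξ + v ∈ S) →
      (∀ ξ ∈ Z, ∀ ξ' ∈ Z, ∀ i, |ξ i - ξ' i| < K ∧ q ∣ ξ i - ξ' i) → (Z.card : ℝ) ≤ B)
    (a : V3 → ℝ) (ha : ∀ x ∈ S, 0 < a x) (ha0 : ∀ x, x ∉ S → a x = 0) :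
    ∑ v ∈ V, (∑ ξ ∈ S, a (ξ + v) * a ξ) ^ 2 ≤ 27 * B * (∑ ξ ∈ S, a ξ ^ 2) ^ 2 := by
  refine cell_bound S V (fun x => (cell K x, resi q x))
    (fun p => (Finset.Icc (p.1 - 1) (p.1 + 1)) ×ˢ {p.2}) 27 B hB ?_ ?_ ?_ a ha ha0
  · intro v hv ξ _ _
    rw [Finset.mem_product]
    exact ⟨cell_shift hK (hV v hv), Finset.mem_singleton.2 (resi_add (hVq v hv) ξ)⟩
  · rintro ⟨c, r⟩
    have h1 : ((S.image fun x => (cell K x, resi q x)).filter fun p =>
        ((c, r) : V3 × V3) ∈ (Finset.Icc (p.1 - 1) (p.1 + 1)) ×ˢ ({p.2} : Finset V3)) ⊆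
        (Finset.Icc (c - 1) (c + 1)) ×ˢ ({r} : Finset V3) := by
      rintro ⟨c', r'⟩ hp
      have hp2 := (Finset.mem_filter.1 hp).2
      rw [Finset.mem_product, Finset.mem_Icc, Finset.mem_singleton] at hp2
      rw [Finset.mem_product, Finset.mem_Icc, Finset.mem_singleton]
      exact ⟨⟨sub_le_iff_le_add.2 hp2.1.2, sub_le_iff_le_add.1 hp2.1.1⟩, hp2.2.symm⟩
    have h2 := Finset.card_le_card h1
    rw [Finset.card_product, card_Icc_cell, Finset.card_singleton, mul_one] at h2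
    exact_mod_cast h2
  · intro v hv Z hZ hZv hZc
    refine hcard v hv Z hZ hZv fun ξ hξ ξ' hξ' i => ?_
    have h := Prod.ext_iff.1 (hZc ξ hξ ξ' hξ')
    exact ⟨cell_close hK h.1 i, resi_dvd h.2 i⟩

/-- The autocorrelation bound coming from a decomposition into residue classes. -/
theorem resi_bound (S V : Finset V3) (q : ℤ) (B : ℝ) (hB : 0 ≤ B)
    (hVq : ∀ v ∈ V, ∀ i, q ∣ v i)
    (hcard : ∀ v ∈ V, ∀ Z ⊆ S, (∀ ξ ∈ Z, ξ + v ∈ S) →
      (∀ ξ ∈ Z, ∀ ξ' ∈ Z, ∀ i, q ∣ ξ i - ξ' i) → (Z.card : ℝ) ≤ B)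
    (a : V3 → ℝ) (ha : ∀ x ∈ S, 0 < a x) (ha0 : ∀ x, x ∉ S → a x = 0) :
    ∑ v ∈ V, (∑ ξ ∈ S, a (ξ + v) * a ξ) ^ 2 ≤ B * (∑ ξ ∈ S, a ξ ^ 2) ^ 2 := by
  have h := cell_bound S V (resi q) (fun p => {p}) 1 B hB ?_ ?_ ?_ a ha ha0
  · rwa [one_mul] at h
  · intro v hv ξ _ _
    exact Finset.mem_singleton.2 (resi_add (hVq v hv) ξ)
  · intro i
    have h1 : ((S.image (resi q)).filter fun p => i ∈ ({p} : Finset V3)) ⊆ {i} := by
      intro p hp
      have hp2 := (Finset.mem_filter.1 hp).2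
      rw [Finset.mem_singleton] at hp2 ⊢
      exact hp2.symm
    have h2 := Finset.card_le_card h1
    rw [Finset.card_singleton] at h2
    exact_mod_cast h2
  · intro v hv Z hZ hZv hZc
    exact hcard v hv Z hZ hZv fun ξ hξ ξ' hξ' i => resi_dvd (hZc ξ hξ ξ' hξ') i

end Pool.Agent.Lib_helper43.Tori
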