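import Mathlib

set_option autoImplicit false

/-!
# Lattice points on spheres in three dimensions: nearby points are coplanar
-/

namespace Pool.Agent.Lib_helper43.Tori

/-- Integer vectors. -/
abbrev V3 := Fin 3 → ℤ

/-- Dot product. -/
def dt (x y : V3) : ℤ := x 0 * y 0 + x 1 * y 1 + x 2 * y 2

/-- Squared length. -/
def nq (x : V3) : ℤ := x 0 ^ 2 + x 1 ^ 2 + x 2 ^ 2

/-- Cross product. -/
def cr (x y : V3) : V3 := ![x 1 * y 2 - x 2 * y 1, x 2 * y 0 - x 0 * y 2, x 0 * y 1 - x 1 * y 0]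

@[simp] lemma cr_zero (x y : V3) : cr x y 0 = x 1 * y 2 - x 2 * y 1 := rfl
@[simp] lemma cr_one (x y : V3) : cr x y 1 = x 2 * y 0 - x 0 * y 2 := rfl
@[simp] lemma cr_two (x y : V3) : cr x y 2 = x 0 * y 1 - x 1 * y 0 := rfl

lemma nq_nonneg (x : V3) : 0 ≤ nq x := by unfold nq; positivity

lemma nq_eq_zero {x : V3} (h : nq x = 0) : x = 0 := by
  unfold nq at h
  have h0 : x 0 = 0 := by nlinarith [sq_nonneg (x 0), sq_nonneg (x 1), sq_nonneg (x 2)]
  have h1 : x 1 = 0 := by nlinarith [sq_nonneg (x 0), sq_nonneg (x 1), sq_nonneg (x 2)]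
  have h2 : x 2 = 0 := by nlinarith [sq_nonneg (x 0), sq_nonneg (x 1), sq_nonneg (x 2)]
  ext i; fin_cases i <;> simp [h0, h1, h2]

lemma nq_pos {x : V3} (h : x ≠ 0) : 0 < nq x :=
  lt_of_le_of_ne (nq_nonneg x) fun h' => h (nq_eq_zero h'.symm)

lemma ext3 {x y : V3} (h0 : x 0 = y 0) (h1 : x 1 = y 1) (h2 : x 2 = y 2) : x = y := by
  ext i; fin_cases i <;> simpa

/-- Three distinct points on a sphere are not collinear. -/
lemma not_collinear {n : ℤ} {p a b : V3} (hp : nq p = n) (ha : nq a = n) (hb : nq b = n)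
    (hap : a ≠ p) (hbp : b ≠ p) (hab : a ≠ b) : cr (a - p) (b - p) ≠ 0 := by
  intro h
  have e0 := congrFun h 0
  have e1 := congrFun h 1
  have e2 := congrFun h 2
  simp only [cr_zero, cr_one, cr_two, Pi.sub_apply, Pi.zero_apply] at e0 e1 e2
  -- |u|^2 w = (u.w) u with u = a - p, w = b - p
  set u : V3 := a - p with hu
  set w : V3 := b - p with hw
  have hu0 : 0 < nq u := nq_pos (sub_ne_zero.2 hap)
  have hw0 : 0 < nq w := nq_pos (sub_ne_zero.2 hbp)
  have hpu : 2 * dt p u = - nq u := by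
    have : nq a = nq p + 2 * dt p u + nq u := by
      simp only [nq, dt, hu, Pi.sub_apply]; ring
    linarith
  have hpw : 2 * dt p w = - nq w := by
    have : nq b = nq p + 2 * dt p w + nq w := by
      simp only [nq, dt, hw, Pi.sub_apply]; ring
    linarith
  have f0 : u 1 * w 2 - u 2 * w 1 = 0 := by simpa [hu, hw] using e0
  have f1 : u 2 * w 0 - u 0 * w 2 = 0 := by simpa [hu, hw] using e1
  have f2 : u 0 * w 1 - u 1 * w 0 = 0 := by simpa [hu, hw] using e2
  -- nq u * dt p w = dt u w * dt p u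
  have h1 : nq u * dt p w = dt u w * dt p u := by
    simp only [nq, dt]
    linear_combination (p 2 * u 1 - p 1 * u 2) * f0 + (p 0 * u 2 - p 2 * u 0) * f1 +
      (p 1 * u 0 - p 0 * u 1) * f2
  have h2 : nq w * dt p u = dt u w * dt p w := by
    simp only [nq, dt]
    linear_combination (-(p 2 * w 1 - p 1 * w 2)) * f0 - (p 0 * w 2 - p 2 * w 0) * f1 -
      (p 1 * w 0 - p 0 * w 1) * f2
  have h3 : nq u * nq w = dt u w * nq u := by
    linear_combination (-2) * h1 + nq u * hpw - dt u w * hpu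
  have h4 : nq w * nq u = dt u w * nq w := by
    linear_combination (-2) * h2 + nq w * hpu - dt u w * hpw
  have h5 : nq w = dt u w := by
    have : nq u * (nq w - dt u w) = 0 := by linarith
    rcases mul_eq_zero.1 this with h | h
    · omega
    · omega
  have h6 : nq u = dt u w := by
    have : nq w * (nq u - dt u w) = 0 := by linarith
    rcases mul_eq_zero.1 this with h | h
    · omega
    · omega
  have h7 : nq (u - w) = 0 := by
    have : nq (u - w) = nq u + nq w - 2 * dt u w := by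
      simp only [nq, dt, Pi.sub_apply]; ring
    omega
  have h8 := nq_eq_zero h7
  apply hab
  have : a - b = u - w := by rw [hu, hw]; abel
  rw [h8] at this
  exact sub_eq_zero.1 this

/-- If `w` is orthogonal to `u₁, u₂` with `u₁ × u₂ ≠ 0` and `y` lies in their span, then `w ⟂ y`. -/
lemma perp_of_span {w u₁ u₂ y : V3} (h₁ : dt w u₁ = 0) (h₂ : dt w u₂ = 0)
    (hy : dt (cr u₁ u₂) y = 0) (hne : cr u₁ u₂ ≠ 0) : dt w y = 0 := by
  set m := cr u₁ u₂ with hm
  have c0 : w 1 * m 2 - w 2 * m 1 = 0 := by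
    simp only [hm, cr_one, cr_two]
    unfold dt at h₁ h₂
    linear_combination u₁ 0 * h₂ - u₂ 0 * h₁
  have c1 : w 2 * m 0 - w 0 * m 2 = 0 := by
    simp only [hm, cr_zero, cr_two]
    unfold dt at h₁ h₂
    linear_combination u₁ 1 * h₂ - u₂ 1 * h₁
  have c2 : w 0 * m 1 - w 1 * m 0 = 0 := by
    simp only [hm, cr_zero, cr_one]
    unfold dt at h₁ h₂
    linear_combination u₁ 2 * h₂ - u₂ 2 * h₁
  have g0 : m 0 * dt w y = 0 := by
    have : m 0 * dt w y = w 0 * dt m y + (w 1 * m 0 - w 0 * m 1) * y 1 +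
        (w 2 * m 0 - w 0 * m 2) * y 2 := by unfold dt; ring
    rw [this, hy]; linear_combination (-y 1) * c2 + y 2 * c1
  have g1 : m 1 * dt w y = 0 := by
    have : m 1 * dt w y = w 1 * dt m y + (w 0 * m 1 - w 1 * m 0) * y 0 +
        (w 2 * m 1 - w 1 * m 2) * y 2 := by unfold dt; ring
    rw [this, hy]; linear_combination (y 0) * c2 - y 2 * c0
  have g2 : m 2 * dt w y = 0 := by
    have : m 2 * dt w y = w 2 * dt m y + (w 0 * m 2 - w 2 * m 0) * y 0 +
        (w 1 * m 2 - w 2 * m 1) * y 1 := by unfold dt; ring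
    rw [this, hy]; linear_combination (-y 0) * c1 + y 1 * c0
  by_contra hcon
  apply hne
  apply ext3
  · simpa using (mul_eq_zero.1 g0).resolve_right hcon
  · simpa using (mul_eq_zero.1 g1).resolve_right hcon
  · simpa using (mul_eq_zero.1 g2).resolve_right hcon

/-- Key estimate: four lattice points on a sphere that are very close to each other are
coplanar. -/
lemma det_eq_zero {n : ℤ} {p a b c : V3} {r : ℝ} (hr : 0 ≤ r) (hn : 16 * r ^ 8 < n)
    (hp : nq p = n) (ha : nq a = n) (hb : nq b = n) (hc : nq c = n)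
    (h1 : (nq (a - p) : ℝ) ≤ r ^ 2) (h2 : (nq (b - p) : ℝ) ≤ r ^ 2)
    (h3 : (nq (c - p) : ℝ) ≤ (2 * r) ^ 2) : dt (cr (a - p) (b - p)) (c - p) = 0 := by
  have _hr := hr
  set u : V3 := a - p with hu
  set v : V3 := b - p with hv
  set w : V3 := c - p with hw
  set D := dt (cr u v) w with hD
  have hpu : 2 * dt p u = - nq u := by
    have : nq a = nq p + 2 * dt p u + nq u := by
      simp only [nq, dt, hu, Pi.sub_apply]; ring
    linarith
  have hpv : 2 * dt p v = - nq v := by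
    have : nq b = nq p + 2 * dt p v + nq v := by
      simp only [nq, dt, hv, Pi.sub_apply]; ring
    linarith
  have hpw : 2 * dt p w = - nq w := by
    have : nq c = nq p + 2 * dt p w + nq w := by
      simp only [nq, dt, hw, Pi.sub_apply]; ring
    linarith
  -- 2 D p = -( nq u (v × w) + nq v (w × u) + nq w (u × v) )
  have id0 : 2 * D * p 0 = -(nq u * cr v w 0 + nq v * cr w u 0 + nq w * cr u v 0) := by
    have : 2 * D * p 0 = (2 * dt p u) * cr v w 0 + (2 * dt p v) * cr w u 0 +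
        (2 * dt p w) * cr u v 0 := by
      simp only [hD, dt, cr_zero, cr_one, cr_two]; ring
    rw [this, hpu, hpv, hpw]; ring
  have id1 : 2 * D * p 1 = -(nq u * cr v w 1 + nq v * cr w u 1 + nq w * cr u v 1) := by
    have : 2 * D * p 1 = (2 * dt p u) * cr v w 1 + (2 * dt p v) * cr w u 1 +
        (2 * dt p w) * cr u v 1 := by
      simp only [hD, dt, cr_zero, cr_one, cr_two]; ring
    rw [this, hpu, hpv, hpw]; ring
  have id2 : 2 * D * p 2 = -(nq u * cr v w 2 + nq v * cr w u 2 + nq w * cr u v 2) := by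
    have : 2 * D * p 2 = (2 * dt p u) * cr v w 2 + (2 * dt p v) * cr w u 2 +
        (2 * dt p w) * cr u v 2 := by
      simp only [hD, dt, cr_zero, cr_one, cr_two]; ring
    rw [this, hpu, hpv, hpw]; ring
  -- lengths of the cross products
  have lag : ∀ x y : V3, nq (cr x y) ≤ nq x * nq y := by
    intro x y
    have : nq x * nq y - nq (cr x y) = dt x y ^ 2 := by
      simp only [nq, dt, cr_zero, cr_one, cr_two]; ring
    nlinarith [sq_nonneg (dt x y)]
  -- vector inequality : |X + Y + Z|^2 ≤ 4 (|X|^2/ 1 ...) done by weights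
  -- weights : |αX+βY+γZ|² ≤ (1+1+2) (α²|X|² + β²|Y|² + γ²|Z|²/2)
  have wt : ∀ X Y Z : ℤ, 2 * (X + Y + Z) ^ 2 ≤ 4 * (2 * X ^ 2 + 2 * Y ^ 2 + Z ^ 2) := by
    intro X Y Z
    nlinarith [sq_nonneg (X - Y), sq_nonneg (2 * X - Z), sq_nonneg (2 * Y - Z)]
  have key : 8 * D ^ 2 * n ≤ 4 * (2 * (nq u ^ 2 * nq (cr v w)) + 2 * (nq v ^ 2 * nq (cr w u)) +
      nq w ^ 2 * nq (cr u v)) := by
    have e0 := wt (nq u * cr v w 0) (nq v * cr w u 0) (nq w * cr u v 0)
    have e1 := wt (nq u * cr v w 1) (nq v * cr w u 1) (nq w * cr u v 1)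
    have e2 := wt (nq u * cr v w 2) (nq v * cr w u 2) (nq w * cr u v 2)
    have s0 : (2 * D * p 0) ^ 2 = (nq u * cr v w 0 + nq v * cr w u 0 + nq w * cr u v 0) ^ 2 := by
      rw [id0]; ring
    have s1 : (2 * D * p 1) ^ 2 = (nq u * cr v w 1 + nq v * cr w u 1 + nq w * cr u v 1) ^ 2 := by
      rw [id1]; ring
    have s2 : (2 * D * p 2) ^ 2 = (nq u * cr v w 2 + nq v * cr w u 2 + nq w * cr u v 2) ^ 2 := by
      rw [id2]; ring
    have hn' : 8 * D ^ 2 * n = 2 * ((2 * D * p 0) ^ 2 + (2 * D * p 1) ^ 2 + (2 * D * p 2) ^ 2) := by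
      rw [← hp]; unfold nq; ring
    rw [hn', s0, s1, s2]
    have q1 : nq (cr v w) = cr v w 0 ^ 2 + cr v w 1 ^ 2 + cr v w 2 ^ 2 := rfl
    have q2 : nq (cr w u) = cr w u 0 ^ 2 + cr w u 1 ^ 2 + cr w u 2 ^ 2 := rfl
    have q3 : nq (cr u v) = cr u v 0 ^ 2 + cr u v 1 ^ 2 + cr u v 2 ^ 2 := rfl
    rw [q1, q2, q3]
    linarith [e0, e1, e2]
  have hA := nq_nonneg u
  have hB := nq_nonneg v
  have hC := nq_nonneg w
  have key2 : 8 * D ^ 2 * n ≤ 4 * (2 * (nq u ^ 2 * (nq v * nq w)) +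
      2 * (nq v ^ 2 * (nq w * nq u)) + nq w ^ 2 * (nq u * nq v)) := by
    have l1 := mul_le_mul_of_nonneg_left (lag v w) (sq_nonneg (nq u))
    have l2 := mul_le_mul_of_nonneg_left (lag w u) (sq_nonneg (nq v))
    have l3 := mul_le_mul_of_nonneg_left (lag u v) (sq_nonneg (nq w))
    linarith
  by_contra hne
  have hD1 : (1 : ℤ) ≤ D ^ 2 := by
    have : 0 < D ^ 2 := by positivity
    omega
  -- move to the reals
  have hAr : (0 : ℝ) ≤ (nq u : ℝ) := by exact_mod_cast hA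
  have hBr : (0 : ℝ) ≤ (nq v : ℝ) := by exact_mod_cast hB
  have hCr : (0 : ℝ) ≤ (nq w : ℝ) := by exact_mod_cast hC
  have key3 : 8 * (D : ℝ) ^ 2 * n ≤ 4 * (2 * ((nq u : ℝ) ^ 2 * (nq v * nq w)) +
      2 * ((nq v : ℝ) ^ 2 * (nq w * nq u)) + (nq w : ℝ) ^ 2 * (nq u * nq v)) := by
    exact_mod_cast key2
  have hn0 : (0 : ℝ) ≤ n := by
    have : (0 : ℝ) ≤ 16 * r ^ 8 := by positivity
    linarith
  have hD1r : (1 : ℝ) ≤ (D : ℝ) ^ 2 := by exact_mod_cast hD1
  have b1 : (nq u : ℝ) ^ 2 * (nq v * nq w) ≤ (r ^ 2) ^ 2 * (r ^ 2 * (2 * r) ^ 2) := by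
    gcongr
  have b2 : (nq v : ℝ) ^ 2 * (nq w * nq u) ≤ (r ^ 2) ^ 2 * ((2 * r) ^ 2 * r ^ 2) := by
    gcongr
  have b3 : (nq w : ℝ) ^ 2 * (nq u * nq v) ≤ ((2 * r) ^ 2) ^ 2 * (r ^ 2 * r ^ 2) := by
    gcongr
  have : 8 * (n : ℝ) ≤ 8 * (D : ℝ) ^ 2 * n := by nlinarith
  nlinarith

end Pool.Agent.Lib_helper43.Tori
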