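import Pool.Agent.Lib_helper43.Tori.Vand2

set_option autoImplicit false

/-!
# An explicit bound for the constant `kap`
-/

namespace Pool.Agent.Lib_helper43.Tori

open Polynomial

/-- Coefficientwise domination. -/
def Maj (P : ℂ[X]) (Q : ℝ[X]) : Prop := ∀ k, ‖P.coeff k‖ ≤ Q.coeff k

lemma Maj.mul {P P' : ℂ[X]} {Q Q' : ℝ[X]} (h : Maj P Q) (h' : Maj P' Q') : Maj (P * P') (Q * Q') := by
  intro k
  rw [coeff_mul, coeff_mul]
  refine (norm_sum_le _ _).trans (Finset.sum_le_sum fun x _ => ?_)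
  rw [norm_mul]
  exact mul_le_mul (h _) (h' _) (norm_nonneg _) ((norm_nonneg _).trans (h _))

lemma Maj.one : Maj 1 1 := by
  intro k
  rw [coeff_one, coeff_one]
  split_ifs <;> simp

lemma Maj.pow {P : ℂ[X]} {Q : ℝ[X]} (h : Maj P Q) (m : ℕ) : Maj (P ^ m) (Q ^ m) := by
  induction m with
  | zero => simpa using Maj.one
  | succ m ih => rw [pow_succ, pow_succ]; exact ih.mul h

lemma Maj.X : Maj (X : ℂ[X]) X := by
  intro k
  rw [coeff_X, coeff_X]
  split_ifs <;> simp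

lemma Maj.C (a : ℂ) : Maj (C a) (C ‖a‖) := by
  intro k
  rw [coeff_C, coeff_C]
  split_ifs <;> simp

lemma Maj.add {P P' : ℂ[X]} {Q Q' : ℝ[X]} (h : Maj P Q) (h' : Maj P' Q') : Maj (P + P') (Q + Q') := by
  intro k
  rw [coeff_add, coeff_add]
  exact (norm_add_le _ _).trans (add_le_add (h k) (h' k))

lemma Maj.sub {P P' : ℂ[X]} {Q Q' : ℝ[X]} (h : Maj P Q) (h' : Maj P' Q') : Maj (P - P') (Q + Q') := by
  intro k
  rw [coeff_sub, coeff_add]
  exact (norm_sub_le _ _).trans (add_le_add (h k) (h' k))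

lemma Maj.coeff_le {P : ℂ[X]} {Q : ℝ[X]} (h : Maj P Q) (k : ℕ) : ‖P.coeff k‖ ≤ Q.eval 1 := by
  have h0 : ∀ k, 0 ≤ Q.coeff k := fun k => (norm_nonneg _).trans (h k)
  rw [eval_eq_sum_range]
  simp only [one_pow, mul_one]
  by_cases hk : k < Q.natDegree + 1
  · exact (h k).trans (Finset.single_le_sum (f := fun i => Q.coeff i) (fun i _ => h0 i)
      (Finset.mem_range.2 hk))
  · have : Q.coeff k = 0 := coeff_eq_zero_of_natDegree_lt (by omega)
    refine (h k).trans ?_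
    rw [this]
    exact Finset.sum_nonneg fun i _ => h0 i

lemma gpoly_coeff_le (d : ℕ) (j : Fin (d + 1) ⊕ Fin d) (k : ℕ) : ‖(gpoly d j).coeff k‖ ≤ 1 := by
  have h1 : Maj (C (1 / (2 * Complex.I)) * (X ^ 2 - 1)) (C (1 / 2) * (X ^ 2 + 1)) := by
    have h := (Maj.C (1 / (2 * Complex.I))).mul ((Maj.X.pow 2).sub Maj.one)
    have e : ‖(1 : ℂ) / (2 * Complex.I)‖ = 1 / 2 := by
      rw [norm_div, norm_mul, Complex.norm_I]; norm_num
    rwa [e] at h
  have h2 : Maj (C (1 / 2) * (X ^ 2 + 1)) (C (1 / 2) * (X ^ 2 + 1)) := by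
    have h := (Maj.C (1 / 2)).mul ((Maj.X.pow 2).add Maj.one)
    have e : ‖(1 : ℂ) / 2‖ = 1 / 2 := by norm_num
    rwa [e] at h
  rcases j with l | l
  · have h3 := ((Maj.X.pow (d - (l : ℕ))).mul (h1.pow (l : ℕ))).coeff_le k
    refine h3.trans (le_of_eq ?_)
    simp only [eval_mul, eval_pow, eval_X, eval_C, eval_add, eval_one]
    norm_num
  · have h3 := (((Maj.X.pow (d - 1 - (l : ℕ))).mul h2).mul (h1.pow (l : ℕ))).coeff_le k
    refine h3.trans (le_of_eq ?_)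
    simp only [eval_mul, eval_pow, eval_X, eval_C, eval_add, eval_one]
    norm_num

lemma kap_le_factorial (d : ℕ) : kap d ≤ ((d + 1 + d).factorial : ℝ) ^ 2 := by
  unfold kap
  refine pow_le_pow_left₀ (norm_nonneg _) ?_ 2
  have h := Matrix.det_le (A := Tm d) (abv := IsAbsoluteValue.toAbsoluteValue (norm : ℂ → ℝ))
    (x := 1) (fun i j => gpoly_coeff_le d _ _)
  simpa using h

lemma kap_le (d : ℕ) : kap d ≤ 729 ^ (d ^ 2) := by
  refine (kap_le_factorial d).trans ?_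
  have h1 : d + 1 + d ≤ 3 ^ d := by
    induction d with
    | zero => norm_num
    | succ d ih =>
      rw [pow_succ]
      omega
  rcases Nat.eq_zero_or_pos d with h0 | hd
  · subst h0; norm_num
  have h2 : (d + 1 + d).factorial ≤ (27 : ℕ) ^ (d ^ 2) := by
    calc (d + 1 + d).factorial ≤ (d + 1 + d) ^ (d + 1 + d) := Nat.factorial_le_pow _
      _ ≤ (3 ^ d) ^ (d + 1 + d) := Nat.pow_le_pow_left h1 _
      _ ≤ 27 ^ (d ^ 2) := by
          rw [← pow_mul, show (27 : ℕ) = 3 ^ 3 by norm_num, ← pow_mul]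
          refine Nat.pow_le_pow_right (by norm_num) ?_
          nlinarith
  calc ((d + 1 + d).factorial : ℝ) ^ 2 ≤ ((27 : ℝ) ^ (d ^ 2)) ^ 2 := by
        refine pow_le_pow_left₀ (by positivity) ?_ 2
        exact_mod_cast h2
    _ = 729 ^ (d ^ 2) := by
        rw [← pow_mul, mul_comm, pow_mul]; norm_num

end Pool.Agent.Lib_helper43.Tori
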