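import Pool.Agent.Lib_helper43.Tori.Scales
import Pool.Agent.Lib_helper43.Tori.Kap

set_option autoImplicit false

/-!
# A logarithmic bound on all frequencies with a given greatest common divisor
-/

namespace Pool.Agent.Lib_helper43.Tori

lemma kap2_le {d : ℕ} (hd : 0 < d) : kap d * 2 ^ (3 * (d ^ 2 + d)) ≤ 46656 ^ (d ^ 2) := by
  have h1 : (2 : ℝ) ^ (3 * (d ^ 2 + d)) ≤ 64 ^ (d ^ 2) := by
    rw [show (64 : ℝ) = 2 ^ 6 by norm_num, ← pow_mul]
    exact pow_le_pow_right₀ (by norm_num) (by nlinarith)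
  calc kap d * 2 ^ (3 * (d ^ 2 + d)) ≤ 729 ^ (d ^ 2) * 64 ^ (d ^ 2) :=
        mul_le_mul (kap_le d) h1 (by positivity) (by positivity)
    _ = 46656 ^ (d ^ 2) := by rw [← mul_pow]; norm_num

/-- Vectors with greatest common divisor `q`. -/
lemma gcd_vector {v : V3} (hv : v ≠ 0) {q : ℤ} (hgcd : Finset.univ.gcd v = q) :
    ∃ (w u : V3), v = q • w ∧ dt u w = 1 ∧ (nq v : ℝ) = (q : ℝ) ^ 2 * nq w ∧ 0 < q ∧
      ∀ i, q ∣ v i := by
  obtain ⟨t, w, u, ht, hvw, hu, htg⟩ := exists_primitive hv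
  have hqv : ∀ i, q ∣ v i := fun i => hgcd ▸ Finset.gcd_dvd (Finset.mem_univ i)
  have hqt : q ∣ t := by
    have h0 : t = u 0 * v 0 + u 1 * v 1 + u 2 * v 2 := by
      have h0' : u 0 * v 0 + u 1 * v 1 + u 2 * v 2 = t * dt u w := by
        rw [hvw]; simp only [dt, Pi.smul_apply, smul_eq_mul]; ring
      rw [h0', hu, mul_one]
    rw [h0]
    exact dvd_add (dvd_add ((hqv 0).mul_left _) ((hqv 1).mul_left _)) ((hqv 2).mul_left _)
  have h1 : q = t := le_antisymm (Int.le_of_dvd ht hqt) (hgcd ▸ htg)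
  subst h1
  refine ⟨w, u, hvw, hu, ?_, ht, hqv⟩
  have : nq v = q ^ 2 * nq w := by conv_lhs => rw [hvw, nq_smul]
  exact_mod_cast this

/-- The condition of `arc_card` from a bound not involving `q`. -/
lemma arc_cond {d : ℕ} {κ R V W N q : ℝ} (hq : 1 ≤ q) (hV : V = q ^ 2 * W) (hW : 0 ≤ W)
    (hN : 0 ≤ N) (h : κ * (4 * R) ^ (2 * d ^ 2 + d) < (V * N) ^ (d ^ 2)) :
    κ * (4 * R) ^ (2 * d ^ 2 + d) < (W * N) ^ (d ^ 2) * (q ^ (d ^ 2 + d)) ^ 2 := by
  refine lt_of_lt_of_le h ?_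
  have e1 : (V * N) ^ (d ^ 2) = (W * N) ^ (d ^ 2) * (q ^ (d ^ 2)) ^ 2 := by
    rw [hV, ← pow_mul, mul_comm (d ^ 2) 2, pow_mul, ← mul_pow]
    ring
  rw [e1]
  exact mul_le_mul_of_nonneg_left (pow_le_pow_left₀ (by positivity)
    (pow_le_pow_right₀ hq (by omega)) 2) (by positivity)

/-- The arithmetic of the exponents in a block. -/
lemma block_exponents {d : ℕ} (hd : 0 < d) {x α V N R : ℝ} (hx : 1 < x)
    (hαd : 4 ≤ α * d) (hc : 5159780352 < x ^ (α / 4)) (hV : x ^ (1 - α) ≤ V)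
    (hN : x ≤ N) (hR0 : 0 ≤ R) (hR : 4 * R ≤ 48 * x ^ (1 - 3 * α / 4)) :
    kap d * 2 ^ (3 * (d ^ 2 + d)) * (4 * R) ^ (2 * d ^ 2 + d) < (V * N) ^ (d ^ 2) := by
  have hx0 : 0 < x := by linarith
  have hd1 : (1 : ℝ) ≤ d := by exact_mod_cast hd
  have h1 : (48 * x ^ (1 - 3 * α / 4)) ^ (2 * d ^ 2 + d) ≤
      110592 ^ (d ^ 2) * x ^ (2 * d ^ 2 - 3 * α / 2 * d ^ 2 + d : ℝ) := by
    rw [mul_pow]
    refine mul_le_mul ?_ ?_ (by positivity) (by positivity)
    · rw [show (110592 : ℝ) = 48 ^ 3 by norm_num, ← pow_mul]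
      exact pow_le_pow_right₀ (by norm_num) (by nlinarith)
    · rw [← Real.rpow_natCast, ← Real.rpow_mul hx0.le]
      refine Real.rpow_le_rpow_of_exponent_le hx.le ?_
      push_cast
      nlinarith
  have h2 : (x ^ (1 - α) * x) ^ (d ^ 2) ≤ (V * N) ^ (d ^ 2) := by
    have h0 : 0 < x ^ (1 - α) := Real.rpow_pos_of_pos hx0 _
    exact pow_le_pow_left₀ (by positivity) (mul_le_mul hV hN hx0.le (h0.le.trans hV)) _
  refine lt_of_lt_of_le ?_ h2
  have hxp : 0 < x ^ (2 * d ^ 2 - 3 * α / 2 * d ^ 2 + d : ℝ) := Real.rpow_pos_of_pos hx0 _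
  have hdd : d ^ 2 ≠ 0 := by positivity
  calc kap d * 2 ^ (3 * (d ^ 2 + d)) * (4 * R) ^ (2 * d ^ 2 + d)
      ≤ 46656 ^ (d ^ 2) * (48 * x ^ (1 - 3 * α / 4)) ^ (2 * d ^ 2 + d) :=
        mul_le_mul (kap2_le hd) (pow_le_pow_left₀ (by positivity) hR _) (by positivity)
          (by positivity)
    _ ≤ 46656 ^ (d ^ 2) * (110592 ^ (d ^ 2) * x ^ (2 * d ^ 2 - 3 * α / 2 * d ^ 2 + d : ℝ)) :=
        mul_le_mul_of_nonneg_left h1 (by positivity)
    _ = 5159780352 ^ (d ^ 2) * x ^ (2 * d ^ 2 - 3 * α / 2 * d ^ 2 + d : ℝ) := by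
        rw [← mul_assoc, ← mul_pow]; norm_num
    _ < (x ^ (α / 4)) ^ (d ^ 2) * x ^ (2 * d ^ 2 - 3 * α / 2 * d ^ 2 + d : ℝ) := by
        exact mul_lt_mul_of_pos_right (pow_lt_pow_left₀ hc (by norm_num) hdd) hxp
    _ ≤ (x ^ (1 - α) * x) ^ (d ^ 2) := by
        have e1 : (x ^ (α / 4)) ^ (d ^ 2) = x ^ (α / 4 * d ^ 2 : ℝ) := by
          rw [← Real.rpow_natCast, ← Real.rpow_mul hx0.le]; push_cast; rfl
        have e2 : (x ^ (1 - α) * x) ^ (d ^ 2) = x ^ ((2 - α) * d ^ 2 : ℝ) := by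
          nth_rewrite 2 [← Real.rpow_one x]
          rw [← Real.rpow_add hx0, ← Real.rpow_natCast, ← Real.rpow_mul hx0.le]
          congr 1
          push_cast; ring
        rw [e1, e2, ← Real.rpow_add hx0]
        refine Real.rpow_le_rpow_of_exponent_le hx.le ?_
        nlinarith

/-- The autocorrelation bound on a block of frequencies. -/
lemma block_bound {d : ℕ} (hd : 0 < d) {n : ℕ} (hn1 : 1 < (n : ℝ)) (S T : Finset V3)
    (hS : ∀ x ∈ S, nq x = n) {q : ℤ} {α : ℝ} (hα0 : 0 < α) (hα1 : α ≤ 1) (hαd : 4 ≤ α * d)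
    (hc : 5159780352 < (n : ℝ) ^ (α / 4))
    (hT : ∀ v ∈ T, v ≠ 0 ∧ Finset.univ.gcd v = q ∧ (n : ℝ) ^ (1 - α) ≤ nq v ∧
      (nq v : ℝ) < (n : ℝ) ^ (1 - 3 * α / 4))
    (a : V3 → ℝ) (ha : ∀ x ∈ S, 0 < a x) (ha0 : ∀ x, x ∉ S → a x = 0) :
    ∑ v ∈ T, (∑ ξ ∈ S, a (ξ + v) * a ξ) ^ 2 ≤ 27 * (2 * d) * (∑ ξ ∈ S, a ξ ^ 2) ^ 2 := by
  have hx0 : (0 : ℝ) < n := by linarith
  set y : ℝ := (n : ℝ) ^ ((1 - 3 * α / 4) / 2) with hy
  have hy1 : 1 ≤ y := Real.one_le_rpow hn1.le (by linarith)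
  have hy2 : y ^ 2 = (n : ℝ) ^ (1 - 3 * α / 4) := by
    rw [hy, ← Real.rpow_natCast, ← Real.rpow_mul hx0.le]
    congr 1
    push_cast; ring
  set K : ℤ := ⌈y⌉ with hKdef
  have hKlo : y ≤ K := Int.le_ceil _
  have hKhi : (K : ℝ) < y + 1 := Int.ceil_lt_add_one _
  have hKR : (0 : ℝ) < K := by linarith
  have hK : 0 < K := by exact_mod_cast hKR
  have hq : ∀ v ∈ T, ∀ i, q ∣ v i := fun v hv => by
    obtain ⟨_, _, _, _, _, _, h⟩ := gcd_vector (hT v hv).1 (hT v hv).2.1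
    exact h
  refine cube_bound S T K hK q (2 * d) (by positivity) ?_ hq ?_ a ha ha0
  · intro v hv i
    obtain ⟨-, -, -, h2⟩ := hT v hv
    have h4 : (nq v : ℝ) < (K : ℝ) ^ 2 := by
      rw [← hy2] at h2
      exact lt_of_lt_of_le h2 (pow_le_pow_left₀ (by linarith) hKlo 2)
    have h5 : nq v < K ^ 2 := by exact_mod_cast h4
    exact (abs_lt_of_sq_lt_sq (lt_of_le_of_lt (sq_le_nq v i) h5) hK.le).le
  · intro v hv Z hZS hZv hZK
    obtain ⟨hv0, hg, h1, h2⟩ := hT v hv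
    obtain ⟨w, u, hvw, hu, hVW, hq0, hqv⟩ := gcd_vector hv0 hg
    have hqR : (1 : ℝ) ≤ q := by exact_mod_cast hq0
    have hD0 : (0 : ℝ) ≤ nq w := by exact_mod_cast nq_nonneg w
    have hVn : (nq v : ℝ) ≤ n := by
      have h7 : (n : ℝ) ^ (1 - 3 * α / 4) ≤ (n : ℝ) ^ (1 : ℝ) :=
        Real.rpow_le_rpow_of_exponent_le hn1.le (by linarith)
      rw [Real.rpow_one] at h7
      linarith
    have hN : 0 < 4 * (n : ℤ) - nq v := by
      have h7 : (nq v : ℤ) ≤ n := by exact_mod_cast hVn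
      have h8 : (0 : ℤ) < n := by exact_mod_cast hx0
      linarith
    have hNR : (n : ℝ) ≤ ((4 * (n : ℤ) - nq v : ℤ) : ℝ) := by
      push_cast
      linarith
    have hR : 4 * (3 * (K : ℝ) ^ 2) ≤ 48 * (n : ℝ) ^ (1 - 3 * α / 4) := by
      rw [← hy2]
      have h7 : (K : ℝ) ≤ 2 * y := by linarith
      have h8 : (K : ℝ) ^ 2 ≤ (2 * y) ^ 2 := pow_le_pow_left₀ hKR.le h7 2
      linarith
    have hexp := block_exponents hd hn1 hαd hc h1 hNR (R := 3 * (K : ℝ) ^ 2) (by positivity) hR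
    have h7 := arc_card d hd hv0 hvw hu (n := (n : ℤ)) (q := q) hN (R := 3 * (K : ℝ) ^ 2)
      (arc_cond hqR hVW hD0 (hx0.le.trans hNR) hexp) Z
      (fun ξ hξ => hS ξ (hZS hξ)) (fun ξ hξ => hS _ (hZv ξ hξ)) (by
        intro ξ hξ ξ' hξ'
        have hi : ∀ i, (ξ i - ξ' i) ^ 2 ≤ K ^ 2 := fun i => by
          have := (hZK ξ hξ ξ' hξ' i).1.le
          exact sq_le_sq' (abs_le.1 this).1 (abs_le.1 this).2
        have h8 : nq (ξ - ξ') ≤ 3 * K ^ 2 := by
          have e0 := hi 0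
          have e1 := hi 1
          have e2 := hi 2
          simp only [nq, Pi.sub_apply]
          linarith
        exact_mod_cast h8) (fun ξ hξ ξ' hξ' k => (hZK ξ hξ ξ' hξ' k).2)
    exact_mod_cast h7

lemma nq_eta {n : ℤ} {ξ v : V3} (h1 : nq ξ = n) (h2 : nq (ξ + v) = n) :
    nq ((2 : ℤ) • ξ + v) = 4 * n - nq v := by
  have h3 : nq (ξ + v) = nq ξ + 2 * dt ξ v + nq v := by
    simp only [nq, dt, Pi.add_apply]; ring
  have h4 : nq ((2 : ℤ) • ξ + v) = 4 * nq ξ + 2 * (2 * dt ξ v + nq v) - nq v := by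
    simp only [dt, nq, Pi.add_apply, Pi.smul_apply, smul_eq_mul]
    ring
  rw [h4]
  linarith

/-- The number of points of a circle of large discriminant in a residue class. -/
lemma top_card {M : ℕ} (hM : 4 * (46656 * 144 * 5159780352 ^ 4) < (M : ℝ) ^ 2) {n : ℕ}
    (hn : 2 ≤ n) {S : Finset V3} (hS : ∀ x ∈ S, nq x = n) {v : V3} {q : ℤ} (hv0 : v ≠ 0)
    (hg : Finset.univ.gcd v = q) (hV : (n : ℝ) / 5159780352 ^ 4 ≤ nq v) {Z : Finset V3}
    (hZS : Z ⊆ S) (hZv : ∀ ξ ∈ Z, ξ + v ∈ S)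
    (hZq : ∀ ξ ∈ Z, ∀ ξ' ∈ Z, ∀ i, q ∣ ξ i - ξ' i) :
    (Z.card : ℝ) ≤ (5 * (2 * (M : ℝ) + 1) ^ 3 + 2 * (2 * (M : ℝ) ^ 2 + 1) ^ 3) * Real.log n := by
  have hnR : (2 : ℝ) ≤ n := by exact_mod_cast hn
  have hx0 : (0 : ℝ) < n := by linarith
  have hlog2 : (0.6931 : ℝ) < Real.log 2 := by
    have := Real.log_two_gt_d9; linarith
  have hlog : (0.6931 : ℝ) < Real.log n := lt_of_lt_of_le hlog2 (Real.log_le_log (by norm_num) hnR)
  have hM0 : (0 : ℝ) ≤ M := Nat.cast_nonneg _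
  have hM1 : (1 : ℝ) ≤ M := by
    have h1 : (0 : ℝ) < (M : ℝ) ^ 2 := lt_trans (by norm_num) hM
    have h2 : (0 : ℝ) < M := by
      rcases hM0.eq_or_lt with h | h
      · rw [← h] at h1; norm_num at h1
      · exact h
    exact_mod_cast h2
  by_cases hbig : (n : ℝ) < (M : ℝ) ^ 2
  · -- small n
    have h1 : (Z.card : ℝ) ≤ (2 * (M : ℝ) ^ 2 + 1) ^ 3 := by
      calc (Z.card : ℝ) ≤ S.card := by exact_mod_cast Finset.card_le_card hZS
        _ ≤ (2 * (n : ℝ) + 1) ^ 3 := card_sphere hS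
        _ ≤ (2 * (M : ℝ) ^ 2 + 1) ^ 3 := pow_le_pow_left₀ (by positivity) (by linarith) 3
    have h2 : 0 ≤ (2 * (M : ℝ) ^ 2 + 1) ^ 3 := by positivity
    have h3 : 0 ≤ 5 * (2 * (M : ℝ) + 1) ^ 3 * Real.log n := by positivity
    nlinarith
  · push Not at hbig
    obtain ⟨w, u, hvw, hu, hVW, hq0, hqv⟩ := gcd_vector hv0 hg
    have hqR : (1 : ℝ) ≤ q := by exact_mod_cast hq0
    have hD0 : (0 : ℝ) ≤ nq w := by exact_mod_cast nq_nonneg w
    set y : ℝ := Real.sqrt n / M with hy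
    have hsq : Real.sqrt n ^ 2 = n := Real.sq_sqrt hx0.le
    have hMs : (M : ℝ) ≤ Real.sqrt n := Real.le_sqrt_of_sq_le hbig
    have hy1 : 1 ≤ y := by
      rw [hy, le_div_iff₀ (by linarith), one_mul]; exact hMs
    have hyM : y * M = Real.sqrt n := by
      rw [hy, div_mul_cancel₀ _ (by linarith)]
    set K : ℤ := ⌈y⌉ with hKdef
    have hKlo : y ≤ K := Int.le_ceil _
    have hKhi : (K : ℝ) < y + 1 := Int.ceil_lt_add_one _
    have hKR : (0 : ℝ) < K := by linarith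
    have hK : 0 < K := by exact_mod_cast hKR
    have hK2 : (K : ℝ) ^ 2 * (M : ℝ) ^ 2 ≤ 4 * n := by
      have h1 : (K : ℝ) ≤ 2 * y := by linarith
      have h2 : (K : ℝ) * M ≤ 2 * Real.sqrt n := by
        rw [← hyM]
        nlinarith
      have h3 := pow_le_pow_left₀ (by positivity) h2 2
      rw [mul_pow, mul_pow, hsq] at h3
      linarith
    set d : ℕ := ⌈Real.log n⌉₊ with hd
    have hdlo : Real.log n ≤ d := Nat.le_ceil _
    have hdhi : (d : ℝ) < Real.log n + 1 := Nat.ceil_lt_add_one (by linarith)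
    have hd0 : 0 < d := Nat.ceil_pos.2 (by linarith)
    have hd1 : (1 : ℝ) ≤ d := by exact_mod_cast hd0
    have hxd : (n : ℝ) ^ d ≤ 3 ^ (d ^ 2) := by
      have h1 : (n : ℝ) ≤ 3 ^ d := by
        calc (n : ℝ) = Real.exp (Real.log n) := (Real.exp_log hx0).symm
          _ ≤ Real.exp d := Real.exp_le_exp.2 hdlo
          _ = Real.exp 1 ^ d := by rw [← Real.exp_nat_mul, mul_one]
          _ ≤ 3 ^ d := by
              refine pow_le_pow_left₀ (Real.exp_pos 1).le ?_ _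
              have := Real.exp_one_lt_d9
              linarith
      calc (n : ℝ) ^ d ≤ (3 ^ d) ^ d := pow_le_pow_left₀ hx0.le h1 d
        _ = 3 ^ (d ^ 2) := by rw [← pow_mul, sq]
    -- the number of points in a cell
    have hcell : ∀ c ∈ Z.image (cell K), (Z.filter fun x => cell K x = c).card ≤ 2 * d := by
      intro c _
      set Y := Z.filter fun x => cell K x = c with hY
      have hYZ : ∀ x ∈ Y, x ∈ Z := fun x hx => (Finset.mem_filter.1 hx).1
      have hη : ∀ x ∈ Y, nq ((2 : ℤ) • x + v) = 4 * (n : ℤ) - nq v := fun x hx =>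
        nq_eta (hS x (hZS (hYZ x hx))) (hS _ (hZv x (hYZ x hx)))
      rcases Y.eq_empty_or_nonempty with h0 | ⟨x0, hx0Y⟩
      · rw [h0]; simp
      have hNn : 0 ≤ 4 * (n : ℤ) - nq v := by
        rw [← hη x0 hx0Y]; exact nq_nonneg _
      rcases hNn.eq_or_lt with hN0 | hN
      · have h1 : Y.card ≤ 1 := by
          rw [Finset.card_le_one]
          intro x hx x' hx'
          have e1 := nq_eq_zero ((hη x hx).trans hN0.symm)
          have e2 := nq_eq_zero ((hη x' hx').trans hN0.symm)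
          have e3 : (2 : ℤ) • x = (2 : ℤ) • x' := by
            have := e1.trans e2.symm
            simpa using this
          exact smul_right_injective V3 (by norm_num : (2 : ℤ) ≠ 0) e3
        omega
      · set N : ℝ := ((4 * (n : ℤ) - nq v : ℤ) : ℝ) with hNdef
        have hNR : 0 < N := Int.cast_pos.2 hN
        set R : ℝ := min (3 * (K : ℝ) ^ 2) N with hR
        have hR0 : 0 ≤ R := le_min (by positivity) hNR.le
        have hR1 : 4 * R ≤ 4 * N := by linarith [min_le_right (3 * (K : ℝ) ^ 2) N]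
        have hR2 : 4 * R ≤ 12 * (K : ℝ) ^ 2 := by linarith [min_le_left (3 * (K : ℝ) ^ 2) N]
        have h12 : 12 * (K : ℝ) ^ 2 ≤ n := by nlinarith
        have hcond : kap d * 2 ^ (3 * (d ^ 2 + d)) * (4 * R) ^ (2 * d ^ 2 + d) <
            ((nq v : ℝ) * N) ^ (d ^ 2) := by
          have hdd : d ^ 2 ≠ 0 := by positivity
          calc kap d * 2 ^ (3 * (d ^ 2 + d)) * (4 * R) ^ (2 * d ^ 2 + d)
              ≤ 46656 ^ (d ^ 2) * ((4 * N) ^ (d ^ 2) * (12 * (K : ℝ) ^ 2) ^ (d ^ 2) *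
                  3 ^ (d ^ 2)) := by
                refine mul_le_mul (kap2_le hd0) ?_ (by positivity) (by positivity)
                rw [show 2 * d ^ 2 + d = d ^ 2 + d ^ 2 + d by ring, pow_add, pow_add]
                refine mul_le_mul (mul_le_mul (pow_le_pow_left₀ (by positivity) hR1 _)
                  (pow_le_pow_left₀ (by positivity) hR2 _) (by positivity) (by positivity)) ?_
                  (by positivity) (by positivity)
                exact (pow_le_pow_left₀ (by positivity) (hR2.trans h12) d).trans hxd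
            _ = (46656 * 144 * (K : ℝ) ^ 2 * N) ^ (d ^ 2) := by
                rw [← mul_pow, ← mul_pow, ← mul_pow]
                congr 1
                ring
            _ < ((nq v : ℝ) * N) ^ (d ^ 2) := by
                refine pow_lt_pow_left₀ (mul_lt_mul_of_pos_right ?_ hNR) (by positivity) hdd
                refine lt_of_lt_of_le ?_ hV
                rw [lt_div_iff₀ (by positivity)]
                have hMpos : (0 : ℝ) < (M : ℝ) ^ 2 := by positivity
                have h1 : 46656 * 144 * (K : ℝ) ^ 2 * 5159780352 ^ 4 * (M : ℝ) ^ 2 <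
                    (n : ℝ) * (M : ℝ) ^ 2 := by
                  calc 46656 * 144 * (K : ℝ) ^ 2 * 5159780352 ^ 4 * (M : ℝ) ^ 2
                      = 46656 * 144 * 5159780352 ^ 4 * ((K : ℝ) ^ 2 * (M : ℝ) ^ 2) := by ring
                    _ ≤ 46656 * 144 * 5159780352 ^ 4 * (4 * (n : ℝ)) :=
                        mul_le_mul_of_nonneg_left hK2 (by norm_num)
                    _ = (n : ℝ) * (4 * (46656 * 144 * 5159780352 ^ 4)) := by ring
                    _ < (n : ℝ) * (M : ℝ) ^ 2 := mul_lt_mul_of_pos_left hM hx0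
                exact lt_of_mul_lt_mul_right h1 hMpos.le
        exact arc_card d hd0 hv0 hvw hu (n := (n : ℤ)) (q := q) hN (R := R)
          (arc_cond hqR hVW hD0 hNR.le hcond) Y
          (fun ξ hξ => hS ξ (hZS (hYZ ξ hξ))) (fun ξ hξ => hS _ (hZv ξ (hYZ ξ hξ))) (by
            intro ξ hξ ξ' hξ'
            refine le_min ?_ ?_
            · have hi : ∀ i, (ξ i - ξ' i) ^ 2 ≤ K ^ 2 := fun i => by
                have hc : cell K ξ = cell K ξ' :=
                  (Finset.mem_filter.1 hξ).2.trans (Finset.mem_filter.1 hξ').2.symm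
                have := (cell_close hK hc i).le
                exact sq_le_sq' (abs_le.1 this).1 (abs_le.1 this).2
              have h8 : nq (ξ - ξ') ≤ 3 * K ^ 2 := by
                have e0 := hi 0
                have e1 := hi 1
                have e2 := hi 2
                simp only [nq, Pi.sub_apply]
                linarith
              exact_mod_cast h8
            · have h8 : nq (ξ - ξ') ≤ 4 * (n : ℤ) - nq v := by
                have e1 : nq ((2 : ℤ) • (ξ - ξ')) = 4 * nq (ξ - ξ') := by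
                  rw [nq_smul]; ring
                have e2 : (2 : ℤ) • (ξ - ξ') = ((2 : ℤ) • ξ + v) + -((2 : ℤ) • ξ' + v) := by
                  rw [smul_sub]; abel
                have e3 := nq_add_le ((2 : ℤ) • ξ + v) (-((2 : ℤ) • ξ' + v))
                rw [← e2, e1, nq_neg, hη ξ hξ, hη ξ' hξ'] at e3
                linarith
              exact Int.cast_le.2 h8) (fun ξ hξ ξ' hξ' k => hZq ξ (hYZ ξ hξ) ξ' (hYZ ξ' hξ') k)
    -- the number of cells
    have himg : Z.image (cell K) ⊆ Finset.Icc (fun _ : Fin 3 => -(M : ℤ)) (fun _ : Fin 3 => (M : ℤ)) := by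
      intro c hc
      obtain ⟨x, hx, rfl⟩ := Finset.mem_image.1 hc
      have hxi : ∀ i, |(x i : ℝ)| ≤ K * M := by
        intro i
        have h1 : (x i : ℝ) ^ 2 ≤ n := by
          have := sq_le_nq x i
          rw [hS x (hZS hx)] at this
          exact_mod_cast this
        have h2 : |(x i : ℝ)| ≤ Real.sqrt n := Real.abs_le_sqrt h1
        refine h2.trans ?_
        rw [← hyM]
        exact mul_le_mul_of_nonneg_right hKlo hM0
      have hxi2 : ∀ i, |x i| ≤ K * M := fun i => by exact_mod_cast hxi i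
      rw [Finset.mem_Icc]
      constructor
      · intro i
        have h1 := (abs_le.1 (hxi2 i)).1
        simp only [cell]
        rw [Int.le_ediv_iff_mul_le hK]
        linarith
      · intro i
        have h1 := (abs_le.1 (hxi2 i)).2
        simp only [cell]
        have h2 : x i / K < M + 1 := by
          rw [Int.ediv_lt_iff_lt_mul hK]
          nlinarith
        omega
    have hcells : (Z.image (cell K)).card ≤ (2 * M + 1) ^ 3 := by
      have h2 := Finset.card_le_card himg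
      rw [Pi.card_Icc] at h2
      simp only [Int.card_Icc, Finset.prod_const, Finset.card_univ, Fintype.card_fin] at h2
      have h3 : ((M : ℤ) + 1 - -(M : ℤ)).toNat = 2 * M + 1 := by omega
      rw [h3] at h2
      exact h2
    have hfin : Z.card ≤ 2 * d * (2 * M + 1) ^ 3 :=
      (Finset.card_le_mul_card_image Z (2 * d) hcell).trans (Nat.mul_le_mul_left _ hcells)
    have hfinR : (Z.card : ℝ) ≤ 2 * d * (2 * (M : ℝ) + 1) ^ 3 := by exact_mod_cast hfin
    have h5 : 2 * (d : ℝ) ≤ 5 * Real.log n := by linarith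
    have h6 : 0 ≤ (2 * (M : ℝ) + 1) ^ 3 := by positivity
    have h7 : 0 ≤ 2 * (2 * (M : ℝ) ^ 2 + 1) ^ 3 * Real.log n := by positivity
    nlinarith

open Classical in
/-- The sum over the first blocks. -/
lemma blocks {n : ℕ} (hn1 : (1 : ℝ) < n) {S T : Finset V3} (hS : ∀ x ∈ S, nq x = n) {q : ℤ}
    (hT : ∀ v ∈ T, v ≠ 0 ∧ Finset.univ.gcd v = q)
    (a : V3 → ℝ) (ha : ∀ x ∈ S, 0 < a x) (ha0 : ∀ x, x ∉ S → a x = 0) (i : ℕ)
    (hi : ∀ j < i, 5159780352 < (n : ℝ) ^ (((3 : ℝ) / 4) ^ j / 4)) :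
    ∑ v ∈ T.filter (fun v => (nq v : ℝ) < (n : ℝ) ^ (1 - ((3 : ℝ) / 4) ^ i)),
      (∑ ξ ∈ S, a (ξ + v) * a ξ) ^ 2 ≤
      1296 * (((4 : ℝ) / 3) ^ i - 1) * (∑ ξ ∈ S, a ξ ^ 2) ^ 2 := by
  set A := ∑ ξ ∈ S, a ξ ^ 2 with hA
  have hA0 : 0 ≤ A := Finset.sum_nonneg fun _ _ => sq_nonneg _
  have hx0 : (0 : ℝ) < n := by linarith
  set f : V3 → ℝ := fun v => (∑ ξ ∈ S, a (ξ + v) * a ξ) ^ 2 with hf
  induction i with
  | zero =>
    have h0 : T.filter (fun v => (nq v : ℝ) < (n : ℝ) ^ (1 - ((3 : ℝ) / 4) ^ 0)) = ∅ := by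
      rw [Finset.filter_eq_empty_iff]
      intro v hv hlt
      rw [pow_zero, sub_self, Real.rpow_zero] at hlt
      have h1 := nq_pos (hT v hv).1
      have h2 : (1 : ℝ) ≤ nq v := by exact_mod_cast h1
      linarith
    rw [h0]
    simp
  | succ i ih =>
    set α : ℝ := ((3 : ℝ) / 4) ^ i with hα
    have hα0 : 0 < α := by positivity
    have hα1 : α ≤ 1 := pow_le_one₀ (by norm_num) (by norm_num)
    have hαs : ((3 : ℝ) / 4) ^ (i + 1) = 3 * α / 4 := by rw [pow_succ]; ring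
    rw [hαs]
    set d : ℕ := ⌈4 / α⌉₊ with hd
    have h4α : 4 ≤ 4 / α := by
      rw [le_div_iff₀ hα0]; linarith
    have hdlo : 4 / α ≤ d := Nat.le_ceil _
    have hdhi : (d : ℝ) < 4 / α + 1 := Nat.ceil_lt_add_one (by linarith)
    have hd0 : 0 < d := Nat.ceil_pos.2 (by linarith)
    have hαd : 4 ≤ α * d := by
      rw [div_le_iff₀ hα0] at hdlo
      linarith
    have hblock := block_bound hd0 hn1 S
      (T.filter fun v => (n : ℝ) ^ (1 - α) ≤ nq v ∧ (nq v : ℝ) < (n : ℝ) ^ (1 - 3 * α / 4))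
      hS (q := q) hα0 hα1 hαd (hi i (by omega)) (by
        intro v hv
        obtain ⟨hv1, hv2⟩ := Finset.mem_filter.1 hv
        exact ⟨(hT v hv1).1, (hT v hv1).2, hv2.1, hv2.2⟩) a ha ha0
    have hsplit : ∑ v ∈ T.filter (fun v => (nq v : ℝ) < (n : ℝ) ^ (1 - 3 * α / 4)), f v ≤
        ∑ v ∈ T.filter (fun v => (nq v : ℝ) < (n : ℝ) ^ (1 - α)), f v +
        ∑ v ∈ T.filter (fun v => (n : ℝ) ^ (1 - α) ≤ nq v ∧
          (nq v : ℝ) < (n : ℝ) ^ (1 - 3 * α / 4)), f v := by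
      rw [← Finset.sum_filter_add_sum_filter_not
        (T.filter (fun v => (nq v : ℝ) < (n : ℝ) ^ (1 - 3 * α / 4)))
        (fun v => (nq v : ℝ) < (n : ℝ) ^ (1 - α))]
      refine add_le_add ?_ ?_
      · refine Finset.sum_le_sum_of_subset_of_nonneg ?_ fun _ _ _ => sq_nonneg _
        intro v hv
        obtain ⟨hv1, hv2⟩ := Finset.mem_filter.1 hv
        exact Finset.mem_filter.2 ⟨(Finset.mem_filter.1 hv1).1, hv2⟩
      · refine Finset.sum_le_sum_of_subset_of_nonneg ?_ fun _ _ _ => sq_nonneg _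
        intro v hv
        obtain ⟨hv1, hv2⟩ := Finset.mem_filter.1 hv
        obtain ⟨hv3, hv4⟩ := Finset.mem_filter.1 hv1
        exact Finset.mem_filter.2 ⟨hv3, not_lt.1 hv2, hv4⟩
    have hcost : 27 * (2 * (d : ℝ)) ≤ 432 * ((4 : ℝ) / 3) ^ i := by
      have h1 : ((4 : ℝ) / 3) ^ i = 1 / α := by
        rw [hα, one_div, ← inv_pow]; norm_num
      rw [h1]
      have h2 : 4 / α = 4 * (1 / α) := by ring
      rw [h2] at hdhi h4α
      linarith
    have ih' := ih (fun j hj => hi j (by omega))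
    have hA2 : 0 ≤ A ^ 2 := sq_nonneg _
    have h5 : 27 * (2 * (d : ℝ)) * A ^ 2 ≤ 432 * ((4 : ℝ) / 3) ^ i * A ^ 2 :=
      mul_le_mul_of_nonneg_right hcost hA2
    have h6 : 1296 * (((4 : ℝ) / 3) ^ (i + 1) - 1) * A ^ 2 =
        1296 * (((4 : ℝ) / 3) ^ i - 1) * A ^ 2 + 432 * ((4 : ℝ) / 3) ^ i * A ^ 2 := by
      rw [pow_succ]; ring
    rw [h6]
    linarith

/-- The autocorrelation of a function on the lattice points of a sphere is bounded by a constant
times `log n` in `ℓ²` on the set of all `v` with greatest common divisor `q`, uniformly in `q`. -/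
theorem log_bound : ∃ C : ℝ, 0 ≤ C ∧ ∀ n : ℕ, 2 ≤ n → ∀ q : ℤ, ∀ S T : Finset V3,
    (∀ x ∈ S, nq x = n) → (∀ v ∈ T, v ≠ 0 ∧ Finset.univ.gcd v = q) →
    ∀ a : V3 → ℝ, (∀ x ∈ S, 0 < a x) → (∀ x, x ∉ S → a x = 0) →
      ∑ v ∈ T, (∑ ξ ∈ S, a (ξ + v) * a ξ) ^ 2 ≤ C * Real.log n * (∑ ξ ∈ S, a ξ ^ 2) ^ 2 := by
  classical
  obtain ⟨M, hM⟩ := exists_nat_gt (4 * (46656 * 144 * 5159780352 ^ 4) : ℝ)
  have hM2 : 4 * (46656 * 144 * 5159780352 ^ 4) < (M : ℝ) ^ 2 := by
    have h1 : (1 : ℝ) ≤ M := by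
      refine le_trans ?_ hM.le
      norm_num
    nlinarith
  set C7 : ℝ := 5 * (2 * (M : ℝ) + 1) ^ 3 + 2 * (2 * (M : ℝ) ^ 2 + 1) ^ 3 with hC7
  have hC70 : 0 ≤ C7 := by positivity
  refine ⟨1296 + C7, by positivity, ?_⟩
  intro n hn q S T hS hT a ha ha0
  set A := ∑ ξ ∈ S, a ξ ^ 2 with hA
  have hA0 : 0 ≤ A := Finset.sum_nonneg fun _ _ => sq_nonneg _
  have hnR : (2 : ℝ) ≤ n := by exact_mod_cast hn
  have hx0 : (0 : ℝ) < n := by linarith
  have hn1 : (1 : ℝ) < n := by linarith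
  have hlog : 0 < Real.log n := Real.log_pos hn1
  set f : V3 → ℝ := fun v => (∑ ξ ∈ S, a (ξ + v) * a ξ) ^ 2 with hf
  have hex : ∃ i : ℕ, (n : ℝ) ^ (((3 : ℝ) / 4) ^ i / 4) ≤ 5159780352 := by
    obtain ⟨i, hi⟩ := exists_pow_lt_of_lt_one (show (0 : ℝ) < 1 / n by positivity)
      (show ((3 : ℝ) / 4) < 1 by norm_num)
    refine ⟨i, ?_⟩
    have h1 : Real.log n ≤ n := (Real.log_le_sub_one_of_pos hx0).trans (by linarith)
    calc (n : ℝ) ^ (((3 : ℝ) / 4) ^ i / 4) = Real.exp (Real.log n * (((3 : ℝ) / 4) ^ i / 4)) :=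
          Real.rpow_def_of_pos hx0 _
      _ ≤ Real.exp 1 := by
          refine Real.exp_le_exp.2 ?_
          have h2 : Real.log n * ((3 : ℝ) / 4) ^ i ≤ n * (1 / n) :=
            mul_le_mul h1 hi.le (by positivity) hx0.le
          rw [mul_one_div_cancel hx0.ne'] at h2
          nlinarith
      _ ≤ 5159780352 := by
          have := Real.exp_one_lt_d9
          linarith
  set I := Nat.find hex with hI
  have hIspec : (n : ℝ) ^ (((3 : ℝ) / 4) ^ I / 4) ≤ 5159780352 := Nat.find_spec hex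
  have hImin : ∀ i < I, 5159780352 < (n : ℝ) ^ (((3 : ℝ) / 4) ^ i / 4) := fun i hi =>
    not_le.1 (Nat.find_min hex hi)
  have hlow := blocks hn1 hS hT a ha ha0 I hImin
  have hI2 : ((4 : ℝ) / 3) ^ I - 1 ≤ Real.log n := by
    rcases Nat.eq_zero_or_pos I with h0 | hpos
    · rw [h0]; simp; exact hlog.le
    · obtain ⟨j, hj⟩ : ∃ j, I = j + 1 := ⟨I - 1, by omega⟩
      have h1 := hImin j (by omega)
      set α : ℝ := ((3 : ℝ) / 4) ^ j with hα
      have hα0 : 0 < α := by positivity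
      have h2 : Real.log 5159780352 < α / 4 * Real.log n := by
        rw [← Real.log_rpow hx0]
        exact Real.log_lt_log (by norm_num) h1
      have h3 : (1 : ℝ) < Real.log 5159780352 := by
        rw [Real.lt_log_iff_exp_lt (by norm_num)]
        have := Real.exp_one_lt_d9
        linarith
      have h4 : ((4 : ℝ) / 3) ^ j = 1 / α := by
        rw [hα, one_div, ← inv_pow]; norm_num
      have h5 : 1 / α ≤ Real.log n / 4 := by
        rw [div_le_div_iff₀ hα0 (by norm_num)]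
        linarith
      rw [hj, pow_succ, h4]
      linarith
  -- the top
  have htopV : ∀ v, ¬ (nq v : ℝ) < (n : ℝ) ^ (1 - ((3 : ℝ) / 4) ^ I) →
      (n : ℝ) / 5159780352 ^ 4 ≤ nq v := by
    intro v hv
    refine le_trans ?_ (not_lt.1 hv)
    have h1 : (n : ℝ) ^ (((3 : ℝ) / 4) ^ I) ≤ 5159780352 ^ 4 := by
      have h2 := pow_le_pow_left₀ (Real.rpow_nonneg hx0.le _) hIspec 4
      rw [← Real.rpow_natCast, ← Real.rpow_mul hx0.le] at h2
      have e : ((3 : ℝ) / 4) ^ I / 4 * ((4 : ℕ) : ℝ) = ((3 : ℝ) / 4) ^ I := by push_cast; ring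
      rwa [e] at h2
    rw [Real.rpow_sub hx0, Real.rpow_one]
    exact div_le_div_of_nonneg_left hx0.le (Real.rpow_pos_of_pos hx0 _) h1
  have htop : ∑ v ∈ T.filter (fun v => ¬ (nq v : ℝ) < (n : ℝ) ^ (1 - ((3 : ℝ) / 4) ^ I)), f v ≤
      C7 * Real.log n * A ^ 2 := by
    refine resi_bound S _ q (C7 * Real.log n) (by positivity) ?_ ?_ a ha ha0
    · intro v hv
      have hv1 := (Finset.mem_filter.1 hv).1
      obtain ⟨_, _, _, _, _, _, h⟩ := gcd_vector (hT v hv1).1 (hT v hv1).2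
      exact h
    · intro v hv Z hZS hZv hZq
      obtain ⟨hv1, hv2⟩ := Finset.mem_filter.1 hv
      exact top_card hM2 hn hS (hT v hv1).1 (hT v hv1).2 (htopV v hv2) hZS hZv hZq
  rw [← Finset.sum_filter_add_sum_filter_not T
    (fun v => (nq v : ℝ) < (n : ℝ) ^ (1 - ((3 : ℝ) / 4) ^ I))]
  have hA2 : 0 ≤ A ^ 2 := sq_nonneg _
  have h7 : 1296 * (((4 : ℝ) / 3) ^ I - 1) * A ^ 2 ≤ 1296 * Real.log n * A ^ 2 := by
    refine mul_le_mul_of_nonneg_right ?_ hA2
    linarith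
  calc _ ≤ 1296 * Real.log n * A ^ 2 + C7 * Real.log n * A ^ 2 := add_le_add (hlow.trans h7) htop
    _ = (1296 + C7) * Real.log n * A ^ 2 := by ring

/-- A refinement: on the set of all `v` with greatest common divisor `q` and `Y |v| ≤ √n` the
bound is a constant times `log n / log (2 + Y)`. -/
theorem log_bound' : ∃ C : ℝ, 0 ≤ C ∧ ∀ n : ℕ, 2 ≤ n → ∀ q : ℤ, ∀ Y : ℝ, 0 ≤ Y →
    ∀ S T : Finset V3, (∀ x ∈ S, nq x = n) →
    (∀ v ∈ T, (v ≠ 0 ∧ Finset.univ.gcd v = q) ∧ Y * Real.sqrt (nq v) ≤ Real.sqrt n) →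
    ∀ a : V3 → ℝ, (∀ x ∈ S, 0 < a x) → (∀ x, x ∉ S → a x = 0) →
      ∑ v ∈ T, (∑ ξ ∈ S, a (ξ + v) * a ξ) ^ 2 ≤
        C * (Real.log n / Real.log (2 + Y)) * (∑ ξ ∈ S, a ξ ^ 2) ^ 2 := by
  classical
  obtain ⟨C, hC0, hC⟩ := log_bound
  set L0 : ℝ := Real.log (2 + 5159780352 ^ 2) with hL0
  have hL00 : 0 < L0 := Real.log_pos (by norm_num)
  refine ⟨C * L0 + 1728, by positivity, ?_⟩
  intro n hn q Y hY S T hS hT a ha ha0
  set A := ∑ ξ ∈ S, a ξ ^ 2 with hA
  have hA2 : 0 ≤ A ^ 2 := sq_nonneg _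
  have hnR : (2 : ℝ) ≤ n := by exact_mod_cast hn
  have hx0 : (0 : ℝ) < n := by linarith
  have hn1 : (1 : ℝ) < n := by linarith
  have hlog : 0 < Real.log n := Real.log_pos hn1
  have hLY : 0 < Real.log (2 + Y) := Real.log_pos (by linarith)
  by_cases hYs : Y ≤ 5159780352 ^ 2
  · have h1 := hC n hn q S T hS (fun v hv => (hT v hv).1) a ha ha0
    refine h1.trans (mul_le_mul_of_nonneg_right ?_ hA2)
    have h2 : Real.log (2 + Y) ≤ L0 := Real.log_le_log (by linarith) (by linarith)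
    have h3 : C * Real.log n ≤ C * L0 * (Real.log n / Real.log (2 + Y)) := by
      rw [mul_assoc]
      refine mul_le_mul_of_nonneg_left ?_ hC0
      rw [← mul_div_assoc, le_div_iff₀ hLY]
      nlinarith
    have h4 : 0 ≤ 1728 * (Real.log n / Real.log (2 + Y)) := by positivity
    linarith
  · push Not at hYs
    have hY1 : 1 < Y := lt_trans (by norm_num) hYs
    have hlY : 0 < Real.log Y := Real.log_pos hY1
    have hc0 : Real.log 5159780352 * 2 < Real.log Y := by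
      have h1 : Real.log (5159780352 ^ 2) < Real.log Y := Real.log_lt_log (by norm_num) hYs
      rw [Real.log_pow] at h1
      push_cast at h1
      linarith
    have hex : ∃ i : ℕ, ((3 : ℝ) / 4) ^ i * Real.log n < 2 * Real.log Y := by
      obtain ⟨i, hi⟩ := exists_pow_lt_of_lt_one
        (show (0 : ℝ) < 2 * Real.log Y / Real.log n by positivity)
        (show ((3 : ℝ) / 4) < 1 by norm_num)
      refine ⟨i, ?_⟩
      rwa [lt_div_iff₀ hlog] at hi
    set i := Nat.find hex with hi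
    have hispec : ((3 : ℝ) / 4) ^ i * Real.log n < 2 * Real.log Y := Nat.find_spec hex
    have himin : ∀ j < i, 2 * Real.log Y ≤ ((3 : ℝ) / 4) ^ j * Real.log n := fun j hj =>
      not_lt.1 (Nat.find_min hex hj)
    have hb := blocks hn1 hS (fun v hv => (hT v hv).1) a ha ha0 i (by
      intro j hj
      have h1 := himin j hj
      rw [Real.rpow_def_of_pos hx0]
      calc (5159780352 : ℝ) = Real.exp (Real.log 5159780352) := (Real.exp_log (by norm_num)).symm
        _ < Real.exp (Real.log n * (((3 : ℝ) / 4) ^ j / 4)) := by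
            refine Real.exp_lt_exp.2 ?_
            linarith)
    have hfil : T.filter (fun v => (nq v : ℝ) < (n : ℝ) ^ (1 - ((3 : ℝ) / 4) ^ i)) = T := by
      rw [Finset.filter_eq_self]
      intro v hv
      have hV0 : (0 : ℝ) ≤ nq v := by exact_mod_cast nq_nonneg v
      have h1 := pow_le_pow_left₀ (mul_nonneg hY (Real.sqrt_nonneg _)) (hT v hv).2 2
      rw [mul_pow, Real.sq_sqrt hV0, Real.sq_sqrt hx0.le] at h1
      have h2 : (n : ℝ) ^ (((3 : ℝ) / 4) ^ i) < Y ^ 2 := by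
        rw [Real.rpow_def_of_pos hx0]
        calc Real.exp (Real.log n * ((3 : ℝ) / 4) ^ i) < Real.exp (2 * Real.log Y) := by
              refine Real.exp_lt_exp.2 ?_
              linarith
          _ = Y ^ 2 := by
              rw [← Real.log_rpow (by linarith), Real.exp_log (by positivity)]
              norm_num
      rw [Real.rpow_sub hx0, Real.rpow_one]
      have h3 : 0 < (n : ℝ) ^ (((3 : ℝ) / 4) ^ i) := Real.rpow_pos_of_pos hx0 _
      rw [lt_div_iff₀ h3]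
      have hVpos : (0 : ℝ) < nq v := by exact_mod_cast nq_pos (hT v hv).1.1
      calc (nq v : ℝ) * (n : ℝ) ^ (((3 : ℝ) / 4) ^ i) < nq v * Y ^ 2 :=
            mul_lt_mul_of_pos_left h2 hVpos
        _ ≤ n := by linarith
    rw [hfil] at hb
    refine hb.trans (mul_le_mul_of_nonneg_right ?_ hA2)
    have hLY2 : Real.log (2 + Y) ≤ 2 * Real.log Y := by
      have h1 : Real.log (2 + Y) ≤ Real.log (Y ^ 2) := by
        refine Real.log_le_log (by linarith) ?_
        nlinarith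
      rw [Real.log_pow] at h1
      exact_mod_cast h1
    have h5 : 1296 * (((4 : ℝ) / 3) ^ i - 1) ≤ 1728 * (Real.log n / Real.log (2 + Y)) := by
      rcases Nat.eq_zero_or_pos i with h0 | hpos
      · rw [h0]; simp; positivity
      · obtain ⟨j, hj⟩ : ∃ j, i = j + 1 := ⟨i - 1, by omega⟩
        have h1 := himin j (by omega)
        set α : ℝ := ((3 : ℝ) / 4) ^ j with hα
        have hα0 : 0 < α := by positivity
        have h4 : ((4 : ℝ) / 3) ^ j = 1 / α := by
          rw [hα, one_div, ← inv_pow]; norm_num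
        have h6 : 1 / α ≤ Real.log n / Real.log (2 + Y) := by
          rw [div_le_div_iff₀ hα0 hLY]
          linarith
        rw [hj, pow_succ, h4]
        linarith
    have h7 : 0 ≤ C * L0 * (Real.log n / Real.log (2 + Y)) := by positivity
    linarith

end Pool.Agent.Lib_helper43.Tori
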