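import Pool.Agent.Lib_helper43.Tori.Cluster
import Pool.Agent.Lib_helper43.Tori.Circle

set_option autoImplicit false

/-!
# The two autocorrelation bounds combined
-/

namespace Pool.Agent.Lib_helper43.Tori

open Classical in
/-- If every nonzero difference occurs at most `K` times, the autocorrelation is bounded in `ℓ²`. -/
lemma crude_bound (S T : Finset V3) (K : ℝ) (hK : 0 ≤ K)
    (hS : ∀ v ∈ T, ((S.filter fun ξ => ξ + v ∈ S).card : ℝ) ≤ K)
    (a : V3 → ℝ) (ha0 : ∀ x, x ∉ S → a x = 0) :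
    ∑ v ∈ T, (∑ ξ ∈ S, a (ξ + v) * a ξ) ^ 2 ≤ K * (∑ ξ ∈ S, a ξ ^ 2) ^ 2 := by
  calc ∑ v ∈ T, (∑ ξ ∈ S, a (ξ + v) * a ξ) ^ 2
      ≤ ∑ v ∈ T, K * ∑ ξ ∈ S, (if ξ + v ∈ S then a (ξ + v) ^ 2 else 0) * a ξ ^ 2 := by
        refine Finset.sum_le_sum fun v hv => ?_
        have h0 : ∑ ξ ∈ S, a (ξ + v) * a ξ = ∑ ξ ∈ S.filter (fun ξ => ξ + v ∈ S),
            a (ξ + v) * a ξ := by
          rw [Finset.sum_filter]
          refine Finset.sum_congr rfl fun ξ _ => ?_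
          split_ifs with h
          · rfl
          · rw [ha0 _ h, zero_mul]
        rw [h0]
        have h1 := @sq_sum_le_card_mul_sum_sq _ ℝ _ _ _ _
          (S.filter (fun ξ => ξ + v ∈ S)) (fun ξ => a (ξ + v) * a ξ)
        refine h1.trans ?_
        refine (mul_le_mul_of_nonneg_right (hS v hv)
          (Finset.sum_nonneg fun _ _ => sq_nonneg _)).trans (le_of_eq ?_)
        rw [Finset.sum_filter]
        congr 1
        refine Finset.sum_congr rfl fun ξ _ => ?_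
        split_ifs
        · ring
        · ring
    _ = K * ∑ ξ ∈ S, a ξ ^ 2 * ∑ v ∈ T, (if ξ + v ∈ S then a (ξ + v) ^ 2 else 0) := by
        rw [← Finset.mul_sum, Finset.sum_comm]
        congr 1
        refine Finset.sum_congr rfl fun ξ _ => ?_
        rw [Finset.mul_sum]
        refine Finset.sum_congr rfl fun v _ => ?_
        ring
    _ ≤ K * ∑ ξ ∈ S, a ξ ^ 2 * ∑ η ∈ S, a η ^ 2 := by
        refine mul_le_mul_of_nonneg_left (Finset.sum_le_sum fun ξ _ => ?_) hK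
        refine mul_le_mul_of_nonneg_left ?_ (sq_nonneg _)
        have h1 : ∑ v ∈ T, (if ξ + v ∈ S then a (ξ + v) ^ 2 else 0) =
            ∑ x ∈ T.image (fun v => ξ + v), (if x ∈ S then a x ^ 2 else 0) := by
          rw [Finset.sum_image (fun x _ y _ h => by simpa using h)]
        rw [h1, ← Finset.sum_filter]
        refine Finset.sum_le_sum_of_subset_of_nonneg ?_ fun _ _ _ => sq_nonneg _
        intro x hx
        exact (Finset.mem_filter.1 hx).2
    _ = K * (∑ ξ ∈ S, a ξ ^ 2) ^ 2 := by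
        rw [← Finset.sum_mul]; ring

/-- The autocorrelation of a nonnegative function on the lattice points of a sphere is bounded in
the weighted space `ℓ²((1 + |v|²)^(-s))`, uniformly in the sphere. -/
theorem weighted_bound (s : ℝ) (hs : 0 < s) :
    ∃ C : ℝ, ∀ n : ℕ, ∀ S : Finset V3, (∀ x ∈ S, nq x = n) → ∀ a : V3 → ℝ, (∀ x, 0 ≤ a x) →
      (∀ x, x ∉ S → a x = 0) → ∀ T : Finset V3,
      ∑ v ∈ T, (1 + (nq v : ℝ)) ^ (-s) * (∑ ξ ∈ S, a (ξ + v) * a ξ) ^ 2 ≤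
        C * (∑ ξ ∈ S, a ξ ^ 2) ^ 2 := by
  classical
  obtain ⟨L, hL⟩ := exists_nat_gt (24 / s)
  have hL0 : 0 < L := by
    have : (0 : ℝ) < L := lt_trans (by positivity) hL
    exact_mod_cast this
  have hLr : (0 : ℝ) < L := by exact_mod_cast hL0
  obtain ⟨C, hC1, hC⟩ := circle_bound L hL0
  have hexp : (6 : ℝ) / L ≤ s / 4 := by
    rw [div_lt_iff₀ hs] at hL
    rw [div_le_div_iff₀ hLr (by norm_num)]
    linarith
  refine ⟨3 + (17 : ℝ) ^ (s / 4) * C, ?_⟩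
  intro n S hS a ha ha0 T
  set A := ∑ ξ ∈ S, a ξ ^ 2 with hA
  have hA0 : 0 ≤ A := Finset.sum_nonneg fun _ _ => sq_nonneg _
  set g : V3 → ℝ := fun v => ∑ ξ ∈ S, a (ξ + v) * a ξ with hg
  have hw0 : ∀ v : V3, 0 < 1 + (nq v : ℝ) := by
    intro v
    have : (0 : ℝ) ≤ nq v := by exact_mod_cast nq_nonneg v
    linarith
  have hw1 : ∀ v : V3, (1 + (nq v : ℝ)) ^ (-s) ≤ 1 := by
    intro v
    have : (0 : ℝ) ≤ nq v := by exact_mod_cast nq_nonneg v
    exact Real.rpow_le_one_of_one_le_of_nonpos (by linarith) (by linarith)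
  have hwnn : ∀ v : V3, 0 ≤ (1 + (nq v : ℝ)) ^ (-s) := fun v => Real.rpow_nonneg (hw0 v).le _
  have hg0 : g 0 = A := by
    simp only [hg, hA, add_zero]
    exact Finset.sum_congr rfl fun ξ _ => by ring
  -- the radius
  set r : ℝ := ((n : ℝ) / 17) ^ ((1 : ℝ) / 8) with hr
  have hn0 : (0 : ℝ) ≤ (n : ℝ) / 17 := by positivity
  have hr0 : 0 ≤ r := Real.rpow_nonneg hn0 _
  have hr8 : r ^ 8 = (n : ℝ) / 17 := by
    rw [hr, ← Real.rpow_natCast, ← Real.rpow_mul hn0]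
    norm_num
  -- split
  set T1 := T.filter (fun v => v ≠ 0 ∧ (nq v : ℝ) ≤ r ^ 2) with hT1
  set T2 := T.filter (fun v => v ≠ 0 ∧ ¬ (nq v : ℝ) ≤ r ^ 2) with hT2
  have hsplit : ∑ v ∈ T, (1 + (nq v : ℝ)) ^ (-s) * g v ^ 2 ≤
      g 0 ^ 2 + ∑ v ∈ T1, g v ^ 2 + ∑ v ∈ T2, (1 + (nq v : ℝ)) ^ (-s) * g v ^ 2 := by
    have h1 : ∑ v ∈ T, (1 + (nq v : ℝ)) ^ (-s) * g v ^ 2 =
        ∑ v ∈ T, ((if v = 0 then (1 + (nq v : ℝ)) ^ (-s) * g v ^ 2 else 0) +
          (if v ≠ 0 ∧ (nq v : ℝ) ≤ r ^ 2 then (1 + (nq v : ℝ)) ^ (-s) * g v ^ 2 else 0) +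
          (if v ≠ 0 ∧ ¬ (nq v : ℝ) ≤ r ^ 2 then (1 + (nq v : ℝ)) ^ (-s) * g v ^ 2 else 0)) := by
      refine Finset.sum_congr rfl fun v _ => ?_
      by_cases h0 : v = 0
      · simp [h0]
      · by_cases h2 : (nq v : ℝ) ≤ r ^ 2
        · simp [h0, h2]
        · simp [h0, h2]
    rw [h1, Finset.sum_add_distrib, Finset.sum_add_distrib, ← Finset.sum_filter,
      ← Finset.sum_filter, ← Finset.sum_filter]
    refine add_le_add (add_le_add ?_ ?_) le_rfl
    · calc ∑ v ∈ T.filter (fun v => v = 0), (1 + (nq v : ℝ)) ^ (-s) * g v ^ 2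
          ≤ ∑ v ∈ {(0 : V3)}, (1 + (nq v : ℝ)) ^ (-s) * g v ^ 2 := by
            refine Finset.sum_le_sum_of_subset_of_nonneg ?_ fun v _ _ =>
              mul_nonneg (hwnn v) (sq_nonneg _)
            intro v hv
            simpa using (Finset.mem_filter.1 hv).2
        _ = (1 + (nq (0 : V3) : ℝ)) ^ (-s) * g 0 ^ 2 := by rw [Finset.sum_singleton]
        _ ≤ 1 * g 0 ^ 2 := mul_le_mul_of_nonneg_right (hw1 0) (sq_nonneg _)
        _ = g 0 ^ 2 := one_mul _
    · refine Finset.sum_le_sum fun v _ => ?_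
      calc (1 + (nq v : ℝ)) ^ (-s) * g v ^ 2 ≤ 1 * g v ^ 2 :=
            mul_le_mul_of_nonneg_right (hw1 v) (sq_nonneg _)
        _ = g v ^ 2 := one_mul _
  rcases Nat.eq_zero_or_pos n with hn | hn
  · -- trivial sphere
    subst hn
    have hS0 : ∀ x ∈ S, x = 0 := fun x hx => nq_eq_zero (by simpa using hS x hx)
    have hgv : ∀ v : V3, v ≠ 0 → g v = 0 := by
      intro v hv
      simp only [hg]
      refine Finset.sum_eq_zero fun ξ hξ => ?_
      have h0 := hS0 ξ hξ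
      have : ξ + v ∉ S := by
        intro hmem
        have := hS0 _ hmem
        rw [h0, zero_add] at this
        exact hv this
      rw [ha0 _ this, zero_mul]
    have z1 : ∑ v ∈ T1, g v ^ 2 = 0 := by
      refine Finset.sum_eq_zero fun v hv => ?_
      rw [hgv v (Finset.mem_filter.1 hv).2.1]; ring
    have z2 : ∑ v ∈ T2, (1 + (nq v : ℝ)) ^ (-s) * g v ^ 2 = 0 := by
      refine Finset.sum_eq_zero fun v hv => ?_
      rw [hgv v (Finset.mem_filter.1 hv).2.1]; ring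
    rw [z1, z2, hg0] at hsplit
    have : 0 ≤ (17 : ℝ) ^ (s / 4) * C := by positivity
    calc _ ≤ _ := hsplit
      _ ≤ (3 + (17 : ℝ) ^ (s / 4) * C) * A ^ 2 := by nlinarith [sq_nonneg A]
  · have hn1 : (1 : ℝ) ≤ (n : ℝ) := by exact_mod_cast hn
    have low : ∑ v ∈ T1, g v ^ 2 ≤ 2 * A ^ 2 := by
      refine autocorrelation_bound (n := (n : ℤ)) hS hr0 ?_ a ha ha0 T1 fun v hv => ?_
      · rw [hr8]
        push_cast
        linarith
      · exact (Finset.mem_filter.1 hv).2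
    have high : ∑ v ∈ T2, (1 + (nq v : ℝ)) ^ (-s) * g v ^ 2 ≤ (17 : ℝ) ^ (s / 4) * C * A ^ 2 := by
      have hnpos : (0 : ℝ) < (n : ℝ) / 17 := by positivity
      have hweight : ∀ v ∈ T2, (1 + (nq v : ℝ)) ^ (-s) ≤ (17 : ℝ) ^ (s / 4) * (n : ℝ) ^ (-(s / 4)) := by
        intro v hv
        have h1 := (Finset.mem_filter.1 hv).2.2
        push Not at h1
        have hr2 : r ^ 2 = ((n : ℝ) / 17) ^ ((1 : ℝ) / 4) := by
          rw [hr, ← Real.rpow_natCast, ← Real.rpow_mul hn0]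
          norm_num
        have h2 : ((n : ℝ) / 17) ^ ((1 : ℝ) / 4) ≤ 1 + (nq v : ℝ) := by
          rw [← hr2]; linarith
        calc (1 + (nq v : ℝ)) ^ (-s) ≤ (((n : ℝ) / 17) ^ ((1 : ℝ) / 4)) ^ (-s) :=
              Real.rpow_le_rpow_of_nonpos (by positivity) h2 (by linarith)
          _ = ((n : ℝ) / 17) ^ (-(s / 4)) := by
              rw [← Real.rpow_mul hn0]; congr 1; ring
          _ = (n : ℝ) ^ (-(s / 4)) / (17 : ℝ) ^ (-(s / 4)) :=
              Real.div_rpow (by positivity) (by norm_num) _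
          _ = (17 : ℝ) ^ (s / 4) * (n : ℝ) ^ (-(s / 4)) := by
              rw [Real.rpow_neg (by norm_num : (0 : ℝ) ≤ 17) (s / 4), div_inv_eq_mul]
              ring
      have hcr := crude_bound S T2 (C * (n : ℝ) ^ ((6 : ℝ) / L)) (by positivity) (by
        intro v hv
        have hv0 := (Finset.mem_filter.1 hv).2.1
        have := hC (n : ℤ) (by exact_mod_cast hn) v hv0 (S.filter fun ξ => ξ + v ∈ S) (by
          intro ξ hξ
          obtain ⟨h1, h2⟩ := Finset.mem_filter.1 hξ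
          exact ⟨hS ξ h1, hS _ h2⟩)
        simpa using this) a ha0
      calc ∑ v ∈ T2, (1 + (nq v : ℝ)) ^ (-s) * g v ^ 2
          ≤ ∑ v ∈ T2, ((17 : ℝ) ^ (s / 4) * (n : ℝ) ^ (-(s / 4))) * g v ^ 2 :=
            Finset.sum_le_sum fun v hv => mul_le_mul_of_nonneg_right (hweight v hv) (sq_nonneg _)
        _ = ((17 : ℝ) ^ (s / 4) * (n : ℝ) ^ (-(s / 4))) * ∑ v ∈ T2, g v ^ 2 := by
            rw [Finset.mul_sum]
        _ ≤ ((17 : ℝ) ^ (s / 4) * (n : ℝ) ^ (-(s / 4))) * (C * (n : ℝ) ^ ((6 : ℝ) / L) * A ^ 2) := by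
            gcongr
        _ = (17 : ℝ) ^ (s / 4) * C * A ^ 2 * ((n : ℝ) ^ (-(s / 4)) * (n : ℝ) ^ ((6 : ℝ) / L)) := by
            ring
        _ ≤ (17 : ℝ) ^ (s / 4) * C * A ^ 2 * 1 := by
            refine mul_le_mul_of_nonneg_left ?_ (by positivity)
            rw [← Real.rpow_add (by positivity)]
            exact Real.rpow_le_one_of_one_le_of_nonpos hn1 (by linarith)
        _ = _ := by ring
    rw [hg0] at hsplit
    calc _ ≤ _ := hsplit
      _ ≤ A ^ 2 + 2 * A ^ 2 + (17 : ℝ) ^ (s / 4) * C * A ^ 2 := by linarith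
      _ = (3 + (17 : ℝ) ^ (s / 4) * C) * A ^ 2 := by ring

end Pool.Agent.Lib_helper43.Tori
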