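import Pool.Agent.Lib_helper43.Tori.Cubes
import Pool.Agent.Lib_helper43.Tori.Sum

set_option autoImplicit false

/-!
# The autocorrelation bound at all frequencies that are not too imprimitive
-/

namespace Pool.Agent.Lib_helper43.Tori

/-- Every nonzero integer vector is a multiple of a primitive one. -/
lemma exists_primitive {v : V3} (hv : v ≠ 0) :
    ∃ (t : ℤ) (w u : V3), 0 < t ∧ v = t • w ∧ dt u w = 1 ∧ t ≤ Finset.univ.gcd v := by
  obtain ⟨g, hg⟩ := (inferInstance : (Ideal.span {v 0, v 1, v 2} : Ideal ℤ).IsPrincipal)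
  have hmem : g ∈ (Ideal.span {v 0, v 1, v 2} : Ideal ℤ) := by
    rw [hg]; exact Submodule.mem_span_singleton_self g
  obtain ⟨a, b, c, habc⟩ := Submodule.mem_span_triple.1 hmem
  simp only [smul_eq_mul] at habc
  have hdvd : ∀ i, g ∣ v i := by
    intro i
    have : v i ∈ (Ideal.span {v 0, v 1, v 2} : Ideal ℤ) := by
      fin_cases i <;> exact Ideal.subset_span (by simp)
    rw [hg] at this
    exact Ideal.mem_span_singleton.1 this
  have hg0 : g ≠ 0 := by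
    rintro rfl
    apply hv
    ext i
    simpa using hdvd i
  have habs : ∀ i, |g| ∣ v i := fun i => (abs_dvd _ _).2 (hdvd i)
  choose w hw using habs
  have hpos : 0 < |g| := abs_pos.2 hg0
  have hgcd : |g| ∣ Finset.univ.gcd v := Finset.dvd_gcd fun i _ => Dvd.intro _ (hw i).symm
  have hgcd0 : Finset.univ.gcd v ≠ 0 := by
    intro h
    rw [Finset.gcd_eq_zero_iff] at h
    exact hv (funext fun i => h i (Finset.mem_univ i))
  have hgcdnn : 0 ≤ Finset.univ.gcd v := Int.nonneg_of_normalize_eq_self Finset.normalize_gcd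
  refine ⟨|g|, w, fun i => Int.sign g * ![a, b, c] i, hpos, ?_, ?_, ?_⟩
  · ext i
    simpa using hw i
  · have h1 : |g| * (dt (fun i => Int.sign g * ![a, b, c] i) w) = |g| := by
      have e0 := hw 0
      have e1 := hw 1
      have e2 := hw 2
      have e3 : Int.sign g * g = |g| := Int.sign_mul_self_eq_abs g
      simp only [dt, Matrix.cons_val_zero, Matrix.cons_val_one, Matrix.cons_val]
      calc |g| * (Int.sign g * a * w 0 + Int.sign g * b * w 1 + Int.sign g * c * w 2)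
          = Int.sign g * (a * (|g| * w 0) + b * (|g| * w 1) + c * (|g| * w 2)) := by ring
        _ = Int.sign g * g := by rw [← e0, ← e1, ← e2, habc]
        _ = |g| := e3
    exact mul_left_cancel₀ hpos.ne' (h1.trans (mul_one _).symm)
  · exact Int.le_of_dvd (lt_of_le_of_ne hgcdnn hgcd0.symm) hgcd

/-- The arithmetic of the exponents. -/
lemma exponents {ε : ℝ} (hε : 0 < ε) {d : ℕ} (hd : 2 / ε ≤ d) {κ x D V lam R : ℝ} (hκ : 0 < κ)
    (hx1 : 1 < x) (hx : κ * 48 ^ (2 * d ^ 2 + d) < x) (hV : 0 < V) (hVx : V ≤ x)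
    (hD : V ^ 2 * x ^ (2 * ε) ≤ D * x) (hlam : lam = x ^ (ε / 6)) (hR0 : 0 ≤ R)
    (hR : 4 * R ≤ 48 * (lam ^ 2 * V)) :
    κ * (4 * R) ^ (2 * d ^ 2 + d) < (D * x) ^ (d ^ 2) := by
  have hx0 : 0 < x := by linarith
  have hlam0 : 0 < lam := by rw [hlam]; exact Real.rpow_pos_of_pos hx0 _
  have hdR : (2 : ℝ) ≤ ε * d := by
    rw [div_le_iff₀ hε] at hd
    linarith
  have hd0 : (0 : ℝ) ≤ d := Nat.cast_nonneg _
  have hd1 : (1 : ℝ) ≤ d := by
    have : 0 < d := by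
      rcases Nat.eq_zero_or_pos d with h | h
      · rw [h] at hdR; norm_num at hdR
      · exact h
    exact_mod_cast this
  -- the power of lam
  have h1 : (lam ^ 2) ^ (2 * d ^ 2 + d) ≤ x ^ (ε * d ^ 2) := by
    rw [hlam, ← pow_mul, ← Real.rpow_natCast, ← Real.rpow_mul hx0.le]
    refine Real.rpow_le_rpow_of_exponent_le hx1.le ?_
    push_cast
    nlinarith [mul_nonneg hε.le (mul_nonneg hd0 (sub_nonneg.2 hd1))]
  have h2 : V ^ (2 * d ^ 2 + d) ≤ V ^ (2 * d ^ 2) * x ^ d := by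
    rw [pow_add]
    exact mul_le_mul_of_nonneg_left (pow_le_pow_left₀ hV.le hVx _) (by positivity)
  have h3 : x ^ (ε * d ^ 2) * x ^ d * x ≤ (x ^ (2 * ε)) ^ (d ^ 2) := by
    have e1 : (x ^ (2 * ε)) ^ (d ^ 2) = x ^ (2 * ε * d ^ 2) := by
      rw [← Real.rpow_natCast, ← Real.rpow_mul hx0.le]
      push_cast
      rfl
    have e2 : x ^ (ε * d ^ 2) * x ^ d * x = x ^ (ε * d ^ 2 + d + 1) := by
      rw [Real.rpow_add hx0, Real.rpow_add hx0, Real.rpow_natCast, Real.rpow_one]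
    rw [e1, e2]
    refine Real.rpow_le_rpow_of_exponent_le hx1.le ?_
    nlinarith
  calc κ * (4 * R) ^ (2 * d ^ 2 + d) ≤ κ * (48 * (lam ^ 2 * V)) ^ (2 * d ^ 2 + d) := by
        refine mul_le_mul_of_nonneg_left (pow_le_pow_left₀ (by positivity) hR _) hκ.le
    _ = κ * 48 ^ (2 * d ^ 2 + d) * ((lam ^ 2) ^ (2 * d ^ 2 + d) * V ^ (2 * d ^ 2 + d)) := by
        rw [mul_pow, mul_pow]; ring
    _ ≤ κ * 48 ^ (2 * d ^ 2 + d) * (x ^ (ε * d ^ 2) * (V ^ (2 * d ^ 2) * x ^ d)) := by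
        refine mul_le_mul_of_nonneg_left ?_ (by positivity)
        exact mul_le_mul h1 h2 (by positivity) (by positivity)
    _ < x * (x ^ (ε * d ^ 2) * (V ^ (2 * d ^ 2) * x ^ d)) := by
        refine mul_lt_mul_of_pos_right hx ?_
        have := Real.rpow_pos_of_pos hx0 (ε * d ^ 2)
        positivity
    _ = V ^ (2 * d ^ 2) * (x ^ (ε * d ^ 2) * x ^ d * x) := by ring
    _ ≤ V ^ (2 * d ^ 2) * (x ^ (2 * ε)) ^ (d ^ 2) := by
        refine mul_le_mul_of_nonneg_left h3 (by positivity)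
    _ = (V ^ 2 * x ^ (2 * ε)) ^ (d ^ 2) := by rw [mul_pow, ← pow_mul]
    _ ≤ (D * x) ^ (d ^ 2) := by
        refine pow_le_pow_left₀ ?_ hD _
        have := Real.rpow_pos_of_pos hx0 (2 * ε)
        positivity

lemma sq_le_nq (v : V3) (i : Fin 3) : v i ^ 2 ≤ nq v := by
  unfold nq
  fin_cases i
  · simp only [Fin.zero_eta]; nlinarith [sq_nonneg (v 1), sq_nonneg (v 2)]
  · simp only [Fin.mk_one]; nlinarith [sq_nonneg (v 0), sq_nonneg (v 2)]
  · simp only [Fin.reduceFinMk]; nlinarith [sq_nonneg (v 0), sq_nonneg (v 1)]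

/-- The autocorrelation bound at a single scale. -/
lemma scale_bound {ε : ℝ} (hε : 0 < ε) {d : ℕ} (hd0 : 0 < d) (hd : 2 / ε ≤ d) {n : ℕ}
    (hn1 : 1 < (n : ℝ))
    (hn : kap d * 2 ^ (3 * (d ^ 2 + d)) * 48 ^ (2 * d ^ 2 + d) < (n : ℝ)) (S V : Finset V3)
    (hS : ∀ x ∈ S, nq x = n) {q : ℤ} (hq : 0 < q) {L lam : ℝ} (hL : 1 ≤ L)
    (hlam : lam = (n : ℝ) ^ (ε / 6))
    (hV : ∀ v ∈ V, v ≠ 0 ∧ L ≤ Real.sqrt (nq v) ∧ Real.sqrt (nq v) < L * lam ∧ (∀ i, q ∣ v i) ∧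
      ((Finset.univ.gcd v : ℤ) : ℝ) * Real.sqrt (nq v) ≤ q * (n : ℝ) ^ (1 / 2 - ε))
    (a : V3 → ℝ) (ha : ∀ x ∈ S, 0 < a x) (ha0 : ∀ x, x ∉ S → a x = 0) :
    ∑ v ∈ V, (∑ ξ ∈ S, a (ξ + v) * a ξ) ^ 2 ≤ 27 * (2 * d) * (∑ ξ ∈ S, a ξ ^ 2) ^ 2 := by
  have hx0 : (0 : ℝ) < n := by linarith
  have hqR : (1 : ℝ) ≤ q := by exact_mod_cast hq
  have hlam1 : 1 ≤ lam := by
    rw [hlam]; exact Real.one_le_rpow hn1.le (by positivity)
  have hLl : 1 ≤ L * lam := by nlinarith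
  set K : ℤ := ⌈L * lam⌉ with hKdef
  have hKlo : L * lam ≤ K := Int.le_ceil _
  have hKhi : (K : ℝ) < L * lam + 1 := Int.ceil_lt_add_one _
  have hK : 0 < K := by
    have : (0 : ℝ) < K := by linarith
    exact_mod_cast this
  have hKR : (0 : ℝ) < K := by exact_mod_cast hK
  refine cube_bound S V K hK q (2 * d) (by positivity) ?_ (fun v hv => (hV v hv).2.2.2.1) ?_ a ha ha0
  · intro v hv i
    obtain ⟨-, -, h2, -, -⟩ := hV v hv
    have h3 : Real.sqrt (nq v) < K := lt_of_lt_of_le h2 hKlo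
    have h4 : (nq v : ℝ) < (K : ℝ) ^ 2 := by
      rw [Real.sqrt_lt' hKR] at h3
      exact h3
    have h5 : nq v < K ^ 2 := by exact_mod_cast h4
    exact (abs_lt_of_sq_lt_sq (lt_of_le_of_lt (sq_le_nq v i) h5) hK.le).le
  · intro v hv Z hZS hZv hZK
    obtain ⟨hv0, h1, h2, hqv, h3⟩ := hV v hv
    obtain ⟨t, w, u, ht, hvw, hu, htg⟩ := exists_primitive hv0
    have hqt : q ≤ t := by
      refine Int.le_of_dvd ht ?_
      have h0 : t = u 0 * v 0 + u 1 * v 1 + u 2 * v 2 := by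
        have h0' : u 0 * v 0 + u 1 * v 1 + u 2 * v 2 = t * dt u w := by
          rw [hvw]; simp only [dt, Pi.smul_apply, smul_eq_mul]; ring
        rw [h0', hu, mul_one]
      rw [h0]
      exact dvd_add (dvd_add ((hqv 0).mul_left _) ((hqv 1).mul_left _)) ((hqv 2).mul_left _)
    have hqtR : (q : ℝ) ≤ t := by exact_mod_cast hqt
    have hVpos : 0 < nq v := nq_pos hv0
    have hVR : (0 : ℝ) < nq v := by exact_mod_cast hVpos
    have hDV : nq v = t ^ 2 * nq w := by rw [hvw, nq_smul]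
    have hDVR : (nq v : ℝ) = (t : ℝ) ^ 2 * nq w := by exact_mod_cast hDV
    have hD0 : (0 : ℝ) ≤ nq w := by exact_mod_cast nq_nonneg w
    have htR : (1 : ℝ) ≤ t := by exact_mod_cast ht
    have h4 : (t : ℝ) * Real.sqrt (nq v) ≤ q * (n : ℝ) ^ (1 / 2 - ε) := by
      refine le_trans (mul_le_mul_of_nonneg_right ?_ (Real.sqrt_nonneg _)) h3
      exact_mod_cast htg
    have h5 : (t : ℝ) ^ 2 * nq v ≤ (q : ℝ) ^ 2 * (n : ℝ) ^ (1 - 2 * ε) := by
      have h6 := pow_le_pow_left₀ (mul_nonneg (by linarith) (Real.sqrt_nonneg _)) h4 2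
      rw [mul_pow, mul_pow, Real.sq_sqrt hVR.le, ← Real.rpow_natCast ((n : ℝ) ^ (1 / 2 - ε)),
        ← Real.rpow_mul hx0.le] at h6
      have e : (1 / 2 - ε) * ((2 : ℕ) : ℝ) = 1 - 2 * ε := by push_cast; ring
      rwa [e] at h6
    have h6 : (nq v : ℝ) ≤ n := by
      have h7 : (n : ℝ) ^ (1 - 2 * ε) ≤ (n : ℝ) ^ (1 : ℝ) :=
        Real.rpow_le_rpow_of_exponent_le hn1.le (by linarith)
      rw [Real.rpow_one] at h7
      have h8 : (q : ℝ) ^ 2 * nq v ≤ (q : ℝ) ^ 2 * (n : ℝ) ^ (1 - 2 * ε) :=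
        (mul_le_mul_of_nonneg_right (pow_le_pow_left₀ (by linarith) hqtR 2) hVR.le).trans h5
      exact (le_of_mul_le_mul_left h8 (by positivity)).trans h7
    have hD : (nq v : ℝ) ^ 2 * (n : ℝ) ^ (2 * ε) ≤ (nq w * (q : ℝ) ^ 2) * n := by
      have h7 : (n : ℝ) ^ (1 - 2 * ε) * (n : ℝ) ^ (2 * ε) = n := by
        rw [← Real.rpow_add hx0]
        norm_num
      have h8 := Real.rpow_pos_of_pos hx0 (2 * ε)
      calc (nq v : ℝ) ^ 2 * (n : ℝ) ^ (2 * ε)
          = nq w * ((t : ℝ) ^ 2 * nq v) * (n : ℝ) ^ (2 * ε) := by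
            have : (nq v : ℝ) ^ 2 = nq w * ((t : ℝ) ^ 2 * nq v) := by
              rw [sq]; nth_rewrite 1 [hDVR]; ring
            rw [this]
        _ ≤ nq w * ((q : ℝ) ^ 2 * (n : ℝ) ^ (1 - 2 * ε)) * (n : ℝ) ^ (2 * ε) := by
            refine mul_le_mul_of_nonneg_right (mul_le_mul_of_nonneg_left h5 hD0) h8.le
        _ = nq w * (q : ℝ) ^ 2 * ((n : ℝ) ^ (1 - 2 * ε) * (n : ℝ) ^ (2 * ε)) := by ring
        _ = (nq w * (q : ℝ) ^ 2) * n := by rw [h7]
    have hL2 : L ^ 2 ≤ nq v := by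
      have := pow_le_pow_left₀ (by linarith) h1 2
      rwa [Real.sq_sqrt hVR.le] at this
    have hR : 4 * (3 * (K : ℝ) ^ 2) ≤ 48 * (lam ^ 2 * nq v) := by
      have h7 : (K : ℝ) ≤ 2 * (L * lam) := by linarith
      have h8 : (K : ℝ) ^ 2 ≤ (2 * (L * lam)) ^ 2 := pow_le_pow_left₀ hKR.le h7 2
      have h9 : lam ^ 2 * L ^ 2 ≤ lam ^ 2 * nq v := mul_le_mul_of_nonneg_left hL2 (by positivity)
      nlinarith
    have hκ : 0 < kap d * 2 ^ (3 * (d ^ 2 + d)) := by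
      have := kap_pos d
      positivity
    have hexp := exponents hε hd hκ hn1 hn hVR h6 hD hlam
      (R := 3 * (K : ℝ) ^ 2) (by positivity) hR
    have hN : 0 < 4 * (n : ℤ) - nq v := by
      have h7 : (nq v : ℤ) ≤ n := by exact_mod_cast h6
      have h8 : (0 : ℤ) < n := by exact_mod_cast hx0
      linarith
    have hNR : (n : ℝ) ≤ ((4 * (n : ℤ) - nq v : ℤ) : ℝ) := by
      push_cast
      linarith
    have hfin : (nq w * (q : ℝ) ^ 2 * n) ^ (d ^ 2) ≤
        ((nq w : ℝ) * ((4 * (n : ℤ) - nq v : ℤ) : ℝ)) ^ (d ^ 2) * ((q : ℝ) ^ (d ^ 2 + d)) ^ 2 := by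
      have e1 : (nq w * (q : ℝ) ^ 2 * n) ^ (d ^ 2) =
          ((nq w : ℝ) * n) ^ (d ^ 2) * ((q : ℝ) ^ (d ^ 2)) ^ 2 := by
        rw [← pow_mul, mul_comm (d ^ 2) 2, pow_mul, ← mul_pow]
        ring
      rw [e1]
      refine mul_le_mul (pow_le_pow_left₀ (by positivity) (mul_le_mul_of_nonneg_left hNR hD0) _)
        (pow_le_pow_left₀ (by positivity) (pow_le_pow_right₀ hqR (by omega)) 2) (by positivity) ?_
      refine pow_nonneg (mul_nonneg hD0 ?_) _
      exact le_trans hx0.le hNR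
    have h7 := arc_card d hd0 hv0 hvw hu (n := (n : ℤ)) (q := q) hN
      (R := 3 * (K : ℝ) ^ 2) (lt_of_lt_of_le hexp hfin) Z
      (fun ξ hξ => hS ξ (hZS hξ)) (fun ξ hξ => hS _ (hZv ξ hξ)) (by
        intro ξ hξ ξ' hξ'
        have hi : ∀ i, (ξ i - ξ' i) ^ 2 ≤ K ^ 2 := fun i => by
          have := (hZK ξ hξ ξ' hξ' i).1.le
          exact sq_le_sq' (abs_le.1 this).1 (abs_le.1 this).2
        have h8 : nq (ξ - ξ') ≤ 3 * K ^ 2 := by
          have e0 := hi 0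
          have e1 := hi 1
          have e2 := hi 2
          simp only [nq, Pi.sub_apply]
          linarith
        exact_mod_cast h8) (fun ξ hξ ξ' hξ' k => (hZK ξ hξ ξ' hξ' k).2)
    exact_mod_cast h7

lemma card_sphere {n : ℕ} {S : Finset V3} (hS : ∀ x ∈ S, nq x = n) :
    (S.card : ℝ) ≤ (2 * (n : ℝ) + 1) ^ 3 := by
  have h1 : S ⊆ Finset.Icc (fun _ : Fin 3 => -(n : ℤ)) (fun _ : Fin 3 => (n : ℤ)) := by
    intro x hx
    have hi : ∀ i, |x i| ≤ n := by
      intro i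
      have h2 := sq_le_nq x i
      rw [hS x hx] at h2
      have h3 : |x i| ≤ x i ^ 2 := by
        rw [← sq_abs]
        have h4 := abs_nonneg (x i)
        rcases h4.eq_or_lt with h5 | h5
        · rw [← h5]; norm_num
        · nlinarith
      exact h3.trans h2
    rw [Finset.mem_Icc]
    exact ⟨fun i => (abs_le.1 (hi i)).1, fun i => (abs_le.1 (hi i)).2⟩
  have h2 := Finset.card_le_card h1
  rw [Pi.card_Icc] at h2
  simp only [Int.card_Icc, Finset.prod_const, Finset.card_univ, Fintype.card_fin] at h2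
  have h3 : ((n : ℤ) + 1 - -(n : ℤ)).toNat = 2 * n + 1 := by omega
  rw [h3] at h2
  calc (S.card : ℝ) ≤ ((2 * n + 1 : ℕ) : ℝ) ^ 3 := by exact_mod_cast h2
    _ = (2 * (n : ℝ) + 1) ^ 3 := by push_cast; ring

lemma one_le_gcd {v : V3} (hv : v ≠ 0) : (1 : ℝ) ≤ ((Finset.univ.gcd v : ℤ) : ℝ) := by
  obtain ⟨t, w, u, ht, -, -, htg⟩ := exists_primitive hv
  have : (1 : ℤ) ≤ Finset.univ.gcd v := le_trans ht htg
  exact_mod_cast this

open Classical in
/-- The autocorrelation of a function on the lattice points of a sphere is bounded in `ℓ²` on the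
set of all `v ∈ q ℤ³` with `gcd(v) |v| ≤ q n^(1/2 - ε)`, uniformly in `q` and `n`. -/
theorem good_bound (ε : ℝ) (hε : 0 < ε) : ∃ C : ℝ, 0 ≤ C ∧ ∀ n : ℕ, ∀ q : ℤ, 0 < q →
    ∀ S T : Finset V3, (∀ x ∈ S, nq x = n) → (∀ v ∈ T, v ≠ 0) → (∀ v ∈ T, ∀ i, q ∣ v i) →
    (∀ v ∈ T, ((Finset.univ.gcd v : ℤ) : ℝ) * Real.sqrt (nq v) ≤ q * (n : ℝ) ^ (1 / 2 - ε)) →
    ∀ a : V3 → ℝ, (∀ x ∈ S, 0 < a x) → (∀ x, x ∉ S → a x = 0) →
      ∑ v ∈ T, (∑ ξ ∈ S, a (ξ + v) * a ξ) ^ 2 ≤ C * (∑ ξ ∈ S, a ξ ^ 2) ^ 2 := by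
  obtain ⟨d, hd⟩ := exists_nat_ge (2 / ε)
  have hd0 : 0 < d := by
    have : (0 : ℝ) < d := lt_of_lt_of_le (by positivity) hd
    exact_mod_cast this
  set C1 : ℝ := kap d * 2 ^ (3 * (d ^ 2 + d)) * 48 ^ (2 * d ^ 2 + d) with hC1
  have hC10 : 0 < C1 := by
    have := kap_pos d
    positivity
  set J : ℕ := ⌊3 / ε⌋₊ + 1 with hJ
  refine ⟨J * (27 * (2 * d)) + (2 * (C1 + 1) + 1) ^ 3, by positivity, ?_⟩
  intro n q hq S T hS hT0 hTq hT a ha ha0
  set A := ∑ ξ ∈ S, a ξ ^ 2 with hA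
  have hA0 : 0 ≤ A := Finset.sum_nonneg fun _ _ => sq_nonneg _
  by_cases hbig : C1 + 1 < (n : ℝ)
  · -- large n
    have hn1 : 1 < (n : ℝ) := by linarith
    have hx0 : (0 : ℝ) < n := by linarith
    set lam : ℝ := (n : ℝ) ^ (ε / 6) with hlam
    have hlam1 : 1 < lam := Real.one_lt_rpow hn1 (by positivity)
    set f : V3 → ℝ := fun v => (∑ ξ ∈ S, a (ξ + v) * a ξ) ^ 2 with hf
    have hf0 : ∀ v, 0 ≤ f v := fun v => sq_nonneg _
    set W : ℕ → Finset V3 := fun j => T.filter fun v =>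
      lam ^ j ≤ Real.sqrt (nq v) ∧ Real.sqrt (nq v) < lam ^ (j + 1) with hW
    have hscale : ∀ j, ∑ v ∈ W j, f v ≤ 27 * (2 * d) * A ^ 2 := by
      intro j
      refine scale_bound hε hd0 hd hn1 (by linarith) S (W j) hS hq (L := lam ^ j)
        (one_le_pow₀ hlam1.le) hlam ?_ a ha ha0
      intro v hv
      obtain ⟨hv1, hv2, hv3⟩ := Finset.mem_filter.1 hv
      refine ⟨hT0 v hv1, hv2, ?_, hTq v hv1, hT v hv1⟩
      rwa [← pow_succ]
    have hcover : ∀ v ∈ T, f v ≤ ∑ j ∈ Finset.range J, if v ∈ W j then f v else 0 := by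
      intro v hv
      have hv0 := hT0 v hv
      have hVpos : 0 < nq v := nq_pos hv0
      have hV1 : (1 : ℝ) ≤ nq v := by exact_mod_cast hVpos
      have hs1 : 1 ≤ Real.sqrt (nq v) := by
        rw [Real.one_le_sqrt]; exact hV1
      obtain ⟨j, hj1, hj2⟩ := exists_nat_pow_near hs1 hlam1
      have hgcd : (q : ℝ) ≤ ((Finset.univ.gcd v : ℤ) : ℝ) := by
        have h1 : q ∣ Finset.univ.gcd v := Finset.dvd_gcd fun i _ => hTq v hv i
        have h2 : (0 : ℤ) < Finset.univ.gcd v := by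
          have := one_le_gcd hv0
          have h3 : (1 : ℤ) ≤ Finset.univ.gcd v := by exact_mod_cast this
          omega
        exact_mod_cast Int.le_of_dvd h2 h1
      have hqR : (0 : ℝ) < q := by exact_mod_cast hq
      have hsx : Real.sqrt (nq v) ≤ (n : ℝ) ^ ((1 : ℝ) / 2) := by
        have h1 := hT v hv
        have h2 : (n : ℝ) ^ (1 / 2 - ε) ≤ (n : ℝ) ^ ((1 : ℝ) / 2) :=
          Real.rpow_le_rpow_of_exponent_le hn1.le (by linarith)
        have h3 : (q : ℝ) * Real.sqrt (nq v) ≤ q * (n : ℝ) ^ (1 / 2 - ε) :=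
          (mul_le_mul_of_nonneg_right hgcd (Real.sqrt_nonneg _)).trans h1
        exact (le_of_mul_le_mul_left h3 hqR).trans h2
      have hjJ : j < J := by
        have h1 : lam ^ j ≤ (n : ℝ) ^ ((1 : ℝ) / 2) := hj1.trans hsx
        rw [hlam, ← Real.rpow_natCast, ← Real.rpow_mul hx0.le,
          Real.rpow_le_rpow_left_iff hn1] at h1
        have h2 : (j : ℝ) ≤ 3 / ε := by
          rw [le_div_iff₀ hε]; linarith
        have h3 : j ≤ ⌊3 / ε⌋₊ := Nat.le_floor h2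
        omega
      have hvW : v ∈ W j := Finset.mem_filter.2 ⟨hv, hj1, hj2⟩
      calc f v = if v ∈ W j then f v else 0 := by rw [if_pos hvW]
        _ ≤ ∑ j ∈ Finset.range J, if v ∈ W j then f v else 0 :=
            Finset.single_le_sum (f := fun j => if v ∈ W j then f v else 0)
              (fun i _ => by
                show 0 ≤ if v ∈ W i then f v else 0
                split_ifs
                · exact hf0 v
                · exact le_rfl) (Finset.mem_range.2 hjJ)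
    have hmain : ∑ v ∈ T, f v ≤ J * (27 * (2 * d) * A ^ 2) := by
      calc ∑ v ∈ T, f v ≤ ∑ v ∈ T, ∑ j ∈ Finset.range J, if v ∈ W j then f v else 0 :=
            Finset.sum_le_sum hcover
        _ = ∑ j ∈ Finset.range J, ∑ v ∈ T, if v ∈ W j then f v else 0 := Finset.sum_comm
        _ ≤ ∑ j ∈ Finset.range J, 27 * (2 * d) * A ^ 2 := by
            refine Finset.sum_le_sum fun j _ => ?_
            rw [← Finset.sum_filter]
            have : T.filter (fun v => v ∈ W j) = W j := by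
              ext v
              simp only [Finset.mem_filter, hW]
              tauto
            rw [this]
            exact hscale j
        _ = J * (27 * (2 * d) * A ^ 2) := by
            rw [Finset.sum_const, Finset.card_range, nsmul_eq_mul]
    have h0 : 0 ≤ (2 * (C1 + 1) + 1) ^ 3 * A ^ 2 := by positivity
    calc ∑ v ∈ T, f v ≤ J * (27 * (2 * d) * A ^ 2) := hmain
      _ ≤ (J * (27 * (2 * d)) + (2 * (C1 + 1) + 1) ^ 3) * A ^ 2 := by linarith
  · -- small n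
    push Not at hbig
    have hcard : (S.card : ℝ) ≤ (2 * (C1 + 1) + 1) ^ 3 :=
      (card_sphere hS).trans (pow_le_pow_left₀ (by positivity) (by linarith) 3)
    have h1 := crude_bound S T ((2 * (C1 + 1) + 1) ^ 3) (by positivity) (fun v _ => by
      refine le_trans ?_ hcard
      exact_mod_cast Finset.card_filter_le _ _) a ha0
    refine h1.trans ?_
    have h0 : 0 ≤ (J : ℝ) * (27 * (2 * d)) * A ^ 2 := by positivity
    rw [← hA]
    linarith

end Pool.Agent.Lib_helper43.Tori
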