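import Mathlib

set_option autoImplicit false

/-!
# Points on a circle and a Vandermonde-like determinant
-/

namespace Pool.Agent.Lib_helper43.Tori

open Matrix Polynomial

/-- The polynomials representing `t^d y^l` and `t^d x y^l` for `t = x + i y` on the unit circle. -/
noncomputable def gpoly (d : ℕ) : Fin (d + 1) ⊕ Fin d → ℂ[X]
  | Sum.inl l => X ^ (d - (l : ℕ)) * (C (1 / (2 * Complex.I)) * (X ^ 2 - 1)) ^ (l : ℕ)
  | Sum.inr l => X ^ (d - 1 - (l : ℕ)) * (C (1 / 2) * (X ^ 2 + 1)) *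
      (C (1 / (2 * Complex.I)) * (X ^ 2 - 1)) ^ (l : ℕ)

/-- The functions `y^l` and `x y^l`. -/
def phi {R : Type*} [CommSemiring R] (d : ℕ) (x y : R) : Fin (d + 1) ⊕ Fin d → R
  | Sum.inl l => y ^ (l : ℕ)
  | Sum.inr l => x * y ^ (l : ℕ)

lemma gpoly_eval (d : ℕ) (x y : ℂ) (h : x ^ 2 + y ^ 2 = 1) (j : Fin (d + 1) ⊕ Fin d) :
    (gpoly d j).eval (x + Complex.I * y) = (x + Complex.I * y) ^ d * phi d x y j := by
  have hI : Complex.I ^ 2 = -1 := Complex.I_sq
  have e1 : 1 / (2 * Complex.I) * ((x + Complex.I * y) ^ 2 - 1) = (x + Complex.I * y) * y := by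
    have hI0 : (2 * Complex.I) ≠ 0 := by simp
    rw [div_mul_eq_mul_div, div_eq_iff hI0]
    linear_combination h - y ^ 2 * hI
  have e2 : (1 : ℂ) / 2 * ((x + Complex.I * y) ^ 2 + 1) = (x + Complex.I * y) * x := by
    linear_combination (-1 / 2) * h + (y ^ 2 / 2) * hI
  rcases j with l | l
  · simp only [gpoly, phi, eval_mul, eval_pow, eval_X, eval_C, eval_sub, eval_one]
    rw [e1, mul_pow, ← mul_assoc, ← pow_add]
    congr 2
    have := l.2
    omega
  · simp only [gpoly, phi, eval_mul, eval_pow, eval_X, eval_C, eval_sub, eval_one, eval_add]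
    rw [e1, e2, mul_pow]
    have e3 : (x + Complex.I * y) ^ d = (x + Complex.I * y) ^ (d - 1 - (l : ℕ)) *
        (x + Complex.I * y) * (x + Complex.I * y) ^ (l : ℕ) := by
      rw [← pow_succ, ← pow_add]
      congr 1
      have := l.2
      omega
    rw [e3]
    ring

lemma gpoly_natDegree (d : ℕ) (j : Fin (d + 1) ⊕ Fin d) : (gpoly d j).natDegree < d + 1 + d := by
  have hq : (C (1 / (2 * Complex.I)) * (X ^ 2 - 1 : ℂ[X])).natDegree ≤ 2 := by
    refine (natDegree_C_mul_le _ _).trans ?_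
    compute_degree
  have hq' : (C (1 / 2) * (X ^ 2 + 1 : ℂ[X])).natDegree ≤ 2 := by
    refine (natDegree_C_mul_le _ _).trans ?_
    compute_degree
  rcases j with l | l
  · have h1 : (gpoly d (Sum.inl l)).natDegree ≤ (d - (l : ℕ)) + l * 2 := by
      refine natDegree_mul_le.trans (add_le_add (natDegree_X_pow_le _) ?_)
      exact natDegree_pow_le.trans (Nat.mul_le_mul le_rfl hq)
    have := l.2
    omega
  · have h1 : (gpoly d (Sum.inr l)).natDegree ≤ (d - 1 - (l : ℕ)) + 2 + l * 2 := by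
      refine natDegree_mul_le.trans (add_le_add
        (natDegree_mul_le.trans (add_le_add (natDegree_X_pow_le _) hq')) ?_)
      exact natDegree_pow_le.trans (Nat.mul_le_mul le_rfl hq)
    have := l.2
    omega

/-- The coefficient matrix. -/
noncomputable def Tm (d : ℕ) : Matrix (Fin (d + 1 + d)) (Fin (d + 1 + d)) ℂ :=
  Matrix.of fun k j => (gpoly d (finSumFinEquiv.symm j)).coeff k

lemma vand_mul (d : ℕ) (x y : Fin (d + 1 + d) → ℂ) (h : ∀ i, x i ^ 2 + y i ^ 2 = 1) :
    Matrix.vandermonde (fun i => x i + Complex.I * y i) * Tm d =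
      Matrix.of fun i j => (x i + Complex.I * y i) ^ d *
        (Matrix.of fun i j => phi d (x i) (y i) (finSumFinEquiv.symm j)) i j := by
  ext i j
  rw [Matrix.mul_apply]
  simp only [Matrix.vandermonde_apply, Tm, Matrix.of_apply]
  rw [← gpoly_eval d _ _ (h i), eval_eq_sum_range' (gpoly_natDegree d _), Finset.sum_range]
  exact Finset.sum_congr rfl fun k _ => mul_comm _ _

lemma Tm_det_ne (d : ℕ) : (Tm d).det ≠ 0 := by
  intro h0
  obtain ⟨c, hc, hc0⟩ := Matrix.exists_mulVec_eq_zero_iff.2 h0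
  -- the polynomial vanishes
  have hP : ∑ j, C (c j) * gpoly d (finSumFinEquiv.symm j) = 0 := by
    ext k
    rw [finsetSum_coeff, coeff_zero]
    simp only [coeff_C_mul]
    by_cases hk : k < d + 1 + d
    · have := congrFun hc0 ⟨k, hk⟩
      simp only [Matrix.mulVec, dotProduct, Tm, Matrix.of_apply, Pi.zero_apply] at this
      rw [← this]
      exact Finset.sum_congr rfl fun j _ => mul_comm _ _
    · refine Finset.sum_eq_zero fun j _ => ?_
      rw [coeff_eq_zero_of_natDegree_lt (lt_of_lt_of_le (gpoly_natDegree d _) (not_lt.1 hk)),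
        mul_zero]
  have hphi : ∀ x y : ℂ, x ^ 2 + y ^ 2 = 1 → x + Complex.I * y ≠ 0 →
      ∑ j, c j * phi d x y (finSumFinEquiv.symm j) = 0 := by
    intro x y hxy hne
    have h1 := congrArg (eval (x + Complex.I * y)) hP
    rw [eval_finsetSum, eval_zero] at h1
    simp only [eval_mul, eval_C, gpoly_eval d x y hxy] at h1
    have h2 : (x + Complex.I * y) ^ d * ∑ j, c j * phi d x y (finSumFinEquiv.symm j) = 0 := by
      rw [← h1, Finset.mul_sum]
      exact Finset.sum_congr rfl fun j _ => by ring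
    exact (mul_eq_zero.1 h2).resolve_left (pow_ne_zero _ hne)
  have hphi2 : ∀ x y : ℂ, x ^ 2 + y ^ 2 = 1 → x + Complex.I * y ≠ 0 →
      (∑ l : Fin (d + 1), c (finSumFinEquiv (Sum.inl l)) * y ^ (l : ℕ)) +
      x * (∑ l : Fin d, c (finSumFinEquiv (Sum.inr l)) * y ^ (l : ℕ)) = 0 := by
    intro x y hxy hne
    have h1 := hphi x y hxy hne
    rw [← (finSumFinEquiv (m := d + 1) (n := d)).sum_comp] at h1
    rw [Fintype.sum_sum_type] at h1
    simp only [Equiv.symm_apply_apply, phi] at h1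
    rw [← h1, Finset.mul_sum]
    congr 1
    exact Finset.sum_congr rfl fun j _ => by ring
  -- real points
  have hreal : ∀ y : ℝ, 0 < y → y < 1 →
      (∑ l : Fin (d + 1), c (finSumFinEquiv (Sum.inl l)) * (y : ℂ) ^ (l : ℕ)) = 0 ∧
      (∑ l : Fin d, c (finSumFinEquiv (Sum.inr l)) * (y : ℂ) ^ (l : ℕ)) = 0 := by
    intro y hy0 hy1
    set x : ℝ := Real.sqrt (1 - y ^ 2) with hx
    have hpos : 0 < 1 - y ^ 2 := by nlinarith
    have hx0 : 0 < x := Real.sqrt_pos.2 hpos
    have hxy : x ^ 2 + y ^ 2 = 1 := by rw [hx, Real.sq_sqrt hpos.le]; ring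
    have hxyc : (x : ℂ) ^ 2 + (y : ℂ) ^ 2 = 1 := by exact_mod_cast hxy
    have hxyc' : (-(x : ℂ)) ^ 2 + (y : ℂ) ^ 2 = 1 := by rw [neg_sq]; exact hxyc
    have hne : ∀ z : ℝ, z ≠ 0 → (z : ℂ) + Complex.I * (y : ℂ) ≠ 0 := by
      intro z hz h
      have := congrArg Complex.re h
      simp at this
      exact hz this
    have h1 := hphi2 x y hxyc (hne x hx0.ne')
    have h2 := hphi2 (-x) y hxyc' (by
      have := hne (-x) (neg_ne_zero.2 hx0.ne')
      simpa using this)
    have hxc : (x : ℂ) ≠ 0 := by exact_mod_cast hx0.ne'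
    constructor
    · linear_combination (1 / 2) * h1 + (1 / 2) * h2
    · have h3 : (x : ℂ) * (∑ l : Fin d, c (finSumFinEquiv (Sum.inr l)) * (y : ℂ) ^ (l : ℕ)) = 0 := by
        linear_combination (1 / 2) * h1 - (1 / 2) * h2
      exact (mul_eq_zero.1 h3).resolve_left hxc
  have hinj : ∀ m : ℕ, Function.Injective fun j : Fin m =>
      (((1 : ℝ) / (((j : ℕ) : ℝ) + 2) : ℝ) : ℂ) := by
    intro m i j hij
    have h1 : (1 : ℝ) / (((i : ℕ) : ℝ) + 2) = 1 / (((j : ℕ) : ℝ) + 2) := by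
      exact Complex.ofReal_injective hij
    have hi : (0 : ℝ) < ((i : ℕ) : ℝ) + 2 := by positivity
    have hj : (0 : ℝ) < ((j : ℕ) : ℝ) + 2 := by positivity
    rw [div_eq_div_iff hi.ne' hj.ne'] at h1
    have h2 : ((i : ℕ) : ℝ) = ((j : ℕ) : ℝ) := by linarith
    exact Fin.ext (by exact_mod_cast h2)
  have hy0 : ∀ j : ℕ, 0 < (1 : ℝ) / ((j : ℝ) + 2) := fun j => by positivity
  have hy1 : ∀ j : ℕ, (1 : ℝ) / ((j : ℝ) + 2) < 1 := fun j => by
    rw [div_lt_one (by positivity)]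
    have : (0 : ℝ) ≤ j := Nat.cast_nonneg _
    linarith
  have hl : (fun l : Fin (d + 1) => c (finSumFinEquiv (Sum.inl l))) = 0 := by
    refine Matrix.eq_zero_of_forall_index_sum_pow_mul_eq_zero (hinj (d + 1)) fun j => ?_
    rw [← (hreal _ (hy0 j) (hy1 j)).1]
    exact Finset.sum_congr rfl fun i _ => mul_comm _ _
  have hr : (fun l : Fin d => c (finSumFinEquiv (Sum.inr l))) = 0 := by
    refine Matrix.eq_zero_of_forall_index_sum_pow_mul_eq_zero (hinj d) fun j => ?_
    rw [← (hreal _ (hy0 j) (hy1 j)).2]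
    exact Finset.sum_congr rfl fun i _ => mul_comm _ _
  apply hc
  ext j
  obtain ⟨k, rfl⟩ := finSumFinEquiv.surjective j
  rcases k with l | l
  · exact congrFun hl l
  · exact congrFun hr l

end Pool.Agent.Lib_helper43.Tori
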