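import Pool.Agent.Lib_helper43.Tori.Vand

set_option autoImplicit false

/-!
# The determinant identity for points on an ellipse
-/

namespace Pool.Agent.Lib_helper43.Tori

open Matrix Polynomial

/-- The constant in the determinant identity. -/
noncomputable def kap (d : ℕ) : ℝ := ‖(Tm d).det‖ ^ 2

lemma kap_pos (d : ℕ) : 0 < kap d := by
  unfold kap
  have := norm_pos_iff.2 (Tm_det_ne d)
  positivity

/-- The matrix of the functions `y^l` and `x y^l`. -/
def Bm {R : Type*} [CommSemiring R] (d : ℕ) (x y : Fin (d + 1 + d) → R) :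
    Matrix (Fin (d + 1 + d)) (Fin (d + 1 + d)) R :=
  Matrix.of fun i j => phi d (x i) (y i) (finSumFinEquiv.symm j)

lemma phi_map {R S : Type*} [CommSemiring R] [CommSemiring S] (f : R →+* S) (d : ℕ) (x y : R)
    (j : Fin (d + 1) ⊕ Fin d) : phi d (f x) (f y) j = f (phi d x y j) := by
  rcases j with l | l <;> simp [phi]

lemma Bm_det_map {R S : Type*} [CommRing R] [CommRing S] (f : R →+* S) (d : ℕ)
    (x y : Fin (d + 1 + d) → R) :
    (Bm d (fun i => f (x i)) (fun i => f (y i))).det = f (Bm d x y).det := by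
  rw [RingHom.map_det]
  congr 1
  ext i j
  simp [Bm, phi_map]

lemma unit_det (d : ℕ) (x y : Fin (d + 1 + d) → ℝ) (h : ∀ i, x i ^ 2 + y i ^ 2 = 1) :
    (Bm d x y).det ^ 2 =
      kap d * ∏ i, ∏ j ∈ Finset.Ioi i, ((x j - x i) ^ 2 + (y j - y i) ^ 2) := by
  set X : Fin (d + 1 + d) → ℂ := fun i => (x i : ℂ) with hX
  set Y : Fin (d + 1 + d) → ℂ := fun i => (y i : ℂ) with hY
  have hXY : ∀ i, X i ^ 2 + Y i ^ 2 = 1 := by
    intro i
    simp only [hX, hY]
    exact_mod_cast h i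
  have hn : ∀ a b : ℝ, ‖(a : ℂ) + Complex.I * (b : ℂ)‖ ^ 2 = a ^ 2 + b ^ 2 := by
    intro a b
    rw [mul_comm, ← Complex.normSq_eq_norm_sq, Complex.normSq_add_mul_I]
  have hnorm : ∀ i, ‖X i + Complex.I * Y i‖ = 1 := by
    intro i
    have h1 := hn (x i) (y i)
    rw [h i] at h1
    have h2 := norm_nonneg (X i + Complex.I * Y i)
    nlinarith [h1]
  have h1 := congrArg Matrix.det (vand_mul d X Y hXY)
  rw [Matrix.det_mul, Matrix.det_mul_column, Matrix.det_vandermonde] at h1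
  have h2 : (Matrix.of fun i j => phi d (X i) (Y i) (finSumFinEquiv.symm j)).det =
      (((Bm d x y).det : ℝ) : ℂ) := by
    have := Bm_det_map Complex.ofRealHom d x y
    simpa [Bm, hX, hY] using this
  rw [h2] at h1
  have h3 := congrArg (fun z : ℂ => ‖z‖ ^ 2) h1
  simp only [norm_mul, norm_prod, norm_pow, hnorm, one_pow, Finset.prod_const_one, one_mul,
    Complex.norm_real, mul_pow, Real.norm_eq_abs, sq_abs] at h3
  rw [← h3, kap, mul_comm]
  congr 1
  rw [← Finset.prod_pow]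
  refine Finset.prod_congr rfl fun i _ => ?_
  rw [← Finset.prod_pow]
  refine Finset.prod_congr rfl fun j _ => ?_
  rw [← hn]
  congr 2
  simp only [hX, hY]
  push_cast
  ring

lemma sum_exponents (d : ℕ) : (∑ l : Fin (d + 1), (l : ℕ)) + ∑ l : Fin d, (l : ℕ) = d ^ 2 := by
  rw [← Finset.sum_range (fun i => i), ← Finset.sum_range (fun i => i), Finset.sum_range_succ]
  have := Finset.sum_range_id_mul_two d
  rcases d with _ | d
  · simp
  · simp only [Nat.add_sub_cancel] at this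
    nlinarith

lemma card_pairs (d : ℕ) : ∑ i : Fin (d + 1 + d), (Finset.Ioi i).card = 2 * d ^ 2 + d := by
  simp only [Fin.card_Ioi]
  rw [← Finset.sum_range (fun i => d + 1 + d - 1 - i), Finset.sum_range_reflect (fun i => i)]
  have h := Finset.sum_range_id_mul_two (d + 1 + d)
  have : d + 1 + d - 1 = 2 * d := by omega
  rw [this] at h
  nlinarith

lemma prod_pairs_const (d : ℕ) (M : ℝ) :
    ∏ i : Fin (d + 1 + d), ∏ _j ∈ Finset.Ioi i, M = M ^ (2 * d ^ 2 + d) := by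
  simp only [Finset.prod_const]
  rw [Finset.prod_pow_eq_pow_sum, card_pairs]

lemma ellipse_det (d : ℕ) (D M : ℝ) (hD : 0 < D) (hM : 0 < M) (x s : Fin (d + 1 + d) → ℝ)
    (h : ∀ i, x i ^ 2 + D * s i ^ 2 = M) :
    (D * M) ^ (d ^ 2) * (Bm d x s).det ^ 2 =
      kap d * ∏ i, ∏ j ∈ Finset.Ioi i, ((x j - x i) ^ 2 + D * (s j - s i) ^ 2) := by
  set ρ := Real.sqrt M with hρ
  set δ := Real.sqrt D with hδ
  have hρ0 : 0 < ρ := Real.sqrt_pos.2 hM
  have hδ0 : 0 < δ := Real.sqrt_pos.2 hD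
  have hρ2 : ρ ^ 2 = M := Real.sq_sqrt hM.le
  have hδ2 : δ ^ 2 = D := Real.sq_sqrt hD.le
  have h1 := unit_det d (fun i => x i / ρ) (fun i => δ * s i / ρ) (by
    intro i
    have := h i
    field_simp
    rw [← hρ2, ← hδ2] at this
    linarith)
  set c : Fin (d + 1 + d) → ℝ := fun j =>
    Sum.elim (fun l : Fin (d + 1) => (δ / ρ) ^ (l : ℕ)) (fun l : Fin d => 1 / ρ * (δ / ρ) ^ (l : ℕ))
      (finSumFinEquiv.symm j) with hc
  have h2 : Bm d (fun i => x i / ρ) (fun i => δ * s i / ρ) =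
      Matrix.of fun i j => c j * Bm d x s i j := by
    ext i j
    simp only [Bm, Matrix.of_apply, hc]
    rcases finSumFinEquiv.symm j with l | l
    · simp only [phi, Sum.elim_inl]
      rw [← mul_pow]
      congr 1
      ring
    · simp only [phi, Sum.elim_inr]
      rw [show δ * s i / ρ = δ / ρ * s i by ring, mul_pow]
      ring
  have h3 : ∏ j, c j = (δ / ρ) ^ (d ^ 2) * (1 / ρ) ^ d := by
    rw [← (finSumFinEquiv (m := d + 1) (n := d)).prod_comp, Fintype.prod_sum_type]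
    simp only [hc, Equiv.symm_apply_apply, Sum.elim_inl, Sum.elim_inr]
    rw [Finset.prod_mul_distrib, Finset.prod_pow_eq_pow_sum, Finset.prod_pow_eq_pow_sum,
      Finset.prod_const, Finset.card_univ, Fintype.card_fin, ← sum_exponents d, pow_add]
    ring
  rw [h2, Matrix.det_mul_row, h3] at h1
  have h4 : ∏ i, ∏ j ∈ Finset.Ioi i, ((x j - x i) ^ 2 + D * (s j - s i) ^ 2) =
      M ^ (2 * d ^ 2 + d) * ∏ i, ∏ j ∈ Finset.Ioi i, ((x j / ρ - x i / ρ) ^ 2 +
        (δ * s j / ρ - δ * s i / ρ) ^ 2) := by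
    rw [← prod_pairs_const, ← Finset.prod_mul_distrib]
    refine Finset.prod_congr rfl fun i _ => ?_
    rw [← Finset.prod_mul_distrib]
    refine Finset.prod_congr rfl fun j _ => ?_
    rw [← hρ2, ← hδ2]
    field_simp
  rw [h4]
  calc (D * M) ^ (d ^ 2) * (Bm d x s).det ^ 2
      = M ^ (2 * d ^ 2 + d) * ((δ / ρ) ^ (d ^ 2) * (1 / ρ) ^ d * (Bm d x s).det) ^ 2 := by
        rw [← hρ2, ← hδ2]
        have e1 : (δ / ρ) ^ (d ^ 2) * ρ ^ (d ^ 2) = δ ^ (d ^ 2) := by
          rw [← mul_pow, div_mul_cancel₀ _ hρ0.ne']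
        have e2 : (1 / ρ) ^ d * ρ ^ d = 1 := by
          rw [← mul_pow, one_div_mul_cancel hρ0.ne', one_pow]
        calc (δ ^ 2 * ρ ^ 2) ^ (d ^ 2) * (Bm d x s).det ^ 2
            = (δ ^ (d ^ 2)) ^ 2 * (ρ ^ (d ^ 2)) ^ 2 * (Bm d x s).det ^ 2 := by ring
          _ = ((δ / ρ) ^ (d ^ 2) * ρ ^ (d ^ 2)) ^ 2 * (ρ ^ (d ^ 2)) ^ 2 *
                ((1 / ρ) ^ d * ρ ^ d) ^ 2 * (Bm d x s).det ^ 2 := by rw [e1, e2]; ring
          _ = _ := by ring
    _ = _ := by
        rw [h1]; ring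

end Pool.Agent.Lib_helper43.Tori
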